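import Pool.Agent.H61.HB.Def

/-!
# [H61 HB BOH] Bohr sets in `ZMod P`: size, symmetry, chords

Proof. `bohr_card`: pigeonhole. Map `h` to the family `r ↦ ⌊2^n * Int.fract (r.val * h.val / P)⌋ ∈ Fin (2^n)`, `r ∈ Λ`
(a function `Λ → Fin (2^n)`; `2^(n |Λ|)` values). Some fibre has at least `P / 2^(n |Λ|)` elements
(`Finset.exists_le_card_fiber_of_mul_le_card_of_maps_to` or: `P = ∑ fibres ≤ 2^(n|Λ|) * max`). For `h, h'` in the same fibre the fractional parts
differ by less than `2^(-n)`, so `r.val (h.val - h'.val)/P` is within `2^(-n)` of an integer; `(h - h').val = h.val - h'.val` or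
`h.val - h'.val + P`, so the same for `r.val (h - h').val / P`. So `h ↦ h - h'` (fixed `h'`) maps the fibre injectively to
`bohr Λ n`.
`bohr_chord`: `ee (r * h) = exp (2πi (r * h).val / P)` (`ZMod.stdAddChar_apply`, `ZMod.toCircle_apply`/`ZMod.stdAddChar_coe`), and
`(r * h).val ≡ r.val * h.val` mod `P`, so `ee (r * h) = exp (2πi r.val h.val / P) = exp (2πi y)`, `y = r.val h.val / P - z`, `|y| ≤ 2^(-n)`;
`‖exp (i t) - 1‖ ≤ |t|` (`Real.norm_exp_I_mul_ofReal_sub_one_le` or `Complex.norm_exp_I_mul_ofReal_sub_one_le`).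
`bohr_neg`: `(-h).val = P - h.val` for `h ≠ 0` (`ZMod.neg_val`), use the integer `r.val - z`.
`bp_card`: for `P` odd every nonzero `h` has `1 ≤ h.val`, and either `2 h.val < P` or `2 (-h).val < P`; so `bohr Λ n` is contained in
`{0} ∪ bp Λ n ∪ (bp Λ n).image (-·)`, and `|bohr| ≤ 2 |bp| + 1`. As `|bohr| ≥ P / 2^(n|Λ|) ≥ 2`, `|bp| ≥ 1` and `|bohr| ≤ 3 |bp|`.
-/

namespace Pool.Agent.H61.HB

open Finset

private theorem val_sub_int {P : ℕ} [NeZero P] (h h' : ZMod P) :
    ∃ e : ℤ, ((h - h').val : ℤ) = h.val - h'.val + P * e := by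
  have h1 : (((((h - h').val : ℤ) - ((h.val : ℤ) - h'.val)) : ℤ) : ZMod P) = 0 := by
    push_cast
    rw [ZMod.natCast_zmod_val, ZMod.natCast_zmod_val, ZMod.natCast_zmod_val]
    ring
  rw [ZMod.intCast_zmod_eq_zero_iff_dvd] at h1
  obtain ⟨e, he⟩ := h1
  exact ⟨e, by linarith⟩

private theorem P_pos {P : ℕ} [NeZero P] : (0 : ℝ) < P := by
  exact_mod_cast Nat.pos_of_ne_zero (NeZero.ne P)

private theorem mem_bohr' {P : ℕ} [NeZero P] {Λ : Finset (ZMod P)} {n : ℕ} {h : ZMod P} :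
    h ∈ bohr Λ n ↔ ∀ r ∈ Λ, ∃ z : ℤ, |(r.val : ℝ) * h.val / P - z| ≤ 1 / 2 ^ n := by
  classical
  simp [bohr]

theorem bohr_card {P : ℕ} [NeZero P] (Λ : Finset (ZMod P)) (n : ℕ) :
    P ≤ 2 ^ (n * Λ.card) * (bohr Λ n).card := by
  classical
  have h2n : (0 : ℝ) < 2 ^ n := by positivity
  have hlt : ∀ (y : ℝ), Nat.floor ((2 : ℝ) ^ n * Int.fract y) < 2 ^ n := by
    intro y
    rw [Nat.floor_lt (by have := Int.fract_nonneg y; positivity)]
    have h1 := Int.fract_lt_one y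
    push_cast
    nlinarith
  obtain ⟨φ, hφ⟩ : ∃ φ : ZMod P → (Λ → Fin (2 ^ n)), ∀ h r, ((φ h r : Fin (2 ^ n)) : ℕ) =
      Nat.floor ((2 : ℝ) ^ n * Int.fract ((r.1.val : ℝ) * h.val / P)) :=
    ⟨fun h r => ⟨_, hlt ((r.1.val : ℝ) * h.val / P)⟩, fun h r => rfl⟩
  have h1 := Finset.card_le_mul_card_image_of_maps_to (f := φ) (s := (Finset.univ : Finset (ZMod P)))
    (t := (Finset.univ : Finset (Λ → Fin (2 ^ n)))) (fun _ _ => Finset.mem_univ _)
    (bohr Λ n).card ?_
  · rw [Finset.card_univ, ZMod.card, Finset.card_univ, Fintype.card_fun, Fintype.card_fin,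
      Fintype.card_coe, ← pow_mul] at h1
    linarith
  · intro c _
    rcases Finset.eq_empty_or_nonempty ((Finset.univ : Finset (ZMod P)).filter fun a => φ a = c)
      with h0 | ⟨h', hh'⟩
    · rw [h0, Finset.card_empty]
      exact Nat.zero_le _
    · rw [Finset.mem_filter] at hh'
      refine Finset.card_le_card_of_injOn (fun h => h - h') ?_ ?_
      · intro h hh
        rw [Finset.mem_coe, Finset.mem_filter] at hh
        rw [Finset.mem_coe, mem_bohr']
        intro r hr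
        have e1 : φ h ⟨r, hr⟩ = φ h' ⟨r, hr⟩ := by rw [hh.2, hh'.2]
        have e2 : Nat.floor ((2 : ℝ) ^ n * Int.fract ((r.val : ℝ) * h.val / P)) =
            Nat.floor ((2 : ℝ) ^ n * Int.fract ((r.val : ℝ) * h'.val / P)) := by
          rw [← hφ h ⟨r, hr⟩, ← hφ h' ⟨r, hr⟩, e1]
        obtain ⟨y, hy⟩ : ∃ y, y = (r.val : ℝ) * h.val / P := ⟨_, rfl⟩
        obtain ⟨y', hy'⟩ : ∃ y', y' = (r.val : ℝ) * h'.val / P := ⟨_, rfl⟩
        rw [← hy, ← hy'] at e2
        have b1 := Nat.lt_floor_add_one ((2 : ℝ) ^ n * Int.fract y)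
        have b2 := Nat.lt_floor_add_one ((2 : ℝ) ^ n * Int.fract y')
        have b3 := Nat.floor_le (a := (2 : ℝ) ^ n * Int.fract y)
          (by have := Int.fract_nonneg y; positivity)
        have b4 := Nat.floor_le (a := (2 : ℝ) ^ n * Int.fract y')
          (by have := Int.fract_nonneg y'; positivity)
        rw [e2] at b1 b3
        have hab : |(2 : ℝ) ^ n * (Int.fract y - Int.fract y')| ≤ 1 := by
          rw [abs_le]
          constructor <;> linarith
        obtain ⟨e, he⟩ := val_sub_int h h'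
        refine ⟨⌊y⌋ - ⌊y'⌋ + r.val * e, ?_⟩
        have he' : ((h - h').val : ℝ) = h.val - h'.val + P * e := by exact_mod_cast he
        have e3 : (r.val : ℝ) * (h - h').val / P - ((⌊y⌋ - ⌊y'⌋ + r.val * e : ℤ) : ℝ) =
            Int.fract y - Int.fract y' := by
          rw [he']
          push_cast
          have f1 : (r.val : ℝ) * (h.val - h'.val + P * e) / P = y - y' + r.val * e := by
            rw [hy, hy']
            have := (P_pos (P := P)).ne'
            field_simp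
          rw [f1]
          unfold Int.fract
          ring
        show |(r.val : ℝ) * (h - h').val / P - ((⌊y⌋ - ⌊y'⌋ + r.val * e : ℤ) : ℝ)| ≤ 1 / 2 ^ n
        rw [e3, le_div_iff₀ h2n, mul_comm, ← abs_of_pos h2n, ← abs_mul]
        exact hab
      · intro a _ b _ hab
        exact sub_left_injective hab

theorem bohr_chord {P : ℕ} [NeZero P] {Λ : Finset (ZMod P)} {n : ℕ} {h r : ZMod P}
    (hh : h ∈ bohr Λ n) (hr : r ∈ Λ) : ‖ee (r * h) - 1‖ ≤ 2 * Real.pi / 2 ^ n := by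
  obtain ⟨z, hz⟩ := mem_bohr'.1 hh r hr
  obtain ⟨y, hy⟩ : ∃ y : ℝ, y = (r.val : ℝ) * h.val / P - z := ⟨_, rfl⟩
  rw [← hy] at hz
  have e1 : (((r.val * h.val : ℤ)) : ZMod P) = r * h := by
    push_cast
    rw [ZMod.natCast_zmod_val, ZMod.natCast_zmod_val]
  have e2 : ee (r * h) = Complex.exp (Complex.I * ((2 * Real.pi * y : ℝ) : ℂ)) := by
    unfold ee
    rw [← e1, ZMod.stdAddChar_coe]
    have e3 : (2 * (Real.pi : ℂ) * Complex.I * ((r.val * h.val : ℤ) : ℂ) / (P : ℂ)) =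
        Complex.I * ((2 * Real.pi * y : ℝ) : ℂ) + (z : ℂ) * (2 * Real.pi * Complex.I) := by
      rw [hy]
      push_cast
      ring
    rw [e3, Complex.exp_add, Complex.exp_int_mul_two_pi_mul_I, mul_one]
  rw [e2]
  refine (Real.norm_exp_I_mul_ofReal_sub_one_le).trans ?_
  rw [Real.norm_eq_abs, abs_mul, abs_of_pos Real.two_pi_pos]
  calc 2 * Real.pi * |y| ≤ 2 * Real.pi * (1 / 2 ^ n) :=
        mul_le_mul_of_nonneg_left hz Real.two_pi_pos.le
    _ = 2 * Real.pi / 2 ^ n := by ring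

theorem bohr_zero {P : ℕ} [NeZero P] (Λ : Finset (ZMod P)) (n : ℕ) : (0 : ZMod P) ∈ bohr Λ n := by
  rw [mem_bohr']
  intro r _
  refine ⟨0, ?_⟩
  rw [ZMod.val_zero]
  simp

theorem bohr_neg {P : ℕ} [NeZero P] {Λ : Finset (ZMod P)} {n : ℕ} {h : ZMod P}
    (hh : h ∈ bohr Λ n) : -h ∈ bohr Λ n := by
  rw [mem_bohr'] at hh ⊢
  intro r hr
  obtain ⟨z, hz⟩ := hh r hr
  obtain ⟨e, he⟩ := val_sub_int 0 h
  rw [zero_sub, ZMod.val_zero] at he
  refine ⟨r.val * e - z, ?_⟩
  have he' : ((-h).val : ℝ) = -h.val + P * e := by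
    have := congrArg (fun t : ℤ => (t : ℝ)) he
    push_cast at this
    rw [this]
    ring
  have e3 : (r.val : ℝ) * (-h).val / P - ((r.val * e - z : ℤ) : ℝ) =
      -((r.val : ℝ) * h.val / P - z) := by
    rw [he']
    push_cast
    have := (P_pos (P := P)).ne'
    field_simp
    ring
  rw [e3, abs_neg]
  exact hz

theorem bp_card {P : ℕ} [NeZero P] (hP : Odd P) (Λ : Finset (ZMod P)) (n : ℕ)
    (hn : 2 * 2 ^ (n * Λ.card) ≤ P) : P ≤ 3 * 2 ^ (n * Λ.card) * (bp Λ n).card := by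
  classical
  have hsub : bohr Λ n ⊆ insert 0 (bp Λ n ∪ (bp Λ n).image fun a => -a) := by
    intro h hh
    rw [Finset.mem_insert, Finset.mem_union, Finset.mem_image]
    by_cases h0 : h = 0
    · exact Or.inl h0
    · right
      have hv : h.val ≠ 0 := fun h1 => h0 ((ZMod.val_eq_zero h).1 h1)
      have hlt := ZMod.val_lt h
      by_cases h2 : 2 * h.val < P
      · left
        unfold bp
        rw [Finset.mem_filter]
        exact ⟨hh, by omega, h2⟩
      · right
        refine ⟨-h, ?_, neg_neg h⟩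
        have : NeZero h := ⟨h0⟩
        have hneg : (-h).val = P - h.val := ZMod.val_neg_of_ne_zero h
        unfold bp
        rw [Finset.mem_filter, hneg]
        obtain ⟨k, hk⟩ := hP
        exact ⟨bohr_neg hh, by omega, by omega⟩
  have h1 : (bohr Λ n).card ≤ 2 * (bp Λ n).card + 1 := by
    refine (Finset.card_le_card hsub).trans ((Finset.card_insert_le _ _).trans ?_)
    have h2 := Finset.card_union_le (bp Λ n) ((bp Λ n).image fun a => -a)
    have h3 : ((bp Λ n).image fun a => -a).card ≤ (bp Λ n).card := Finset.card_image_le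
    omega
  have h2 := bohr_card Λ n
  obtain ⟨K, hK⟩ : ∃ K, K = 2 ^ (n * Λ.card) := ⟨_, rfl⟩
  have hK1 : 1 ≤ K := by rw [hK]; exact Nat.one_le_two_pow
  rw [← hK] at h2 hn ⊢
  have h3 : P ≤ K * (2 * (bp Λ n).card + 1) := h2.trans (Nat.mul_le_mul_left _ h1)
  rcases Nat.eq_zero_or_pos (bp Λ n).card with h4 | h4
  · rw [h4] at h3
    omega
  · nlinarith

end Pool.Agent.H61.HB
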