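import Pool.Agent.H61.HB.Def
import Pool.Agent.H61.UN.Def

/-!
# [H61 HB BOX] From trees in `ZMod P` to admissible boxes of naturals

`n = m^j s`, `Q = n!`, `L' = L / Q`, `P = 2 L' + 1`. `le m j : Fin (m^j) ≃ Lf m j`.

Proof. `δ = min 1 (γ / (2 Q^n))` (or smaller), `L₀` with `P ≥ 2 n^2 / γ` and `L ≥ Q` for `L ≥ L₀` (`P ≥ 2 (L/Q - 1) + 1 ≥ L / Q` as real numbers for `L ≥ Q`).
The families `c` with `c q = c q'` for some `q ≠ q'` are at most `n^2 P^(n-1)` (for fixed `q ≠ q'` at most `P^(n-1)`: `c` is determined by its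
restriction to the other indices), so at least `γ P^n - n^2 P^(n-1) ≥ (γ/2) P^n` of the `c ∈ TT` are injective. `BB` = image of these under
`c ↦ (fun q => Q * (c (le m j q.1, q.2)).val)`, an injective map (`ZMod.val_injective`, `Q ≥ 1`, `le` bijective), so
`|BB| ≥ (γ/2) P^n ≥ (γ/2) (L/Q)^n ≥ δ L^n`. For `v ∈ BB`: values `≤ Q L' ≤ L` (`Nat.mul_div_le`); injective. Admissible: for a prime
`p ≤ n`, `p ∣ Q` (`Nat.Prime.dvd_factorial`), so `p` divides all `v q` and `r = 1` works (`p ∤ 1 + v q`). For `p > n` the `n` classes of the `-v q` do not cover all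
`p` classes: there is `t < p` which is not congruent to any `v q` mod `p`; `r = p - t` (copy the end of the proof of
`Pool.Agent.H61.GQ.adm_box`, file `H61/GQ/AdmBox.lean`).
-/

namespace Pool.Agent.H61.HB

open Finset Pool.Agent.H61.UN

/-- numbering of the leaves -/
noncomputable def le (m j : ℕ) : Fin (m ^ j) ≃ Lf m j := (Fintype.equivFinOfCardEq (card_Lf m j)).symm

private theorem card_eq_at {ι X : Type} [Fintype ι] [DecidableEq ι] [Fintype X] [DecidableEq X]
    (q q' : ι) (hq : q ≠ q') :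
    (univ.filter (fun c : ι → X => c q = c q')).card ≤ Fintype.card X ^ (Fintype.card ι - 1) := by
  classical
  have h1 : Fintype.card ({x : ι // x ≠ q'} → X) = Fintype.card X ^ (Fintype.card ι - 1) := by
    rw [Fintype.card_fun]
    congr 1
    rw [Fintype.card_subtype, Finset.filter_ne' univ q', Finset.card_erase_of_mem (Finset.mem_univ _),
      Finset.card_univ]
  rw [← h1, ← Finset.card_univ]
  refine Finset.card_le_card_of_injOn (fun c x => c x.1) (fun _ _ => Finset.mem_univ _) ?_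
  intro c hc c' hc' h
  have hc1 : c q = c q' := (Finset.mem_filter.1 hc).2
  have hc2 : c' q = c' q' := (Finset.mem_filter.1 hc').2
  funext x
  by_cases hx : x = q'
  · rw [hx, ← hc1, ← hc2]
    exact congrFun h ⟨q, hq⟩
  · exact congrFun h ⟨x, hx⟩

open Classical in
private theorem card_ninj {ι X : Type} [Fintype ι] [Fintype X] :
    (univ.filter (fun c : ι → X => ¬ Function.Injective c)).card ≤
      Fintype.card ι ^ 2 * Fintype.card X ^ (Fintype.card ι - 1) := by
  have h1 : (univ.filter (fun c : ι → X => ¬ Function.Injective c)) ⊆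
      ((univ : Finset (ι × ι)).filter (fun w => w.1 ≠ w.2)).biUnion
        (fun w => univ.filter (fun c : ι → X => c w.1 = c w.2)) := by
    intro c hc
    rw [Finset.mem_filter] at hc
    have h2 := hc.2
    unfold Function.Injective at h2
    push Not at h2
    obtain ⟨a, b, hab, hne⟩ := h2
    rw [Finset.mem_biUnion]
    exact ⟨(a, b), Finset.mem_filter.2 ⟨Finset.mem_univ _, hne⟩, Finset.mem_filter.2 ⟨Finset.mem_univ _, hab⟩⟩
  refine (Finset.card_le_card h1).trans (Finset.card_biUnion_le.trans ?_)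
  refine (Finset.sum_le_card_nsmul _ _ (Fintype.card X ^ (Fintype.card ι - 1)) (fun w hw => ?_)).trans ?_
  · exact card_eq_at w.1 w.2 (Finset.mem_filter.1 hw).2
  · rw [smul_eq_mul]
    refine Nat.mul_le_mul_right _ ((Finset.card_le_univ _).trans ?_)
    rw [Fintype.card_prod, sq]

theorem box (m j s : ℕ) (hm : 1 ≤ m) (hs : 1 ≤ s) (γ : ℝ) (hγ : 0 < γ) :
    ∃ (δ : ℝ) (L₀ : ℕ), 0 < δ ∧ δ ≤ 1 ∧ ∀ L : ℕ, L₀ ≤ L →
      ∀ TT : Finset (Lf m j × Fin s → ZMod (2 * (L / (m ^ j * s).factorial) + 1)),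
        (∀ c ∈ TT, ∀ q, (c q).val ≤ L / (m ^ j * s).factorial) →
        γ * ((2 * (L / (m ^ j * s).factorial) + 1 : ℕ) : ℝ) ^ (m ^ j * s) ≤ (TT.card : ℝ) →
        ∃ BB : Finset (Fin (m ^ j) × Fin s → ℕ),
          (∀ v ∈ BB, v ∈ IJ (Fin (m ^ j) × Fin s) L ∧ Admv v) ∧
          δ * (L : ℝ) ^ (m ^ j * s) ≤ (BB.card : ℝ) ∧
          ∀ v ∈ BB, ∃ c ∈ TT, ∀ i t, v (i, t) = (m ^ j * s).factorial * (c (le m j i, t)).val := by
  classical
  obtain ⟨n, hn⟩ : ∃ n, n = m ^ j * s := ⟨_, rfl⟩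
  rw [← hn]
  have hn1 : 1 ≤ n := by
    rw [hn]
    exact Nat.mul_pos (Nat.pow_pos (by omega)) hs
  obtain ⟨Q, hQ⟩ : ∃ Q, Q = n.factorial := ⟨_, rfl⟩
  rw [← hQ]
  have hQ0 : 0 < Q := by rw [hQ]; exact Nat.factorial_pos _
  have hQr : (0 : ℝ) < Q := by exact_mod_cast hQ0
  obtain ⟨L₀, hL₀⟩ := exists_nat_gt ((Q : ℝ) * (2 * (n : ℝ) ^ 2 / γ))
  refine ⟨min 1 (γ / (2 * (Q : ℝ) ^ n)), L₀, lt_min one_pos (by positivity), min_le_left _ _, ?_⟩
  intro L hL TT hTT hcard
  obtain ⟨P, hP⟩ : ∃ P, P = 2 * (L / Q) + 1 := ⟨_, rfl⟩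
  have hcι : Fintype.card (Lf m j × Fin s) = n := by
    rw [Fintype.card_prod, card_Lf, Fintype.card_fin, hn]
  have hcX : Fintype.card (ZMod (2 * (L / Q) + 1)) = P := by
    rw [ZMod.card, hP]
  have hcard' : γ * (P : ℝ) ^ n ≤ (TT.card : ℝ) := by
    have e : ((2 * (L / Q) + 1 : ℕ) : ℝ) = (P : ℝ) := by rw [hP]
    rw [e] at hcard
    exact hcard
  -- size of P
  have hPL : (L : ℝ) / Q ≤ P := by
    rw [div_le_iff₀ hQr]
    have h1 : L < Q * (L / Q) + Q := by
      have h2 := Nat.div_add_mod L Q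
      have h3 := Nat.mod_lt L hQ0
      omega
    have h2 : L ≤ P * Q := by
      rw [hP]
      have : Q * (L / Q) + Q ≤ (2 * (L / Q) + 1) * Q := by ring_nf; nlinarith [Nat.zero_le (L / Q * Q)]
      omega
    exact_mod_cast h2
  have hPn : 2 * (n : ℝ) ^ 2 / γ ≤ P := by
    refine le_trans ?_ hPL
    rw [le_div_iff₀ hQr, mul_comm]
    exact hL₀.le.trans (by exact_mod_cast hL)
  -- injective members
  obtain ⟨T1, hT1⟩ : ∃ T1, T1 = TT.filter (fun c => Function.Injective c) := ⟨_, rfl⟩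
  have h1 : (TT.card : ℝ) ≤ T1.card + (n : ℝ) ^ 2 * (P : ℝ) ^ (n - 1) := by
    have h2 : TT.card = T1.card + (TT.filter (fun c => ¬ Function.Injective c)).card := by
      rw [hT1]
      exact (Finset.card_filter_add_card_filter_not _).symm
    have h3 : (TT.filter (fun c => ¬ Function.Injective c)).card ≤ n ^ 2 * P ^ (n - 1) := by
      refine (Finset.card_le_card (Finset.filter_subset_filter _ (Finset.subset_univ _))).trans ?_
      have h4 := card_ninj (ι := Lf m j × Fin s) (X := ZMod (2 * (L / Q) + 1))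
      rw [hcι, hcX] at h4
      refine le_trans (le_of_eq ?_) h4
      congr 1
      ext c
      simp only [Finset.mem_filter, Finset.mem_univ, true_and]
    rw [h2]
    push_cast
    have h4 : ((TT.filter (fun c => ¬ Function.Injective c)).card : ℝ) ≤ (n : ℝ) ^ 2 * (P : ℝ) ^ (n - 1) := by
      exact_mod_cast h3
    linarith
  have h2 : (n : ℝ) ^ 2 * (P : ℝ) ^ (n - 1) ≤ γ / 2 * (P : ℝ) ^ n := by
    obtain ⟨k, rfl⟩ : ∃ k, n = k + 1 := ⟨n - 1, by omega⟩
    rw [Nat.add_sub_cancel, pow_succ (P : ℝ) k]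
    rw [div_le_iff₀ hγ] at hPn
    have h3 : (0 : ℝ) ≤ (P : ℝ) ^ k := by positivity
    nlinarith [mul_le_mul_of_nonneg_right hPn h3]
  have h3 : γ / 2 * (P : ℝ) ^ n ≤ T1.card := by linarith
  obtain ⟨Φ, hΦ⟩ : ∃ Φ : (Lf m j × Fin s → ZMod (2 * (L / Q) + 1)) → (Fin (m ^ j) × Fin s → ℕ),
      Φ = fun c q => Q * (c (le m j q.1, q.2)).val := ⟨_, rfl⟩
  have hΦi : Function.Injective Φ := by
    intro c c' h
    rw [hΦ] at h
    funext q
    have h4 := congrFun h ((le m j).symm q.1, q.2)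
    simp only [Equiv.apply_symm_apply] at h4
    have h5 := Nat.eq_of_mul_eq_mul_left hQ0 h4
    exact ZMod.val_injective _ h5
  refine ⟨T1.image Φ, ?_, ?_, ?_⟩
  · intro v hv
    rw [Finset.mem_image] at hv
    obtain ⟨c, hc, rfl⟩ := hv
    rw [hT1, Finset.mem_filter] at hc
    obtain ⟨hc1, hc2⟩ := hc
    have hvi : Function.Injective (Φ c) := by
      intro q q' h
      rw [hΦ] at h
      have h5 := Nat.eq_of_mul_eq_mul_left hQ0 h
      have h6 := hc2 (ZMod.val_injective _ h5)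
      rw [Prod.mk.injEq] at h6
      exact Prod.ext ((le m j).injective h6.1) h6.2
    refine ⟨mem_IJ.2 ⟨fun q => ?_, hvi⟩, ?_⟩
    · rw [hΦ]
      exact (Nat.mul_le_mul_left _ (hTT c hc1 _)).trans (Nat.mul_div_le _ _)
    · intro p hp
      by_cases hps : p ≤ n
      · have hdvd : p ∣ Q := by
          rw [hQ]
          exact (Nat.Prime.dvd_factorial hp).2 hps
        refine ⟨1, fun q hd => ?_⟩
        have h5 : p ∣ Φ c q := by
          rw [hΦ]
          exact Dvd.dvd.mul_right hdvd _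
        have h6 := (Nat.dvd_add_left h5).1 hd
        exact hp.one_lt.ne' (Nat.dvd_one.1 h6)
      · rw [not_le] at hps
        obtain ⟨S, hS⟩ : ∃ S : Finset ℕ, S = univ.image (fun q : Fin (m ^ j) × Fin s => Φ c q % p) :=
          ⟨_, rfl⟩
        have h1 : S.card < p := by
          rw [hS]
          refine lt_of_le_of_lt card_image_le ?_
          rw [card_univ, Fintype.card_prod, Fintype.card_fin, Fintype.card_fin, ← hn]
          exact hps
        obtain ⟨t, ht, ht'⟩ : ∃ t ∈ range p, t ∉ S := by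
          by_contra hcon'
          push Not at hcon'
          have := card_le_card (fun t ht => hcon' t ht : range p ⊆ S)
          rw [card_range] at this
          omega
        rw [mem_range] at ht
        refine ⟨p - t, fun q hq => ht' ?_⟩
        rw [hS, mem_image]
        refine ⟨q, mem_univ _, ?_⟩
        have h3 : (p - t + Φ c q) + t ≡ 0 + t [MOD p] :=
          Nat.ModEq.add_right t ((Nat.modEq_zero_iff_dvd).2 hq)
        have h4 : (p - t + Φ c q) + t = Φ c q + p := by omega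
        rw [h4, zero_add] at h3
        have h5 : Φ c q + p ≡ Φ c q [MOD p] := Nat.add_mod_right _ _
        have h6 : Φ c q % p = t % p := h5.symm.trans h3
        rw [h6, Nat.mod_eq_of_lt ht]
  · rw [Finset.card_image_of_injective _ hΦi]
    refine le_trans ?_ h3
    have h4 : ((L : ℝ) / Q) ^ n ≤ (P : ℝ) ^ n := pow_le_pow_left₀ (by positivity) hPL n
    calc min 1 (γ / (2 * (Q : ℝ) ^ n)) * (L : ℝ) ^ n ≤ (γ / (2 * (Q : ℝ) ^ n)) * (L : ℝ) ^ n :=
          mul_le_mul_of_nonneg_right (min_le_right _ _) (by positivity)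
      _ = γ / 2 * ((L : ℝ) / Q) ^ n := by
          rw [div_pow]
          field_simp
      _ ≤ γ / 2 * (P : ℝ) ^ n := mul_le_mul_of_nonneg_left h4 (by positivity)
  · intro v hv
    rw [Finset.mem_image] at hv
    obtain ⟨c, hc, rfl⟩ := hv
    rw [hT1, Finset.mem_filter] at hc
    refine ⟨c, hc.1, fun i t => ?_⟩
    rw [hΦ]

end Pool.Agent.H61.HB
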