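import Pool.Agent.H61.HB.Def

/-!
# [H61 HB CNV] The Bohr sets of `ZMod P` as Bohr sets of `[1, L]` with radius `1/4` (Mathlib only)

Proof. (0) Lemma: for real `x` and `n ≥ 2`: `(∃ z : ℤ, |x - z| ≤ 1/2^n) ↔ ∀ l ≤ n - 2, ∃ z : ℤ, |2^l x - z| ≤ 1/4`. (→: multiply by `2^l`.
←: induction on `n`: from `|2^l x - z| ≤ 1/4` and `|2^(l+1) x - z'| ≤ 1/4`, `|2^(l+1) x - 2 z| ≤ 1/2`, so `|z' - 2 z| ≤ 3/4`, `z' = 2 z`; so inductively
`|2^l x - 2^l z₀| ≤ 1/4` for all `l`, `z₀` the integer for `l = 0`.) For `n ≤ 1` the left side is always true.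
(1) Divisibility by `Q`: `l_Q = Q` (`2^(Q+2) > Q`): `(∀ l ≤ Q, ∃ z, |2^l h / Q - z| ≤ 1/4) ↔ Q ∣ h`: by (0) with `n = Q + 2`, `|h/Q - z| ≤ 1/2^(Q+2) < 1/Q`, so
`|h - Q z| < 1`.
(2) Frequencies: `2^l / Q`, `l ≤ Q`; and, if `n ≥ 2`, `2^l * r.val / (P * Q)`, `r ∈ Λ`, `l ≤ n - 2`; at most `Q + 1 + D * D` numbers. `D' = Q + 1 + D * D`; enumerate
the finite set of these numbers by `Fin D'` (e.g. `fun i => l.getD i 0` for the list `l` of the finset; the other values are `0`, and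
`|h * 0 - 0| ≤ 1/4`). For `1 ≤ h ≤ L`: all conditions hold iff `h = Q h'` and `∃ z, |r.val h' / P - z| ≤ 1/2^n` for all `r ∈ Λ`; then
`1 ≤ h' ≤ L / Q < P`, `b = (h' : ZMod P)` has `b.val = h'` (`ZMod.val_cast_of_lt`), `2 b.val < P = 2 (L/Q) + 1`; so `b ∈ bp Λ n`. Conversely `b ∈ bp Λ n`, `h = Q b.val`.
-/

namespace Pool.Agent.H61.HB

open Finset

private theorem near_dyadic (m : ℕ) : ∀ x : ℝ, (∀ l ≤ m, ∃ z : ℤ, |2 ^ l * x - z| ≤ 1 / 4) →
    ∃ z : ℤ, |x - z| ≤ 1 / 2 ^ (m + 2) := by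
  induction m with
  | zero =>
    intro x h
    obtain ⟨z, hz⟩ := h 0 le_rfl
    refine ⟨z, ?_⟩
    rw [pow_zero, one_mul] at hz
    have e : (1 : ℝ) / 2 ^ (0 + 2) = 1 / 4 := by norm_num
    rw [e]
    exact hz
  | succ m ih =>
    intro x h
    obtain ⟨z', hz'⟩ := ih (2 * x) (fun l hl => by
      obtain ⟨z, hz⟩ := h (l + 1) (by omega)
      refine ⟨z, ?_⟩
      have e : (2 : ℝ) ^ l * (2 * x) = 2 ^ (l + 1) * x := by rw [pow_succ]; ring
      rw [e]
      exact hz)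
    obtain ⟨z, hz⟩ := h 0 (Nat.zero_le _)
    rw [pow_zero, one_mul] at hz
    have h1 : (1 : ℝ) / 2 ^ (m + 2) ≤ 1 / 4 := by
      apply one_div_le_one_div_of_le (by norm_num)
      calc (4 : ℝ) = 2 ^ 2 := by norm_num
        _ ≤ 2 ^ (m + 2) := pow_le_pow_right₀ (by norm_num) (by omega)
    have h2 : |((z' - 2 * z : ℤ) : ℝ)| < 1 := by
      push_cast
      rw [abs_le] at hz hz'
      rw [abs_lt]
      constructor
      · linarith [hz.1, hz.2, hz'.1, hz'.2]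
      · linarith [hz.1, hz.2, hz'.1, hz'.2]
    have h3 : z' - 2 * z = 0 := by
      have h4 : |z' - 2 * z| < 1 := by exact_mod_cast h2
      exact Int.abs_lt_one_iff.1 h4
    have h5 : z' = 2 * z := by omega
    refine ⟨z, ?_⟩
    rw [h5] at hz'
    push_cast at hz'
    have h6 : |2 * x - 2 * (z : ℝ)| = 2 * |x - z| := by
      rw [← mul_sub, abs_mul, abs_of_pos (by norm_num : (0 : ℝ) < 2)]
    rw [h6] at hz'
    have h7 : (1 : ℝ) / 2 ^ (m + 1 + 2) = (1 / 2 ^ (m + 2)) / 2 := by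
      have e : (2 : ℝ) ^ (m + 1 + 2) = 2 ^ (m + 2) * 2 := by rw [← pow_succ]
      rw [e, div_div]
    rw [h7]
    linarith

private theorem dyadic_iff (n : ℕ) (x : ℝ) : (∃ z : ℤ, |x - z| ≤ 1 / 2 ^ n) ↔
    ∀ l, l + 2 ≤ n → ∃ z : ℤ, |2 ^ l * x - z| ≤ 1 / 4 := by
  constructor
  · rintro ⟨z, hz⟩ l hl
    refine ⟨2 ^ l * z, ?_⟩
    push_cast
    rw [← mul_sub, abs_mul, abs_of_pos (by positivity : (0 : ℝ) < 2 ^ l)]
    calc (2 : ℝ) ^ l * |x - z| ≤ 2 ^ l * (1 / 2 ^ n) := mul_le_mul_of_nonneg_left hz (by positivity)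
      _ ≤ 1 / 4 := by
        rw [mul_one_div, div_le_div_iff₀ (by positivity) (by norm_num), one_mul]
        calc (2 : ℝ) ^ l * 4 = 2 ^ (l + 2) := by rw [pow_add]; norm_num
          _ ≤ 2 ^ n := pow_le_pow_right₀ (by norm_num) hl
  · intro h
    rcases Nat.lt_or_ge n 2 with hn | hn
    · refine ⟨round x, ?_⟩
      have h1 := abs_sub_round x
      have h2 : (1 : ℝ) / 2 ≤ 1 / 2 ^ n := by
        interval_cases n <;> norm_num
      exact h1.trans h2
    · obtain ⟨m, rfl⟩ : ∃ m, n = m + 2 := ⟨n - 2, by omega⟩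
      exact near_dyadic m x (fun l hl => h l (by omega))

private theorem enum (F : Finset ℝ) (D' : ℕ) (hF : F.card ≤ D') :
    ∃ α : Fin D' → ℝ, ∀ p : ℝ → Prop, p 0 → ((∀ i, p (α i)) ↔ ∀ x ∈ F, p x) := by
  refine ⟨fun i => F.toList.getD i 0, fun p hp => ?_⟩
  constructor
  · intro h x hx
    rw [← Finset.mem_toList, List.mem_iff_getElem] at hx
    obtain ⟨i, hi, rfl⟩ := hx
    have h1 : p (F.toList.getD i 0) := h ⟨i, lt_of_lt_of_le (by rw [← Finset.length_toList]; exact hi) hF⟩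
    rw [List.getD_eq_getElem _ _ hi] at h1
    exact h1
  · intro h i
    show p (F.toList.getD i 0)
    rcases Nat.lt_or_ge (i : ℕ) F.toList.length with hi | hi
    · rw [List.getD_eq_getElem _ _ hi]
      exact h _ (Finset.mem_toList.1 (List.getElem_mem hi))
    · rw [List.getD_eq_default _ _ hi]
      exact hp

theorem cnv (Q D : ℕ) (hQ : 1 ≤ Q) : ∃ D' : ℕ, ∀ (L P : ℕ) [NeZero P], P = 2 * (L / Q) + 1 →
    ∀ (Λ : Finset (ZMod P)) (n : ℕ), Λ.card ≤ D → n ≤ D → ∃ α : Fin D' → ℝ,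
      ∀ h : ℕ, 1 ≤ h → h ≤ L →
        ((∀ i, ∃ z : ℤ, |(h : ℝ) * α i - z| ≤ 1 / 4) ↔ ∃ b ∈ bp Λ n, h = Q * b.val) := by
  classical
  refine ⟨Q + 1 + D * D, ?_⟩
  intro L P hP0 hP Λ n hΛ hn
  have hQ0 : (0 : ℝ) < Q := by exact_mod_cast hQ
  have hP1 : 0 < P := by omega
  have hPr : (0 : ℝ) < P := by exact_mod_cast hP1
  obtain ⟨F, hF⟩ : ∃ F : Finset ℝ, F = (range (Q + 1)).image (fun l : ℕ => (2 : ℝ) ^ l / Q) ∪
      (Λ ×ˢ range (n - 1)).image (fun w : ZMod P × ℕ => (2 : ℝ) ^ w.2 * (w.1.val : ℝ) / (P * Q)) :=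
    ⟨_, rfl⟩
  have hFc : F.card ≤ Q + 1 + D * D := by
    rw [hF]
    refine (Finset.card_union_le _ _).trans (Nat.add_le_add ?_ ?_)
    · exact (Finset.card_image_le).trans (by rw [Finset.card_range])
    · refine (Finset.card_image_le).trans ?_
      rw [Finset.card_product, Finset.card_range]
      exact Nat.mul_le_mul hΛ (by omega)
  obtain ⟨α, hα⟩ := enum F _ hFc
  refine ⟨α, fun h h1 hL => ?_⟩
  rw [hα (fun x => ∃ z : ℤ, |(h : ℝ) * x - z| ≤ 1 / 4) ⟨0, by norm_num⟩]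
  have hsplit : (∀ x ∈ F, ∃ z : ℤ, |(h : ℝ) * x - z| ≤ 1 / 4) ↔
      (∃ z : ℤ, |(h : ℝ) / Q - z| ≤ 1 / 2 ^ (Q + 2)) ∧
      ∀ r ∈ Λ, ∃ z : ℤ, |(r.val : ℝ) * (h / Q) / P - z| ≤ 1 / 2 ^ n := by
    constructor
    · intro hx
      constructor
      · rw [dyadic_iff]
        intro l hl
        obtain ⟨z, hz⟩ := hx ((2 : ℝ) ^ l / Q) (by
          rw [hF]
          refine Finset.mem_union_left _ (Finset.mem_image.2 ⟨l, ?_, rfl⟩)
          rw [Finset.mem_range]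
          omega)
        refine ⟨z, ?_⟩
        have e : (2 : ℝ) ^ l * ((h : ℝ) / Q) = h * (2 ^ l / Q) := by ring
        rw [e]
        exact hz
      · intro r hr
        rw [dyadic_iff]
        intro l hl
        obtain ⟨z, hz⟩ := hx ((2 : ℝ) ^ l * (r.val : ℝ) / (P * Q)) (by
          rw [hF]
          refine Finset.mem_union_right _ (Finset.mem_image.2 ⟨(r, l), ?_, rfl⟩)
          rw [Finset.mem_product, Finset.mem_range]
          exact ⟨hr, by show l < n - 1; omega⟩)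
        refine ⟨z, ?_⟩
        have e : (2 : ℝ) ^ l * ((r.val : ℝ) * (h / Q) / P) = h * (2 ^ l * (r.val : ℝ) / (P * Q)) := by
          field_simp
        rw [e]
        exact hz
    · rintro ⟨ha, hb⟩ x hx
      rw [hF, Finset.mem_union, Finset.mem_image, Finset.mem_image] at hx
      rcases hx with ⟨l, hl, rfl⟩ | ⟨⟨r, l⟩, hl, rfl⟩
      · rw [Finset.mem_range] at hl
        obtain ⟨z, hz⟩ := (dyadic_iff _ _).1 ha l (by omega)
        refine ⟨z, ?_⟩
        have e : (2 : ℝ) ^ l * ((h : ℝ) / Q) = h * (2 ^ l / Q) := by ring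
        rw [← e]
        exact hz
      · rw [Finset.mem_product, Finset.mem_range] at hl
        obtain ⟨hr, hl'⟩ := hl
        have hl2 : l + 2 ≤ n := by
          have : l < n - 1 := hl'
          omega
        obtain ⟨z, hz⟩ := (dyadic_iff _ _).1 (hb r hr) l hl2
        refine ⟨z, ?_⟩
        have e : (2 : ℝ) ^ l * ((r.val : ℝ) * (h / Q) / P) = h * (2 ^ l * (r.val : ℝ) / (P * Q)) := by
          field_simp
        show |(h : ℝ) * (2 ^ l * (r.val : ℝ) / (P * Q)) - z| ≤ 1 / 4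
        rw [← e]
        exact hz
  rw [hsplit]
  constructor
  · rintro ⟨⟨z, hz⟩, hb⟩
    have h2 : |((h : ℤ) - Q * z : ℤ)| < 1 := by
      have h3 : |((h : ℝ)) - Q * z| < 1 := by
        have e : (h : ℝ) - Q * z = Q * ((h : ℝ) / Q - z) := by field_simp
        rw [e, abs_mul, abs_of_pos hQ0]
        calc (Q : ℝ) * |(h : ℝ) / Q - z| ≤ Q * (1 / 2 ^ (Q + 2)) :=
              mul_le_mul_of_nonneg_left hz hQ0.le
          _ < 1 := by
            rw [mul_one_div, div_lt_one (by positivity)]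
            have : Q < 2 ^ Q := Nat.lt_two_pow_self
            have h4 : (Q : ℝ) < 2 ^ Q := by exact_mod_cast this
            calc (Q : ℝ) < 2 ^ Q := h4
              _ ≤ 2 ^ (Q + 2) := pow_le_pow_right₀ (by norm_num) (by omega)
      have h5 : |(((h : ℤ) - Q * z : ℤ) : ℝ)| < 1 := by
        push_cast
        exact h3
      exact_mod_cast h5
    have h3 := Int.abs_lt_one_iff.1 h2
    have h4 : (Q : ℤ) ∣ (h : ℤ) := ⟨z, by linarith⟩
    obtain ⟨h', rfl⟩ := Int.natCast_dvd_natCast.1 h4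
    have hh' : h' ≤ L / Q := by
      rw [Nat.le_div_iff_mul_le (by omega)]
      rw [mul_comm]
      exact hL
    have hv : (h' : ZMod P).val = h' := ZMod.val_cast_of_lt (by omega)
    refine ⟨(h' : ZMod P), ?_, by rw [hv]⟩
    unfold bp bohr
    rw [Finset.mem_filter, Finset.mem_filter]
    refine ⟨⟨Finset.mem_univ _, fun r hr => ?_⟩, ?_, ?_⟩
    · obtain ⟨z, hz⟩ := hb r hr
      refine ⟨z, ?_⟩
      rw [hv]
      have e : ((Q * h' : ℕ) : ℝ) / Q = h' := by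
        push_cast
        field_simp
      rw [e] at hz
      exact hz
    · rw [hv]
      rcases Nat.eq_zero_or_pos h' with h0 | h0
      · rw [h0, mul_zero] at h1
        omega
      · exact h0
    · rw [hv]
      omega
  · rintro ⟨b, hb, rfl⟩
    have e : ((Q * b.val : ℕ) : ℝ) / Q = b.val := by
      push_cast
      field_simp
    rw [e]
    unfold bp bohr at hb
    rw [Finset.mem_filter, Finset.mem_filter] at hb
    refine ⟨⟨(b.val : ℤ), ?_⟩, fun r hr => hb.1.2 r hr⟩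
    have e2 : ((b.val : ℝ)) - ((b.val : ℤ) : ℝ) = 0 := by
      push_cast
      ring
    rw [e2, abs_zero]
    positivity

end Pool.Agent.H61.HB
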