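import Pool.Agent.H61.HB.FtC

/-!
# [H61 HB GVN] Telescoping: `f` may be replaced by `u` in averages of products of translates if `f - u` has small Fourier
coefficients

Proof. Induction on `m` (for all `g`). `m = 0`: the difference of the empty products is `0`. Step: write `C = Fin.cons c C'`
(`Fin.consEquiv`, `Fin.cons_zero`, `Fin.cons_succ`; `∑ C : Fin (m+1) → ZMod P, F C = ∑ c, ∑ C', F (Fin.cons c C')`, e.g.
`Fin.consPiProd`/`Fintype.sum_equiv (Fin.consEquiv _)`, `Fintype.sum_prod_type`), `Fin.prod_univ_succ`, and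
`∏_(m+1) f - ∏_(m+1) u = (f (t+c) - u (t+c)) * ∏ j, f (t + C' j) + u (t+c) * (∏ j, f (t + C' j) - ∏ j, u (t + C' j))`.
First part, `C'` fixed: `W t = g t * ∏ j, f (t + C' j)`, `|W| ≤ 1`, `v = f - u`: `∑ c, |∑ t, W t * v (t + c)| ≤ η P^2` (`bil`); sum over the
`P^m` functions `C'`. Second part, `c` fixed: induction with `g' t = g t * u (t + c)`, `|g'| ≤ 1`: at most `m η P^(m+1)`; sum over `c`.
Total `P^m η P^2 + P m η P^(m+1) = (m+1) η P^(m+2)`.
-/

namespace Pool.Agent.H61.HB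

open Finset

theorem gvn {P : ℕ} [NeZero P] (f u : ZMod P → ℝ) (η : ℝ) (hf : ∀ t, 0 ≤ f t ∧ f t ≤ 1)
    (hu : ∀ t, 0 ≤ u t ∧ u t ≤ 1) (hη : ∀ r, ‖ft (fun t => f t - u t) r‖ ≤ η) (m : ℕ) :
    ∀ g : ZMod P → ℝ, (∀ t, |g t| ≤ 1) →
      ∑ C : Fin m → ZMod P, |∑ t, g t * (∏ j, f (t + C j) - ∏ j, u (t + C j))| ≤
        m * η * (P : ℝ) ^ (m + 1) := by
  induction m with
  | zero =>
    intro g _
    simp
  | succ m ih =>
    intro g hg
    rw [← (Fin.consEquiv (fun _ : Fin (m + 1) => ZMod P)).sum_comp, Fintype.sum_prod_type]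
    have key : ∀ (c : ZMod P) (C' : Fin m → ZMod P),
        |∑ t, g t * (∏ j, f (t + (Fin.consEquiv (fun _ : Fin (m + 1) => ZMod P)) (c, C') j) -
          ∏ j, u (t + (Fin.consEquiv (fun _ : Fin (m + 1) => ZMod P)) (c, C') j))| ≤
        |∑ t, (g t * ∏ j, f (t + C' j)) * (f (t + c) - u (t + c))| +
        |∑ t, (g t * u (t + c)) * (∏ j, f (t + C' j) - ∏ j, u (t + C' j))| := by
      intro c C'
      have e : ∑ t, g t * (∏ j, f (t + (Fin.consEquiv (fun _ : Fin (m + 1) => ZMod P)) (c, C') j) -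
          ∏ j, u (t + (Fin.consEquiv (fun _ : Fin (m + 1) => ZMod P)) (c, C') j)) =
          ∑ t, (g t * ∏ j, f (t + C' j)) * (f (t + c) - u (t + c)) +
          ∑ t, (g t * u (t + c)) * (∏ j, f (t + C' j) - ∏ j, u (t + C' j)) := by
        rw [← Finset.sum_add_distrib]
        refine Finset.sum_congr rfl fun t _ => ?_
        rw [Fin.prod_univ_succ, Fin.prod_univ_succ]
        simp only [Fin.consEquiv_apply, Fin.cons_zero, Fin.cons_succ]
        ring
      rw [e]
      exact abs_add_le _ _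
    have h1 : ∀ C' : Fin m → ZMod P,
        ∑ c, |∑ t, (g t * ∏ j, f (t + C' j)) * (f (t + c) - u (t + c))| ≤ η * (P : ℝ) ^ 2 := by
      intro C'
      refine bil (fun t => f t - u t) (fun t => g t * ∏ j, f (t + C' j)) η hη fun t => ?_
      rw [abs_mul, Finset.abs_prod]
      have h2 : ∏ j, |f (t + C' j)| ≤ 1 := by
        refine Finset.prod_le_one (fun j _ => abs_nonneg _) fun j _ => ?_
        rw [abs_of_nonneg (hf _).1]
        exact (hf _).2
      have h3 : 0 ≤ ∏ j, |f (t + C' j)| := Finset.prod_nonneg fun j _ => abs_nonneg _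
      exact mul_le_one₀ (hg t) h3 h2
    have h2 : ∀ c : ZMod P, ∑ C' : Fin m → ZMod P,
        |∑ t, (g t * u (t + c)) * (∏ j, f (t + C' j) - ∏ j, u (t + C' j))| ≤
        m * η * (P : ℝ) ^ (m + 1) := by
      intro c
      refine ih (fun t => g t * u (t + c)) fun t => ?_
      rw [abs_mul]
      refine mul_le_one₀ (hg t) (abs_nonneg _) ?_
      rw [abs_of_nonneg (hu _).1]
      exact (hu _).2
    calc _ ≤ ∑ c : ZMod P, ∑ C' : Fin m → ZMod P,
          (|∑ t, (g t * ∏ j, f (t + C' j)) * (f (t + c) - u (t + c))| +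
          |∑ t, (g t * u (t + c)) * (∏ j, f (t + C' j) - ∏ j, u (t + C' j))|) :=
          Finset.sum_le_sum fun c _ => Finset.sum_le_sum fun C' _ => key c C'
      _ = ∑ C' : Fin m → ZMod P,
          ∑ c, |∑ t, (g t * ∏ j, f (t + C' j)) * (f (t + c) - u (t + c))| +
          ∑ c : ZMod P, ∑ C' : Fin m → ZMod P,
            |∑ t, (g t * u (t + c)) * (∏ j, f (t + C' j) - ∏ j, u (t + C' j))| := by
          simp only [Finset.sum_add_distrib]
          congr 1
          exact Finset.sum_comm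
      _ ≤ ∑ _C' : Fin m → ZMod P, η * (P : ℝ) ^ 2 +
          ∑ _c : ZMod P, (m : ℝ) * η * (P : ℝ) ^ (m + 1) :=
          add_le_add (Finset.sum_le_sum fun C' _ => h1 C') (Finset.sum_le_sum fun c _ => h2 c)
      _ = ((m + 1 : ℕ) : ℝ) * η * (P : ℝ) ^ (m + 1 + 1) := by
          rw [Finset.sum_const, Finset.sum_const, Finset.card_univ, Finset.card_univ,
            Fintype.card_fun, Fintype.card_fin, ZMod.card, nsmul_eq_mul, nsmul_eq_mul]
          push_cast
          ring

end Pool.Agent.H61.HB
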