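import Pool.Agent.H61.HB.Def

/-!
# [H61 HB STR] Lower bound for products of translates of an almost invariant function (Mathlib only)

Proof. Put `a j = C j - C 0`. Substituting `t → t - C 0` (`Equiv.sum_comp (Equiv.addRight (C 0))`),
`∑ t, ∏ j, u (t + C j) = ∑ t, ∏ j, u (t + a j)`, `a 0 = 0`. For numbers `x j ∈ [0,1]`: `∏ j : Fin (k+1), x j ≥ x 0 ^ (k+1) - ∑ j : Fin k,
|x j.succ - x 0|` (induction; or telescoping: replacing one factor after the other changes the product by at most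
`|x j - x 0|`). Summing over `t`: for fixed `j`, `∑ t, |u (t + a j) - u t| ≤ (P * ∑ t, (u (t + a j) - u t)^2)^(1/2) ≤ κ P`
(`sq_sum_le_card_mul_sum_sq`, hypothesis `hinv`). And `∑ t, u t ^ (k+1) ≥ P * (∑ t, u t / P)^(k+1) ≥ P δ^(k+1)`
(`inner_le_nnorm_mul_nnorm` is not needed: `Real.pow_arith_mean_le_arith_mean_pow` or `inner..`/`pow_sum_div_card_le_sum_pow`).
-/

namespace Pool.Agent.H61.HB

open Finset

private theorem prod_ge (k : ℕ) : ∀ (a : ℝ) (y : Fin k → ℝ), 0 ≤ a → a ≤ 1 →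
    (∀ j, 0 ≤ y j ∧ y j ≤ 1) → a ^ k - ∑ j, |y j - a| ≤ ∏ j, y j := by
  induction k with
  | zero =>
    intro a y _ _ _
    simp
  | succ k ih =>
    intro a y ha0 ha1 hy
    rw [Fin.prod_univ_succ, Fin.sum_univ_succ]
    have h1 := ih a (fun j => y j.succ) ha0 ha1 fun j => hy j.succ
    have h2 : 0 ≤ ∑ j : Fin k, |y j.succ - a| := Finset.sum_nonneg fun j _ => abs_nonneg _
    have h3 : a ^ k ≤ 1 := pow_le_one₀ ha0 ha1
    have h4 : 0 ≤ a ^ k := pow_nonneg ha0 k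
    have h5 := neg_abs_le (y 0 - a)
    have h6 := abs_nonneg (y 0 - a)
    obtain ⟨h7, h8⟩ := hy 0
    have h9 : y 0 * (a ^ k - ∑ j : Fin k, |y j.succ - a|) ≤ y 0 * ∏ j : Fin k, y j.succ :=
      mul_le_mul_of_nonneg_left h1 h7
    have h10 : -|y 0 - a| ≤ (y 0 - a) * a ^ k := by nlinarith
    have h11 : y 0 * ∑ j : Fin k, |y j.succ - a| ≤ ∑ j : Fin k, |y j.succ - a| := by nlinarith
    rw [pow_succ]
    nlinarith

theorem str {P : ℕ} [NeZero P] (k : ℕ) (u : ZMod P → ℝ) (hu : ∀ t, 0 ≤ u t ∧ u t ≤ 1) (δ κ : ℝ)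
    (hδ : 0 ≤ δ) (hκ : 0 ≤ κ) (hsum : δ * P ≤ ∑ t, u t) (B : Finset (ZMod P))
    (hinv : ∀ a ∈ B, ∑ t, (u (t + a) - u t) ^ 2 ≤ κ ^ 2 * P) (C : Fin (k + 1) → ZMod P)
    (hC : ∀ j : Fin k, C j.succ - C 0 ∈ B) :
    (δ ^ (k + 1) - k * κ) * P ≤ ∑ t, ∏ j, u (t + C j) := by
  have hP : (0 : ℝ) < P := by exact_mod_cast Nat.pos_of_ne_zero (NeZero.ne P)
  have hcard : ((Finset.univ : Finset (ZMod P)).card : ℝ) = P := by
    rw [Finset.card_univ, ZMod.card]
  have hsh : ∀ f : ZMod P → ℝ, ∑ t, f (t + C 0) = ∑ t, f t := fun f =>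
    Equiv.sum_comp (Equiv.addRight (C 0)) f
  -- the pointwise bound
  have h1 : ∀ t, u (t + C 0) ^ (k + 1) - ∑ j : Fin k, |u (t + C j.succ) - u (t + C 0)| ≤
      ∏ j, u (t + C j) := by
    intro t
    rw [Fin.prod_univ_succ]
    have h2 := prod_ge k (u (t + C 0)) (fun j => u (t + C j.succ)) (hu _).1 (hu _).2 fun j => hu _
    have h3 : 0 ≤ ∑ j : Fin k, |u (t + C j.succ) - u (t + C 0)| :=
      Finset.sum_nonneg fun j _ => abs_nonneg _
    have h4 := mul_le_mul_of_nonneg_left h2 (hu (t + C 0)).1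
    have h5 := (hu (t + C 0)).2
    have h6 := (hu (t + C 0)).1
    rw [pow_succ]
    nlinarith
  -- one difference
  have h2 : ∀ j : Fin k, ∑ t, |u (t + C j.succ) - u (t + C 0)| ≤ κ * P := by
    intro j
    have e1 : ∑ t, |u (t + C j.succ) - u (t + C 0)| =
        ∑ t, |u (t + (C j.succ - C 0)) - u t| := by
      rw [← hsh fun t => |u (t + (C j.succ - C 0)) - u t|]
      refine Finset.sum_congr rfl fun t _ => ?_
      congr 3
      ring
    rw [e1]
    have e2 := sq_sum_le_card_mul_sum_sq (s := (Finset.univ : Finset (ZMod P)))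
      (f := fun t => |u (t + (C j.succ - C 0)) - u t|)
    simp only [sq_abs] at e2
    rw [hcard] at e2
    have e3 := hinv _ (hC j)
    have e4 : (∑ t, |u (t + (C j.succ - C 0)) - u t|) ^ 2 ≤ (κ * P) ^ 2 := by
      nlinarith
    exact (pow_le_pow_iff_left₀ (Finset.sum_nonneg fun t _ => abs_nonneg _)
      (mul_nonneg hκ hP.le) two_ne_zero).1 e4
  -- the main term
  have h3 : δ ^ (k + 1) * P ≤ ∑ t, u t ^ (k + 1) := by
    have e1 := pow_sum_div_card_le_sum_pow (s := (Finset.univ : Finset (ZMod P)))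
      (f := u) (fun t _ => (hu t).1) k
    rw [hcard] at e1
    refine le_trans ?_ e1
    rw [le_div_iff₀ (pow_pos hP k)]
    have e2 : (δ * P) ^ (k + 1) ≤ (∑ t, u t) ^ (k + 1) :=
      pow_le_pow_left₀ (mul_nonneg hδ hP.le) hsum _
    refine le_trans (le_of_eq ?_) e2
    rw [mul_pow]
    ring
  have h4 : ∑ t, (u (t + C 0) ^ (k + 1) - ∑ j : Fin k, |u (t + C j.succ) - u (t + C 0)|) ≤
      ∑ t, ∏ j, u (t + C j) := Finset.sum_le_sum fun t _ => h1 t
  rw [Finset.sum_sub_distrib, hsh fun t => u t ^ (k + 1), Finset.sum_comm] at h4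
  have h5 : ∑ j : Fin k, ∑ t, |u (t + C j.succ) - u (t + C 0)| ≤ k * (κ * P) := by
    refine (Finset.sum_le_card_nsmul _ _ (κ * P) fun j _ => h2 j).trans ?_
    rw [Finset.card_univ, Fintype.card_fin, nsmul_eq_mul]
  nlinarith

end Pool.Agent.H61.HB
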