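import Pool.Agent.H61.HB.Reg
import Pool.Agent.H61.HB.Gvn
import Pool.Agent.H61.HB.Str

/-!
# [H61 HB COR] Dense sets contain many bad tuples

Proof. `m = k + 1`. `κ = δ^m / (4 k)`, `Φ d n = δ^m ε / (4 m (3 * 2^(n d))^k)`, `D₀` from `reg`, `γ = (1/2) δ^m ε / (3 * 2^(D₀ D₀))^k`,
`D = max D₀ (2 * 2^(D₀ D₀))`. (`δ ≤ 1` may be assumed: else `|S| ≥ δ P > P` is impossible; note `P ≥ 1`.)
Given `P`, `Bad`, `S`: `f = 1_S`, `u, d, n, Λ` from `reg`; `B⁺ = bp Λ n`, `P ≤ 3 * 2^(n d) |B⁺|` (`bp_card`; `|Λ| ≤ d`, `n, d ≤ D₀`).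
`A = {a ∈ (B⁺)^k : Bad a}`, `|A| ≥ ε |B⁺|^k ≥ ε (P/(3 * 2^(n d)))^k` (`hDB`). `CC = {C : Fin m → ZMod P | dif C ∈ A}`, `|CC| = P |A|`
(`C ↦ (C 0, dif C)` is a bijection, `Fin.consEquiv`). For `C ∈ CC` the differences `C j.succ - C 0` are in `B⁺ ⊆ bohr Λ n`, so by `str`
(`∑ u = ∑ f = |S| ≥ δ P`) `∑ t, ∏ j, u (t + C j) ≥ (δ^m - k κ) P = (3/4) δ^m P`. By `gvn` with `g = 1` (sum over `C ∈ CC` ≤ sum over all `C`)
`∑_(C ∈ CC) ∑ t, ∏ j, f (t + C j) ≥ (3/4) δ^m P |CC| - m Φ P^(m+1) ≥ (1/2) δ^m P |CC|`, since `m Φ P^m = (1/4) δ^m ε P^m/(3 * 2^(n d))^k ≤ (1/4) δ^m |CC|`.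
The left side is `P * |E|`, `E = {x | (∀ j, x j ∈ S) ∧ dif x ∈ A}`: it counts the pairs `(t, C)` with `C ∈ CC`, `t + C j ∈ S` for all `j`; the map
`(t, C) ↦ (t, t + C)` is a bijection onto the pairs `(t, x)`, `x ∈ E` (`dif (t + C) = dif C`). So
`|E| ≥ (1/2) δ^m |CC| ≥ (1/2) δ^m ε P^m / (3 * 2^(n d))^k ≥ γ P^m`, and `E` is contained in the set of the statement.
-/

namespace Pool.Agent.H61.HB

open Finset

private theorem mem_filt {α : Type} (s : Finset α) (p : α → Prop) (d : DecidablePred p) (a : α) :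
    a ∈ @Finset.filter α p d s ↔ a ∈ s ∧ p a := Finset.mem_filter

private theorem card_cc {P k : ℕ} [NeZero P] (A : Finset (Fin k → ZMod P)) :
    (univ.filter (fun C : Fin (k + 1) → ZMod P => dif C ∈ A)).card = P * A.card := by
  have h1 : P * A.card = ((univ : Finset (ZMod P)) ×ˢ A).card := by
    rw [Finset.card_product, Finset.card_univ, ZMod.card]
  rw [h1]
  refine Finset.card_bij' (fun C _ => (C 0, dif C))
    (fun w _ => (Fin.cons w.1 (fun i => w.2 i + w.1) : Fin (k + 1) → ZMod P)) ?_ ?_ ?_ ?_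
  · intro C hC
    rw [Finset.mem_filter] at hC
    rw [Finset.mem_product]
    exact ⟨Finset.mem_univ _, hC.2⟩
  · rintro ⟨c, a⟩ hw
    rw [Finset.mem_product] at hw
    rw [Finset.mem_filter]
    refine ⟨Finset.mem_univ _, ?_⟩
    have h2 : dif (Fin.cons c (fun i => a i + c) : Fin (k + 1) → ZMod P) = a := by
      funext i
      unfold dif
      rw [Fin.cons_succ, Fin.cons_zero, add_sub_cancel_right]
    show dif (Fin.cons c (fun i => a i + c) : Fin (k + 1) → ZMod P) ∈ A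
    rw [h2]
    exact hw.2
  · intro C _
    funext j
    refine Fin.cases ?_ (fun i => ?_) j
    · rw [Fin.cons_zero]
    · rw [Fin.cons_succ]
      show C i.succ - C 0 + C 0 = C i.succ
      rw [sub_add_cancel]
  · rintro ⟨c, a⟩ _
    refine Prod.ext ?_ ?_
    · show (Fin.cons c (fun i => a i + c) : Fin (k + 1) → ZMod P) 0 = c
      rw [Fin.cons_zero]
    · funext i
      show (Fin.cons c (fun i => a i + c) : Fin (k + 1) → ZMod P) i.succ -
        (Fin.cons c (fun i => a i + c) : Fin (k + 1) → ZMod P) 0 = a i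
      rw [Fin.cons_succ, Fin.cons_zero, add_sub_cancel_right]

private theorem count_t {P k : ℕ} [NeZero P] (A : Finset (Fin k → ZMod P)) (S : Finset (ZMod P))
    (t : ZMod P) :
    ∑ C ∈ univ.filter (fun C : Fin (k + 1) → ZMod P => dif C ∈ A),
      ∏ j, (if t + C j ∈ S then (1 : ℝ) else 0) =
      ((univ.filter (fun x : Fin (k + 1) → ZMod P => (∀ j, x j ∈ S) ∧ dif x ∈ A)).card : ℝ) := by
  have h1 : ∀ x : Fin (k + 1) → ZMod P, ∏ j, (if x j ∈ S then (1 : ℝ) else 0) =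
      if ∀ j, x j ∈ S then 1 else 0 := by
    intro x
    rw [Finset.prod_boole]
    simp only [Finset.mem_univ, true_implies]
  rw [Finset.sum_filter]
  have h2 : ∑ C : Fin (k + 1) → ZMod P, (if dif C ∈ A then
      ∏ j, (if t + C j ∈ S then (1 : ℝ) else 0) else 0) =
      ∑ x : Fin (k + 1) → ZMod P, (if dif x ∈ A then ∏ j, (if x j ∈ S then (1 : ℝ) else 0) else 0) := by
    refine Fintype.sum_equiv (Equiv.addLeft (fun _ : Fin (k + 1) => t)) _ _ (fun C => ?_)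
    have h3 : dif ((Equiv.addLeft (fun _ : Fin (k + 1) => t)) C) = dif C := by
      funext i
      show (t + C i.succ) - (t + C 0) = C i.succ - C 0
      rw [add_sub_add_left_eq_sub]
    rw [h3]
    rfl
  rw [h2, Finset.card_filter]
  push_cast
  refine Finset.sum_congr rfl fun x _ => ?_
  rw [h1]
  by_cases h3 : dif x ∈ A
  · by_cases h4 : ∀ j, x j ∈ S
    · rw [if_pos h3, if_pos h4, if_pos ⟨h4, h3⟩]
    · rw [if_pos h3, if_neg h4, if_neg (fun h => h4 h.1)]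
  · rw [if_neg h3, if_neg (fun h => h3 h.2)]

open Classical in
theorem cor (k : ℕ) (hk : 1 ≤ k) (ε δ : ℝ) (hε : 0 < ε) (hδ : 0 < δ) :
    ∃ (D : ℕ) (γ : ℝ), 0 < γ ∧ ∀ (P : ℕ) [NeZero P], D ≤ P → Odd P →
      ∀ Bad : (Fin k → ZMod P) → Prop, DB k ε D Bad → ∀ S : Finset (ZMod P), δ * P ≤ (S.card : ℝ) →
        γ * (P : ℝ) ^ (k + 1) ≤ ((univ.filter (fun x : Fin (k + 1) → ZMod P =>
          (∀ j, x j ∈ S) ∧ Bad (dif x))).card : ℝ) := by
  have hk0 : (0 : ℝ) < k := by exact_mod_cast hk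
  obtain ⟨Φ, hΦd⟩ : ∃ Φ : ℕ → ℕ → ℝ, ∀ d n,
      Φ d n = δ ^ (k + 1) * ε / (4 * ((k + 1 : ℕ) : ℝ) * (3 * 2 ^ (n * d)) ^ k) := ⟨_, fun _ _ => rfl⟩
  have hΦ : ∀ d n, 0 < Φ d n := fun d n => by rw [hΦd]; positivity
  obtain ⟨κ, hκd⟩ : ∃ κ : ℝ, κ = δ ^ (k + 1) / (4 * k) := ⟨_, rfl⟩
  have hκ : 0 < κ := by rw [hκd]; positivity
  obtain ⟨D0, hD0⟩ := reg κ hκ Φ hΦ
  refine ⟨max D0 (2 * 2 ^ (D0 * D0)), 1 / 2 * δ ^ (k + 1) * ε / (3 * 2 ^ (D0 * D0)) ^ k,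
    by positivity, ?_⟩
  intro P hP0 hPD hodd Bad hDB S hS
  have hP : (0 : ℝ) < P := by exact_mod_cast NeZero.pos P
  obtain ⟨f, hf⟩ : ∃ f : ZMod P → ℝ, f = fun t => if t ∈ S then (1 : ℝ) else 0 := ⟨_, rfl⟩
  have hf01 : ∀ t, 0 ≤ f t ∧ f t ≤ 1 := by
    intro t
    rw [hf]
    show 0 ≤ (if t ∈ S then (1 : ℝ) else 0) ∧ (if t ∈ S then (1 : ℝ) else 0) ≤ 1
    split_ifs
    · exact ⟨zero_le_one, le_rfl⟩
    · exact ⟨le_rfl, zero_le_one⟩
  have hfs : ∑ t, f t = S.card := by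
    rw [hf, Finset.sum_ite_mem, Finset.univ_inter, Finset.sum_const, nsmul_eq_mul, mul_one]
  obtain ⟨u, d, n, Λ, hdD, hnD, hΛ, hu01, hus, hinv, hunif⟩ := hD0 P f hf01
  have hdn : n * d ≤ D0 * D0 := Nat.mul_le_mul hnD hdD
  have hnΛ : n * Λ.card ≤ n * d := Nat.mul_le_mul_left _ hΛ
  have h2P : 2 * 2 ^ (n * Λ.card) ≤ P := by
    refine le_trans ?_ ((le_max_right _ _).trans hPD)
    exact Nat.mul_le_mul_left _ (Nat.pow_le_pow_right (by norm_num) (hnΛ.trans hdn))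
  have hbp := bp_card hodd Λ n h2P
  obtain ⟨q, hq⟩ : ∃ q : ℝ, q = 3 * 2 ^ (n * d) := ⟨_, rfl⟩
  have hq0 : 0 < q := by rw [hq]; positivity
  have hbp' : (P : ℝ) / q ≤ (bp Λ n).card := by
    rw [div_le_iff₀ hq0, hq]
    have h1 : P ≤ (bp Λ n).card * (3 * 2 ^ (n * d)) := by
      refine hbp.trans ?_
      rw [mul_comm (bp Λ n).card]
      exact Nat.mul_le_mul_right _ (Nat.mul_le_mul_left _ (Nat.pow_le_pow_right (by norm_num) hnΛ))
    exact_mod_cast h1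
  -- the bad tuples
  obtain ⟨A, hA⟩ : ∃ A : Finset (Fin k → ZMod P), A =
      (Fintype.piFinset fun _ : Fin k => bp Λ n).filter fun a => Bad a := ⟨_, rfl⟩
  have hAm : ∀ a ∈ A, (∀ i, a i ∈ bp Λ n) ∧ Bad a := by
    intro a ha
    rw [hA] at ha
    have h1 := (mem_filt _ _ _ _).1 ha
    exact ⟨fun i => Fintype.mem_piFinset.1 h1.1 i, h1.2⟩
  have hAc : ε * ((bp Λ n).card : ℝ) ^ k ≤ A.card := by
    rw [hA]
    exact hDB Λ n (hΛ.trans (hdD.trans (le_max_left _ _))) (hnD.trans (le_max_left _ _))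
  have hAc' : ε * ((P : ℝ) / q) ^ k ≤ A.card := by
    refine le_trans (mul_le_mul_of_nonneg_left ?_ hε.le) hAc
    exact pow_le_pow_left₀ (by positivity) hbp' k
  obtain ⟨CC, hCC⟩ : ∃ CC, CC = univ.filter (fun C : Fin (k + 1) → ZMod P => dif C ∈ A) := ⟨_, rfl⟩
  have hCCc : (CC.card : ℝ) = P * A.card := by
    rw [hCC]
    have h1 := card_cc A
    have h2 : ((univ.filter (fun C : Fin (k + 1) → ZMod P => dif C ∈ A)).card : ℝ) = ((P * A.card : ℕ) : ℝ) := by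
      rw [← h1]
    rw [h2]
    push_cast
    ring
  -- lower bound for u
  have hlow : ∀ C ∈ CC, 3 / 4 * δ ^ (k + 1) * P ≤ ∑ t, ∏ j, u (t + C j) := by
    intro C hC
    rw [hCC] at hC
    have hC' := (hAm _ ((mem_filt _ _ _ _).1 hC).2).1
    have h1 := str k u hu01 δ κ hδ.le hκ.le (by rw [hus, hfs]; exact hS) (bohr Λ n) hinv C
      (fun j => by
        have h2 := hC' j
        unfold bp at h2
        exact ((mem_filt _ _ _ _).1 h2).1)
    have h2 : δ ^ (k + 1) - k * κ = 3 / 4 * δ ^ (k + 1) := by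
      rw [hκd]
      field_simp
      ring
    rw [h2] at h1
    exact h1
  -- passage to f
  have hgvn := gvn f u (Φ d n) hf01 hu01 hunif (k + 1) (fun _ => 1) (fun _ => by simp)
  have hsum : 3 / 4 * δ ^ (k + 1) * P * CC.card - ((k + 1 : ℕ) : ℝ) * Φ d n * (P : ℝ) ^ (k + 1 + 1) ≤
      ∑ C ∈ CC, ∑ t, ∏ j, f (t + C j) := by
    have h1 : ∑ C ∈ CC, ∑ t, ∏ j, u (t + C j) - ∑ C ∈ CC, ∑ t, ∏ j, f (t + C j) ≤
        ((k + 1 : ℕ) : ℝ) * Φ d n * (P : ℝ) ^ (k + 1 + 1) := by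
      rw [← Finset.sum_sub_distrib]
      refine le_trans (Finset.sum_le_sum (fun C _ => ?_)) (le_trans (Finset.sum_le_univ_sum_of_nonneg
        (fun C => abs_nonneg (∑ t, (1 : ℝ) * (∏ j, f (t + C j) - ∏ j, u (t + C j))))) hgvn)
      rw [← Finset.sum_sub_distrib]
      have h2 : ∑ t, (∏ j, u (t + C j) - ∏ j, f (t + C j)) =
          - ∑ t, (1 : ℝ) * (∏ j, f (t + C j) - ∏ j, u (t + C j)) := by
        rw [← Finset.sum_neg_distrib]
        refine Finset.sum_congr rfl fun t _ => ?_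
        ring
      rw [h2]
      exact neg_le_abs _
    have h2 : 3 / 4 * δ ^ (k + 1) * P * CC.card ≤ ∑ C ∈ CC, ∑ t, ∏ j, u (t + C j) := by
      calc 3 / 4 * δ ^ (k + 1) * P * CC.card = ∑ C ∈ CC, 3 / 4 * δ ^ (k + 1) * P := by
            rw [Finset.sum_const, nsmul_eq_mul]; ring
        _ ≤ _ := Finset.sum_le_sum hlow
    linarith
  have herr : ((k + 1 : ℕ) : ℝ) * Φ d n * (P : ℝ) ^ (k + 1 + 1) ≤ 1 / 4 * δ ^ (k + 1) * P * CC.card := by
    rw [hCCc, hΦd, ← hq]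
    have h1 : ((k + 1 : ℕ) : ℝ) * (δ ^ (k + 1) * ε / (4 * ((k + 1 : ℕ) : ℝ) * q ^ k)) * (P : ℝ) ^ (k + 1 + 1) =
        1 / 4 * δ ^ (k + 1) * P * (P * (ε * ((P : ℝ) / q) ^ k)) := by
      rw [div_pow]
      have h2 : (0 : ℝ) < ((k + 1 : ℕ) : ℝ) := by positivity
      field_simp
      ring
    rw [h1]
    exact mul_le_mul_of_nonneg_left (mul_le_mul_of_nonneg_left hAc' hP.le) (by positivity)
  -- the count
  obtain ⟨E, hE⟩ : ∃ E, E = univ.filter (fun x : Fin (k + 1) → ZMod P => (∀ j, x j ∈ S) ∧ dif x ∈ A) :=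
    ⟨_, rfl⟩
  have hcount : ∑ C ∈ CC, ∑ t, ∏ j, f (t + C j) = P * E.card := by
    rw [Finset.sum_comm]
    have h1 : ∀ t ∈ (univ : Finset (ZMod P)), ∑ C ∈ CC, ∏ j, f (t + C j) = E.card := by
      intro t _
      rw [hCC, hE, hf]
      have h2 := count_t A S t
      refine Eq.trans ?_ (h2.trans ?_)
      · refine Finset.sum_congr ?_ (fun _ _ => rfl)
        ext C
        exact ⟨fun h => (mem_filt _ _ _ _).2 ((mem_filt _ _ _ _).1 h),
          fun h => (mem_filt _ _ _ _).2 ((mem_filt _ _ _ _).1 h)⟩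
      · congr 2
    rw [Finset.sum_congr rfl h1, Finset.sum_const, Finset.card_univ, ZMod.card, nsmul_eq_mul]
  have hEc : 1 / 2 * δ ^ (k + 1) * CC.card ≤ E.card := by
    have h1 : P * (1 / 2 * δ ^ (k + 1) * CC.card) ≤ P * (E.card : ℝ) := by
      rw [← hcount]
      refine le_trans ?_ hsum
      linarith
    exact le_of_mul_le_mul_left h1 hP
  have hfin : 1 / 2 * δ ^ (k + 1) * ε / (3 * 2 ^ (D0 * D0)) ^ k * (P : ℝ) ^ (k + 1) ≤ E.card := by
    refine le_trans ?_ hEc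
    rw [hCCc]
    have h1 : ε * ((P : ℝ) / (3 * 2 ^ (D0 * D0))) ^ k ≤ A.card := by
      refine le_trans (mul_le_mul_of_nonneg_left ?_ hε.le) hAc'
      refine pow_le_pow_left₀ (by positivity) ?_ k
      refine div_le_div_of_nonneg_left hP.le hq0 ?_
      rw [hq]
      exact mul_le_mul_of_nonneg_left (pow_le_pow_right₀ (by norm_num) hdn) (by norm_num)
    have h2 : 1 / 2 * δ ^ (k + 1) * ε / (3 * 2 ^ (D0 * D0)) ^ k * (P : ℝ) ^ (k + 1) =
        1 / 2 * δ ^ (k + 1) * (P * (ε * ((P : ℝ) / (3 * 2 ^ (D0 * D0))) ^ k)) := by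
      rw [div_pow]
      field_simp
      ring
    rw [h2]
    exact mul_le_mul_of_nonneg_left (mul_le_mul_of_nonneg_left h1 hP.le) (by positivity)
  refine hfin.trans (Nat.cast_le.2 (Finset.card_le_card ?_))
  intro x hx
  rw [hE] at hx
  have h1 := ((mem_filt _ _ _ _).1 hx).2
  exact (mem_filt _ _ _ _).2 ⟨Finset.mem_univ _, h1.1, (hAm _ h1.2).2⟩

end Pool.Agent.H61.HB
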