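import Mathlib

/-!
# [H61 HB DEF] MP_8923e7_nt, THEOREM H (almost all `k`-tuples of a Bohr set at every scale): definitions

`ft f r`: normalised Fourier coefficient on `ZMod P`; `bohr Λ n`: Bohr set with frequencies `Λ` and radius `2^(-n)`; `bp Λ n`:
its elements in `[1, (P-1)/2]`; `cv f B`: average of `f` over translates by `B`; `mt B r`: Fourier coefficient of the uniform
measure on `B`; `dif x`: differences `x_(j+1) - x_0`; `DB k ε D Bad`: `Bad` has density at least `ε` in `(bp Λ n)^k` for all `Λ`, `n` of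
complexity at most `D`; `Lf m j`: the `m^j` leaves of the `m`-ary tree of depth `j`; `IsTree`: trees of bad tuples.
-/

namespace Pool.Agent.H61.HB

open Finset

/-- the additive character `x ↦ exp(2πi x/P)` -/
noncomputable def ee {P : ℕ} [NeZero P] (x : ZMod P) : ℂ := ZMod.stdAddChar x

/-- normalised Fourier coefficient -/
noncomputable def ft {P : ℕ} [NeZero P] (f : ZMod P → ℝ) (r : ZMod P) : ℂ :=
  1 / (P : ℂ) * ∑ t, (f t : ℂ) * ee (-(r * t))

open Classical in
/-- Bohr set with frequencies `Λ` and radius `2^(-n)` -/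
noncomputable def bohr {P : ℕ} [NeZero P] (Λ : Finset (ZMod P)) (n : ℕ) : Finset (ZMod P) :=
  univ.filter (fun h => ∀ r ∈ Λ, ∃ z : ℤ, |(r.val : ℝ) * h.val / P - z| ≤ 1 / 2 ^ n)

open Classical in
/-- positive part of the Bohr set -/
noncomputable def bp {P : ℕ} [NeZero P] (Λ : Finset (ZMod P)) (n : ℕ) : Finset (ZMod P) :=
  (bohr Λ n).filter (fun h => 1 ≤ h.val ∧ 2 * h.val < P)

/-- average of `f` over the translates by `B` -/
noncomputable def cv {P : ℕ} [NeZero P] (f : ZMod P → ℝ) (B : Finset (ZMod P)) (t : ZMod P) : ℝ :=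
  1 / (B.card : ℝ) * ∑ b ∈ B, f (t - b)

/-- Fourier coefficient of the uniform measure on `B` -/
noncomputable def mt {P : ℕ} [NeZero P] (B : Finset (ZMod P)) (r : ZMod P) : ℂ :=
  1 / (B.card : ℂ) * ∑ b ∈ B, ee (-(r * b))

/-- the differences `x_(j+1) - x_0` -/
def dif {P k : ℕ} (x : Fin (k + 1) → ZMod P) : Fin k → ZMod P := fun j => x j.succ - x 0

open Classical in
/-- `Bad` has density at least `ε` in `(bp Λ n)^k` for all `Λ`, `n` of complexity at most `D` -/
def DB {P : ℕ} [NeZero P] (k : ℕ) (ε : ℝ) (D : ℕ) (Bad : (Fin k → ZMod P) → Prop) : Prop :=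
  ∀ (Λ : Finset (ZMod P)) (n : ℕ), Λ.card ≤ D → n ≤ D →
    ε * ((bp Λ n).card : ℝ) ^ k ≤
      (((Fintype.piFinset fun _ : Fin k => bp Λ n).filter fun a => Bad a).card : ℝ)

/-- the leaves of the `m`-ary tree of depth `j` -/
def Lf (m : ℕ) : ℕ → Type
  | 0 => Unit
  | j + 1 => Fin m × Lf m j

noncomputable instance instFintypeLf (m : ℕ) : (j : ℕ) → Fintype (Lf m j)
  | 0 => inferInstanceAs (Fintype Unit)
  | j + 1 => @instFintypeProd _ _ _ (instFintypeLf m j)

noncomputable instance instDecidableEqLf (m : ℕ) : (j : ℕ) → DecidableEq (Lf m j)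
  | 0 => inferInstanceAs (DecidableEq Unit)
  | j + 1 => @instDecidableEqProd _ _ _ (instDecidableEqLf m j)

theorem card_Lf (m : ℕ) : ∀ j : ℕ, Fintype.card (Lf m j) = m ^ j
  | 0 => by
    rw [pow_zero]
    exact Fintype.card_unit
  | j + 1 => by
    have h := card_Lf m j
    rw [pow_succ, mul_comm, ← h]
    exact (Fintype.card_prod (Fin m) (Lf m j)).trans (by rw [Fintype.card_fin])

/-- trees of tuples with property `R`: the vertices are `c (l, t)`, `l` leaf, `t < s`; at every inner node all transversals of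
the `m` subtrees have property `R` -/
def IsTree {X : Type} (m s : ℕ) (R : (Fin m → X) → Prop) : (j : ℕ) → (Lf m j × Fin s → X) → Prop
  | 0, _ => True
  | j + 1, c => (∀ i : Fin m, IsTree m s R j (fun q => c ((i, q.1), q.2))) ∧
      ∀ φ : Fin m → Lf m j × Fin s, R (fun i => c ((i, (φ i).1), (φ i).2))

theorem DB.mono {P : ℕ} [NeZero P] {k : ℕ} {ε : ℝ} {D D' : ℕ} {Bad : (Fin k → ZMod P) → Prop}
    (h : DB k ε D Bad) (hD : D' ≤ D) : DB k ε D' Bad :=
  fun Λ n h1 h2 => h Λ n (h1.trans hD) (h2.trans hD)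

end Pool.Agent.H61.HB
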