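import Pool.Agent.H61.HB.Def

/-!
# [H61 HB HIT] A set which meets more than `(m-1)^j` leaves of a tree contains a transversal with property `R` (Mathlib only)

Proof. Induction on `j`. `j = 0`: there is one leaf, so the number of leaves met is at most `1 = (m-1)^0`: contradiction. Step: for `i : Fin m` let
`n i = #{l : Lf m j | ∃ t, F (c ((i, l), t))}`; the number of leaves of the big tree which are met is `∑ i, n i` (the leaves are the pairs `(i, l)`).
(1) Some `n i > (m-1)^j`: induction hypothesis for the subtree `fun q => c ((i, q.1), q.2)`; compose `φ` with the embedding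
`q ↦ ((i, q.1), q.2)`. (2) All `n i ≤ (m-1)^j` and some `n i₀ = 0`: then `∑ n i ≤ (m-1) (m-1)^j`, contradiction. (3) All `n i ≥ 1`: for every `i`
choose a leaf `l i` and `t i` with `F (c ((i, l i), t i))`; the second part of `IsTree` with `φ i = (l i, t i)` gives `R`; the positions
`((i, l i), t i)` are distinct since the first coordinates are.
-/

namespace Pool.Agent.H61.HB

open Finset

open Classical in
theorem hit {X : Type} (m s : ℕ) (R : (Fin m → X) → Prop) (F : X → Prop) (j : ℕ) :
    ∀ c : Lf m j × Fin s → X, IsTree m s R j c →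
      (m - 1) ^ j < (univ.filter (fun l : Lf m j => ∃ t, F (c (l, t)))).card →
      ∃ φ : Fin m → Lf m j × Fin s, Function.Injective φ ∧ R (fun i => c (φ i)) ∧
        ∀ i, F (c (φ i)) := by
  induction j with
  | zero =>
    intro c _ hcard
    exfalso
    have h1 : (univ.filter (fun l : Lf m 0 => ∃ t, F (c (l, t)))).card ≤ 1 := by
      refine (Finset.card_le_univ _).trans ?_
      rw [card_Lf, pow_zero]
    rw [pow_zero] at hcard
    omega
  | succ j ih =>
    intro c hc hcard
    obtain ⟨hc1, hc2⟩ := hc
    have hsum : (univ.filter (fun l : Lf m (j + 1) => ∃ t, F (c (l, t)))).card =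
        ∑ i : Fin m, (univ.filter (fun l : Lf m j => ∃ t, F (c ((i, l), t)))).card := by
      simp only [Finset.card_filter]
      exact Fintype.sum_prod_type (f := fun l : Fin m × Lf m j =>
        if ∃ t, F (c (l, t)) then (1 : ℕ) else 0)
    by_cases h1 : ∃ i : Fin m, (m - 1) ^ j <
        (univ.filter (fun l : Lf m j => ∃ t, F (c ((i, l), t)))).card
    · obtain ⟨i, hi⟩ := h1
      obtain ⟨φ, hφ1, hφ2, hφ3⟩ := ih (fun q => c ((i, q.1), q.2)) (hc1 i) hi
      refine ⟨fun a => (((i, (φ a).1) : Fin m × Lf m j), (φ a).2), fun a b hab => hφ1 ?_,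
        hφ2, hφ3⟩
      have h2 := Prod.mk.inj hab
      have h3 := Prod.mk.inj h2.1
      exact Prod.ext h3.2 h2.2
    · push Not at h1
      by_cases h2 : ∃ i : Fin m, (univ.filter (fun l : Lf m j => ∃ t, F (c ((i, l), t)))).card = 0
      · exfalso
        obtain ⟨i, hi⟩ := h2
        have h3 : ∑ i : Fin m, (univ.filter (fun l : Lf m j => ∃ t, F (c ((i, l), t)))).card ≤
            (m - 1) ^ (j + 1) := by
          rw [← Finset.add_sum_erase _ _ (Finset.mem_univ i), hi, zero_add]
          refine (Finset.sum_le_card_nsmul _ _ ((m - 1) ^ j) fun a _ => h1 a).trans ?_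
          rw [Finset.card_erase_of_mem (Finset.mem_univ i), Finset.card_univ, Fintype.card_fin,
            smul_eq_mul, pow_succ, mul_comm]
        rw [hsum] at hcard
        omega
      · push Not at h2
        have h3 : ∀ i : Fin m, ∃ q : Lf m j × Fin s, F (c ((i, q.1), q.2)) := by
          intro i
          obtain ⟨l, hl⟩ := Finset.card_ne_zero.1 (h2 i)
          obtain ⟨t, ht⟩ := (Finset.mem_filter.1 hl).2
          exact ⟨(l, t), ht⟩
        choose q hq using h3
        refine ⟨fun a => (((a, (q a).1) : Fin m × Lf m j), (q a).2), fun a b hab => ?_,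
          hc2 q, hq⟩
        exact (Prod.mk.inj (Prod.mk.inj hab).1).1

end Pool.Agent.H61.HB
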