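import Mathlib

/-!
# [H61 HB PRD] Dense sets of `m`-tuples contain many products of structures (Mathlib only)

`Θ`: a type of situations, `X θ` a finite nonempty set for every `θ`, `T θ` a set of families `c : ι → X θ`, `Good θ D` a property which gets
stronger with `D`. Hypothesis: for every `δ` every `S` of density at least `δ` contains a positive proportion of all families with `T θ`, if
`Good θ D`, `D = D(δ)`. Conclusion: every `E ⊆ (X θ)^m` of density at least `γ` contains the transversals of a positive proportion of all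
`m`-tuples of families with `T θ`.

Proof. Induction on `m`, for all `γ`. `m = 0`: `E` is a subset of a one-element set, `γ ≤ |E|` gives `E = univ` (nonempty), every `c` (there is only one)
is counted: `c = 1`, `D = 0`. Step `m → m + 1`: let `D₁, c₁` be the constants of the hypothesis for `δ = γ/2`, `D₂, c₂` those of the induction hypothesis
for `γ' = γ c₁ / 4`. `D = max D₁ D₂`, constant `c = (γ c₁ / 4) c₂`. Let `n = |X θ|`, `q = card ι`. Write `x = Fin.cons x₀ y`. For `y : Fin m → X θ` let
`E_y = {x₀ | Fin.cons x₀ y ∈ E}`; `∑_y |E_y| = |E| ≥ γ n^(m+1)`, so the set `G` of the `y` with `|E_y| ≥ (γ/2) n` has at least `(γ/2) n^m` elements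
(`γ n^(m+1) ≤ |G| n + n^m (γ/2) n`). For `y ∈ G` at least `c₁ n^q` families `T₀` with `T θ` have all their values in `E_y`. So
`∑_(T₀) #{y | ∀ i, Fin.cons (T₀ i) y ∈ E} ≥ (γ/2) n^m c₁ n^q` (sum over the `n^q` families, those with `T θ`), and the set `H` of the `T₀` with `T θ` and
`#{y | ∀ i, Fin.cons (T₀ i) y ∈ E} ≥ (γ c₁/4) n^m` has at least `(γ c₁ / 4) n^q` elements. For `T₀ ∈ H` apply the induction hypothesis to
`E' = {y | ∀ i, Fin.cons (T₀ i) y ∈ E}`: at least `c₂ n^(m q)` tuples `c'`, and `Fin.cons T₀ c'` has all transversals in `E`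
(`Fin.cons (T₀ (φ 0)) (fun i => c' i (φ i.succ))`). `(T₀, c') ↦ Fin.cons T₀ c'` is injective.
-/

namespace Pool.Agent.H61.HB

open Finset

open Classical in
private theorem avg {A : Type} (s : Finset A) (w : A → ℝ) (M N η : ℝ) (hs : (s.card : ℝ) ≤ N)
    (hw : ∀ a ∈ s, w a ≤ M) (hM : 0 < M) (hη : 0 ≤ η) (h : 2 * η * (N * M) ≤ ∑ a ∈ s, w a) :
    η * N ≤ ((s.filter (fun a => η * M ≤ w a)).card : ℝ) := by
  have h1 : ∑ a ∈ s, w a = ∑ a ∈ s.filter (fun a => η * M ≤ w a), w a +
      ∑ a ∈ s.filter (fun a => ¬ η * M ≤ w a), w a :=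
    (Finset.sum_filter_add_sum_filter_not s _ _).symm
  have h2 : ∑ a ∈ s.filter (fun a => η * M ≤ w a), w a ≤
      ((s.filter (fun a => η * M ≤ w a)).card : ℝ) * M := by
    rw [← nsmul_eq_mul]
    exact Finset.sum_le_card_nsmul _ _ M fun a ha => hw a (Finset.mem_filter.1 ha).1
  have h3 : ∑ a ∈ s.filter (fun a => ¬ η * M ≤ w a), w a ≤ (s.card : ℝ) * (η * M) := by
    refine (Finset.sum_le_card_nsmul _ _ (η * M) fun a ha =>
      (not_le.1 (Finset.mem_filter.1 ha).2).le).trans ?_
    rw [nsmul_eq_mul]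
    refine mul_le_mul_of_nonneg_right ?_ (mul_nonneg hη hM.le)
    exact_mod_cast Finset.card_filter_le _ _
  have h4 : (s.card : ℝ) * (η * M) ≤ N * (η * M) :=
    mul_le_mul_of_nonneg_right hs (mul_nonneg hη hM.le)
  have h5 : η * N * M ≤ ((s.filter (fun a => η * M ≤ w a)).card : ℝ) * M := by
    nlinarith
  exact le_of_mul_le_mul_right h5 hM

private theorem card_cons {A : Type} [Fintype A] {m : ℕ} (Q : (Fin (m + 1) → A) → Prop)
    [DecidablePred Q] : (univ.filter Q).card = ∑ a : A, (univ.filter (fun y : Fin m → A =>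
      Q (Fin.cons (α := fun _ => A) a y))).card := by
  simp only [Finset.card_filter]
  rw [← Equiv.sum_comp (Fin.consEquiv (fun _ => A))]
  exact Fintype.sum_prod_type (f := fun p : A × (Fin m → A) =>
    if Q (Fin.cons (α := fun _ => A) p.1 p.2) then (1 : ℕ) else 0)

open Classical in
theorem prd {Θ : Type} (X : Θ → Type) [∀ θ, Fintype (X θ)] [∀ θ, Nonempty (X θ)] {ι : Type}
    [Fintype ι] (T : ∀ θ, (ι → X θ) → Prop) (Good : Θ → ℕ → Prop)
    (hmono : ∀ θ D D', D ≤ D' → Good θ D' → Good θ D)
    (H : ∀ δ : ℝ, 0 < δ → ∃ (D : ℕ) (c : ℝ), 0 < c ∧ ∀ θ, Good θ D → ∀ S : Finset (X θ),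
      δ * (Fintype.card (X θ) : ℝ) ≤ (S.card : ℝ) →
      c * (Fintype.card (X θ) : ℝ) ^ Fintype.card ι ≤
        ((univ.filter (fun f : ι → X θ => T θ f ∧ ∀ i, f i ∈ S)).card : ℝ)) (m : ℕ) :
    ∀ γ : ℝ, 0 < γ → ∃ (D : ℕ) (c : ℝ), 0 < c ∧ ∀ θ, Good θ D → ∀ E : Finset (Fin m → X θ),
      γ * (Fintype.card (X θ) : ℝ) ^ m ≤ (E.card : ℝ) →
      c * (Fintype.card (X θ) : ℝ) ^ (m * Fintype.card ι) ≤
        ((univ.filter (fun f : Fin m → ι → X θ => (∀ i, T θ (f i)) ∧
          ∀ φ : Fin m → ι, (fun i => f i (φ i)) ∈ E)).card : ℝ) := by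
  induction m with
  | zero =>
    intro γ hγ
    refine ⟨0, 1, one_pos, fun θ _ E hE => ?_⟩
    have h1 : 0 < E.card := by
      have h2 : (0 : ℝ) < E.card := by
        refine lt_of_lt_of_le ?_ hE
        rw [pow_zero, mul_one]
        exact hγ
      exact_mod_cast h2
    obtain ⟨e, he⟩ := Finset.card_pos.1 h1
    have h2 : 0 < (univ.filter (fun f : Fin 0 → ι → X θ => (∀ i, T θ (f i)) ∧
          ∀ φ : Fin 0 → ι, (fun i => f i (φ i)) ∈ E)).card := by
      refine Finset.card_pos.2 ⟨fun i => i.elim0, Finset.mem_filter.2 ⟨Finset.mem_univ _,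
        fun i => i.elim0, fun φ => ?_⟩⟩
      have h3 : (fun i : Fin 0 => (fun i : Fin 0 => (i.elim0 : ι → X θ)) i (φ i)) = e := by
        funext i
        exact i.elim0
      rw [h3]
      exact he
    rw [zero_mul, pow_zero, mul_one]
    exact_mod_cast h2
  | succ m ih =>
    intro γ hγ
    obtain ⟨D₁, c₁, hc₁, H₁⟩ := H (γ / 2) (by positivity)
    obtain ⟨D₂, c₂, hc₂, H₂⟩ := ih (γ * c₁ / 4) (by positivity)
    refine ⟨max D₁ D₂, γ * c₁ / 4 * c₂, by positivity, fun θ hG E hE => ?_⟩
    have hG₁ := hmono θ _ _ (le_max_left D₁ D₂) hG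
    have hG₂ := hmono θ _ _ (le_max_right D₁ D₂) hG
    have hn : (0 : ℝ) < (Fintype.card (X θ) : ℝ) := by exact_mod_cast Fintype.card_pos
    set n : ℝ := (Fintype.card (X θ) : ℝ) with hn'
    set q : ℕ := Fintype.card ι with hq
    -- the sections of `E`
    let S : (Fin m → X θ) → Finset (X θ) := fun y =>
      univ.filter fun x₀ => Fin.cons (α := fun _ => X θ) x₀ y ∈ E
    have hES : (E.card : ℝ) = ∑ y : Fin m → X θ, ((S y).card : ℝ) := by
      have h1 : E.card = ∑ y : Fin m → X θ, (S y).card := by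
        have h2 : E = univ.filter (fun x => x ∈ E) := by
          ext x
          simp
        rw [h2, card_cons]
        simp only [S, Finset.card_filter]
        rw [Finset.sum_comm]
      rw [h1]
      push_cast
      rfl
    have hcm : ((univ : Finset (Fin m → X θ)).card : ℝ) = n ^ m := by
      rw [Finset.card_univ, Fintype.card_fun, Fintype.card_fin]
      push_cast
      rfl
    have hcq : ((univ : Finset (ι → X θ)).card : ℝ) = n ^ q := by
      rw [Finset.card_univ, Fintype.card_fun]
      push_cast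
      rfl
    have hG : γ / 2 * n ^ m ≤
        (((univ : Finset (Fin m → X θ)).filter
          (fun y => γ / 2 * n ≤ ((S y).card : ℝ))).card : ℝ) := by
      refine avg univ (fun y => ((S y).card : ℝ)) n (n ^ m) (γ / 2) hcm.le (fun y _ => ?_) hn
        (by positivity) ?_
      · have h1 := Finset.card_le_univ (S y)
        rw [hn']
        exact_mod_cast h1
      · rw [← hES]
        refine le_trans (le_of_eq ?_) hE
        rw [pow_succ]
        ring
    -- the sum over the families
    let K : (ι → X θ) → Finset (Fin m → X θ) := fun f =>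
      univ.filter fun y => ∀ i, Fin.cons (α := fun _ => X θ) (f i) y ∈ E
    have hK : ∑ f ∈ univ.filter (fun f : ι → X θ => T θ f), ((K f).card : ℝ) =
        ∑ y : Fin m → X θ, ((univ.filter
          (fun f : ι → X θ => T θ f ∧ ∀ i, f i ∈ S y)).card : ℝ) := by
      have h1 : ∑ f ∈ univ.filter (fun f : ι → X θ => T θ f), (K f).card =
          ∑ y : Fin m → X θ, (univ.filter
            (fun f : ι → X θ => T θ f ∧ ∀ i, f i ∈ S y)).card := by
        simp only [K, S, Finset.card_filter, Finset.sum_filter, Finset.mem_filter,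
          Finset.mem_univ, true_and]
        rw [Finset.sum_comm' (s := (univ : Finset (Fin m → X θ)))
          (t := fun _ => (univ : Finset (ι → X θ))) (t' := (univ : Finset (ι → X θ)))
          (s' := fun _ => (univ : Finset (Fin m → X θ))) (by simp)]
        refine Finset.sum_congr rfl fun f _ => ?_
        by_cases hf : T θ f
        · simp [hf]
        · simp [hf]
      exact_mod_cast h1
    have hKsum : 2 * (γ * c₁ / 4) * (n ^ q * n ^ m) ≤
        ∑ f ∈ univ.filter (fun f : ι → X θ => T θ f), ((K f).card : ℝ) := by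
      rw [hK]
      have h1 : ∑ y ∈ (univ : Finset (Fin m → X θ)).filter
          (fun y => γ / 2 * n ≤ ((S y).card : ℝ)), ((univ.filter
          (fun f : ι → X θ => T θ f ∧ ∀ i, f i ∈ S y)).card : ℝ) ≤
          ∑ y : Fin m → X θ, ((univ.filter
          (fun f : ι → X θ => T θ f ∧ ∀ i, f i ∈ S y)).card : ℝ) :=
        Finset.sum_le_sum_of_subset_of_nonneg (Finset.filter_subset _ _)
          fun _ _ _ => Nat.cast_nonneg _
      refine le_trans ?_ h1
      have h2 : ((((univ : Finset (Fin m → X θ)).filter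
          (fun y => γ / 2 * n ≤ ((S y).card : ℝ))).card : ℕ) : ℝ) * (c₁ * n ^ q) ≤
          ∑ y ∈ (univ : Finset (Fin m → X θ)).filter
          (fun y => γ / 2 * n ≤ ((S y).card : ℝ)), ((univ.filter
          (fun f : ι → X θ => T θ f ∧ ∀ i, f i ∈ S y)).card : ℝ) := by
        rw [← nsmul_eq_mul]
        exact Finset.card_nsmul_le_sum _ _ _ fun y hy =>
          H₁ θ hG₁ (S y) (Finset.mem_filter.1 hy).2
      refine le_trans ?_ h2
      refine le_trans (le_of_eq ?_) (mul_le_mul_of_nonneg_right hG (by positivity))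
      ring
    have hH : γ * c₁ / 4 * n ^ q ≤
        (((univ.filter (fun f : ι → X θ => T θ f)).filter
          (fun f => γ * c₁ / 4 * n ^ m ≤ ((K f).card : ℝ))).card : ℝ) := by
      refine avg _ (fun f => ((K f).card : ℝ)) (n ^ m) (n ^ q) (γ * c₁ / 4) ?_ (fun f _ => ?_)
        (by positivity) (by positivity) hKsum
      · rw [← hcq]
        exact_mod_cast Finset.card_filter_le _ _
      · rw [← hcm]
        exact_mod_cast Finset.card_filter_le _ _
    -- the families of the induction hypothesis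
    have hlast : ∀ f ∈ (univ.filter (fun f : ι → X θ => T θ f)).filter
        (fun f => γ * c₁ / 4 * n ^ m ≤ ((K f).card : ℝ)), c₂ * n ^ (m * q) ≤
        ((univ.filter (fun g : Fin m → ι → X θ =>
          (∀ i, T θ (Fin.cons (α := fun _ => ι → X θ) f g i)) ∧
          ∀ φ : Fin (m + 1) → ι,
            (fun i => Fin.cons (α := fun _ => ι → X θ) f g i (φ i)) ∈ E)).card : ℝ) := by
      intro f hf
      rw [Finset.mem_filter, Finset.mem_filter] at hf
      refine (H₂ θ hG₂ (K f) hf.2).trans ?_
      have h1 : (univ.filter (fun g : Fin m → ι → X θ => (∀ i, T θ (g i)) ∧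
          ∀ φ : Fin m → ι, (fun i => g i (φ i)) ∈ K f)) ⊆
          univ.filter (fun g : Fin m → ι → X θ =>
          (∀ i, T θ (Fin.cons (α := fun _ => ι → X θ) f g i)) ∧
          ∀ φ : Fin (m + 1) → ι,
            (fun i => Fin.cons (α := fun _ => ι → X θ) f g i (φ i)) ∈ E) := by
        intro g hg
        obtain ⟨_, hg1, hg2⟩ := Finset.mem_filter.1 hg
        refine Finset.mem_filter.2 ⟨Finset.mem_univ _, fun i => ?_, fun φ => ?_⟩
        · refine Fin.cases ?_ (fun j => ?_) i
          · rw [Fin.cons_zero]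
            exact hf.1.2
          · rw [Fin.cons_succ]
            exact hg1 j
        · have h2 := (Finset.mem_filter.1 (hg2 fun j => φ j.succ)).2 (φ 0)
          have h3 : (fun i => Fin.cons (α := fun _ => ι → X θ) f g i (φ i)) =
              Fin.cons (α := fun _ => X θ) (f (φ 0)) fun j => g j (φ j.succ) := by
            funext i
            refine Fin.cases ?_ (fun j => ?_) i
            · rw [Fin.cons_zero, Fin.cons_zero]
            · rw [Fin.cons_succ, Fin.cons_succ]
          rw [h3]
          exact h2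
      exact_mod_cast Finset.card_le_card h1
    have hcc : (univ.filter (fun f : Fin (m + 1) → ι → X θ => (∀ i, T θ (f i)) ∧
          ∀ φ : Fin (m + 1) → ι, (fun i => f i (φ i)) ∈ E)).card =
        ∑ f : ι → X θ, (univ.filter (fun g : Fin m → ι → X θ =>
          (∀ i, T θ (Fin.cons (α := fun _ => ι → X θ) f g i)) ∧
          ∀ φ : Fin (m + 1) → ι,
            (fun i => Fin.cons (α := fun _ => ι → X θ) f g i (φ i)) ∈ E)).card :=
      card_cons _
    rw [hcc]
    push_cast
    have h1 : ((((univ.filter (fun f : ι → X θ => T θ f)).filter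
          (fun f => γ * c₁ / 4 * n ^ m ≤ ((K f).card : ℝ))).card : ℕ) : ℝ) *
          (c₂ * n ^ (m * q)) ≤
        ∑ f ∈ (univ.filter (fun f : ι → X θ => T θ f)).filter
          (fun f => γ * c₁ / 4 * n ^ m ≤ ((K f).card : ℝ)),
        ((univ.filter (fun g : Fin m → ι → X θ =>
          (∀ i, T θ (Fin.cons (α := fun _ => ι → X θ) f g i)) ∧
          ∀ φ : Fin (m + 1) → ι,
            (fun i => Fin.cons (α := fun _ => ι → X θ) f g i (φ i)) ∈ E)).card : ℝ) := by
      rw [← nsmul_eq_mul]
      exact Finset.card_nsmul_le_sum _ _ _ hlast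
    refine le_trans ?_ (h1.trans (Finset.sum_le_sum_of_subset_of_nonneg
      (Finset.subset_univ _) fun _ _ _ => Nat.cast_nonneg _))
    refine le_trans (le_of_eq ?_) (mul_le_mul_of_nonneg_right hH (by positivity))
    rw [Nat.succ_mul, pow_add]
    ring

end Pool.Agent.H61.HB
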