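import Pool.Agent.H61.HB.Cor
import Pool.Agent.H61.HB.Prd

/-!
# [H61 HB TRC] Dense sets contain a positive proportion of all trees of bad tuples

Proof. Induction on `j` (for all `δ`). `m = k + 1`. `j = 0`: `IsTree` is `True`; the families `c : Lf m 0 × Fin s → ZMod P` with values in `S` are `|S|^s`,
`≥ δ^s P^s` (`Fintype.card (Lf m 0 × Fin s) = s`, `card_Lf`; `Fintype.card_piFinset`); `D = 0`, `γ = min δ 1 ^ s`.
Step: `Θ` = the type of the triples (`P` with `NeZero`, `Bad`), e.g. a structure or `Σ P : {P : ℕ // P ≠ 0}, ((Fin k → ZMod P) → Prop)`; `X θ = ZMod P`,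
`ι = Lf m j × Fin s`, `T θ = IsTree m s (fun x => Bad (dif x)) j`, `Good θ D = (D ≤ P ∧ Odd P ∧ DB k ε D Bad)` (`DB.mono`). The hypothesis `H` of `prd` is the induction
hypothesis. Let `D₁, γ₁` be from `cor` for `δ`, `D₂, c₂` from `prd` with `m = k + 1`, `γ = γ₁`. `D = max D₁ D₂`, constant `c₂`. Given `S`:
`E = {x | (∀ j, x j ∈ S) ∧ Bad (dif x)}` has at least `γ₁ P^m` elements (`cor`), so by `prd` at least `c₂ P^(m * (m^j s))` families `f : Fin m → ι → ZMod P`
have all `f i` trees and all transversals in `E`. The map `f ↦ (fun q => f q.1.1 (q.1.2, q.2))`, `q : Lf m (j+1) × Fin s`, `Lf m (j+1) = Fin m × Lf m j`, is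
injective; its image consists of trees of depth `j + 1` with values in `S` (each value occurs in a transversal, as all `m` subtrees are nonempty:
`s ≥ 1`; for `i`, `q` take `φ i = q` and any other choices). Exponent: `m * Fintype.card ι = m * (m^j * s) = m^(j+1) * s`.
-/

namespace Pool.Agent.H61.HB

open Finset

/-- the situations -/
private structure Sit (k : ℕ) : Type where
  P : ℕ
  ne : NeZero P
  Bad : (Fin k → ZMod P) → Prop

private theorem mem_filt {α : Type} (s : Finset α) (p : α → Prop) (d : DecidablePred p) (a : α) :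
    a ∈ @Finset.filter α p d s ↔ a ∈ s ∧ p a := Finset.mem_filter

private theorem mem_un {α : Type} (i : Fintype α) (a : α) : a ∈ @Finset.univ α i :=
  Finset.mem_univ a

private theorem card_inj {α β : Type} (i1 : Fintype α) (i2 : Fintype β) (p : α → Prop) (q : β → Prop)
    (d1 : DecidablePred p) (d2 : DecidablePred q) (f : α → β) (hf : Function.Injective f)
    (h : ∀ a, p a → q (f a)) :
    ((@Finset.filter α p d1 (@Finset.univ α i1)).card : ℝ) ≤
      ((@Finset.filter β q d2 (@Finset.univ β i2)).card : ℝ) := by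
  refine Nat.cast_le.2 (Finset.card_le_card_of_injOn f (fun a ha => ?_) (hf.injOn))
  have ha' := (mem_filt _ _ _ _).1 (Finset.mem_coe.1 ha)
  exact Finset.mem_coe.2 ((mem_filt _ _ _ _).2 ⟨mem_un _ _, h a ha'.2⟩)

open Classical in
theorem trc (k : ℕ) (hk : 1 ≤ k) (ε : ℝ) (hε : 0 < ε) (s : ℕ) (hs : 1 ≤ s) (j : ℕ) :
    ∀ δ : ℝ, 0 < δ → ∃ (D : ℕ) (γ : ℝ), 0 < γ ∧ ∀ (P : ℕ) [NeZero P], D ≤ P → Odd P →
      ∀ Bad : (Fin k → ZMod P) → Prop, DB k ε D Bad → ∀ S : Finset (ZMod P), δ * P ≤ (S.card : ℝ) →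
        γ * (P : ℝ) ^ ((k + 1) ^ j * s) ≤ ((univ.filter (fun c : Lf (k + 1) j × Fin s → ZMod P =>
          (∀ q, c q ∈ S) ∧ IsTree (k + 1) s (fun x => Bad (dif x)) j c)).card : ℝ) := by
  induction j with
  | zero =>
    intro δ hδ
    refine ⟨0, δ ^ s, by positivity, ?_⟩
    intro P hP0 _ _ Bad _ S hS
    have h1 : (Fintype.piFinset fun _ : Lf (k + 1) 0 × Fin s => S).card = S.card ^ s := by
      rw [Fintype.card_piFinset, Finset.prod_const, Finset.card_univ, Fintype.card_prod, card_Lf,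
        Fintype.card_fin, pow_zero, one_mul]
    have h2 : (Fintype.piFinset fun _ : Lf (k + 1) 0 × Fin s => S) ⊆
        univ.filter (fun c : Lf (k + 1) 0 × Fin s → ZMod P =>
          (∀ q, c q ∈ S) ∧ IsTree (k + 1) s (fun x => Bad (dif x)) 0 c) := by
      intro c hc
      rw [Fintype.mem_piFinset] at hc
      exact (mem_filt _ _ _ _).2 ⟨mem_un _ _, hc, trivial⟩
    have h3 : ((S.card ^ s : ℕ) : ℝ) ≤ ((univ.filter (fun c : Lf (k + 1) 0 × Fin s → ZMod P =>
          (∀ q, c q ∈ S) ∧ IsTree (k + 1) s (fun x => Bad (dif x)) 0 c)).card : ℝ) := by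
      rw [← h1]
      exact_mod_cast Finset.card_le_card h2
    refine le_trans ?_ h3
    rw [pow_zero, one_mul, ← mul_pow]
    push_cast
    exact pow_le_pow_left₀ (by positivity) hS s
  | succ j ih =>
    intro δ hδ
    obtain ⟨D1, γ1, hγ1, h1⟩ := cor k hk ε δ hε hδ
    have hne : ∀ θ : Sit k, NeZero θ.P := fun θ => θ.ne
    have hcard : ∀ θ : Sit k, Fintype.card (ZMod θ.P) = θ.P := fun θ => ZMod.card θ.P
    have hι : Fintype.card (Lf (k + 1) j × Fin s) = (k + 1) ^ j * s := by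
      rw [Fintype.card_prod, card_Lf, Fintype.card_fin]
    obtain ⟨D2, c2, hc2, h2⟩ := prd (Θ := Sit k) (fun θ => ZMod θ.P) (ι := Lf (k + 1) j × Fin s)
      (fun θ c => IsTree (k + 1) s (fun x => θ.Bad (dif x)) j c)
      (fun θ D => D ≤ θ.P ∧ Odd θ.P ∧ DB k ε D θ.Bad)
      (fun θ D D' hD h => ⟨hD.trans h.1, h.2.1, h.2.2.mono hD⟩)
      (by
        intro δ' hδ'
        obtain ⟨D, c, hc, h⟩ := ih δ' hδ'
        refine ⟨D, c, hc, fun θ hθ S hS => ?_⟩
        have h3 := h θ.P hθ.1 hθ.2.1 θ.Bad hθ.2.2 S (by rw [hcard] at hS; exact hS)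
        rw [hcard, hι]
        exact h3.trans (card_inj _ _ _ _ _ _ id Function.injective_id
          (fun a ha => ⟨ha.2, ha.1⟩))) (k + 1) γ1 hγ1
    refine ⟨max D1 D2, c2, hc2, ?_⟩
    intro P hP0 hPD hodd Bad hDB S hS
    have h4 := h1 P ((le_max_left _ _).trans hPD) hodd Bad (hDB.mono (le_max_left _ _)) S hS
    have e : Fintype.card (ZMod P) = P := ZMod.card P
    obtain ⟨E, hE⟩ : ∃ E : Finset (Fin (k + 1) → ZMod P), E =
        univ.filter (fun x : Fin (k + 1) → ZMod P => (∀ j, x j ∈ S) ∧ Bad (dif x)) := ⟨_, rfl⟩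
    have hE' : ∀ x, x ∈ E → (∀ j, x j ∈ S) ∧ Bad (dif x) := by
      intro x hx
      rw [hE] at hx
      exact ((mem_filt _ _ _ _).1 hx).2
    rw [← hE] at h4
    have h5 := h2 ⟨P, hP0, Bad⟩ ⟨(le_max_right _ _).trans hPD, hodd, hDB.mono (le_max_right _ _)⟩ E (by
        show γ1 * (Fintype.card (ZMod P) : ℝ) ^ (k + 1) ≤ _
        rw [e]
        exact h4)
    have h7 : c2 * (Fintype.card (ZMod P) : ℝ) ^ ((k + 1) * Fintype.card (Lf (k + 1) j × Fin s)) ≤ _ := h5
    rw [e, hι] at h7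
    have h8 : (k + 1) ^ (j + 1) * s = (k + 1) * ((k + 1) ^ j * s) := by ring
    rw [h8]
    refine h7.trans (card_inj _ _ _ _ _ _
      (fun (f : Fin (k + 1) → Lf (k + 1) j × Fin s → ZMod P)
        (q : (Fin (k + 1) × Lf (k + 1) j) × Fin s) => f q.1.1 (q.1.2, q.2)) ?_ ?_)
    · intro f f' h
      funext i q
      exact congrFun h ((i, q.1), q.2)
    · rintro f ⟨hf1, hf2⟩
      refine ⟨?_, ?_, ?_⟩
      · rintro ⟨⟨i, l⟩, t⟩
        exact (hE' _ (hf2 (fun _ => (l, t)))).1 i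
      · exact fun i => hf1 i
      · intro φ
        exact (hE' _ (hf2 φ)).2

end Pool.Agent.H61.HB
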