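import Pool.Agent.H61.GD.OneC
import Pool.Agent.H61.GD.Two
import Pool.Agent.H61.GD.Fin
import Pool.Agent.H61.HB.Boh
import Pool.Agent.H61.HB.Trc
import Pool.Agent.H61.HB.Hit
import Pool.Agent.H61.HB.Box
import Pool.Agent.H61.HB.Cnv

/-!
# [H61 HB FIN] THEOREM H: assembly

Almost all `k`-tuples of a Bohr set of bounded complexity in `[1, L]` occur as differences of primes of one colour with the
right order of magnitude, at every scale `L ≤ (log X)^A`.
-/

namespace Pool.Agent.H61.HB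

open Finset Filter Pool.Agent.H61.UN Pool.Agent.H61.UL Pool.Agent.H92.MM Pool.Agent.H61.GD

open Classical in
/-- number of `N ≤ X` with `N`, `N + a_j` all prime of colour `i` -/
noncomputable def cntH {k r : ℕ} (col : ℕ → Fin r) (i : Fin r) (a : Fin k → ℕ) (X : ℕ) : ℕ :=
  ((Icc 1 X).filter (fun N => (N.Prime ∧ col N = i) ∧
    ∀ j, (N + a j).Prime ∧ col (N + a j) = i)).card

open Classical in
/-- Bohr set in `[1, L]` -/
noncomputable def BS (D : ℕ) (α : Fin D → ℝ) (L : ℕ) : Finset ℕ :=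
  (Icc 1 L).filter (fun h => ∀ i, ∃ z : ℤ, |(h : ℝ) * α i - z| ≤ 1 / 4)

theorem cc_eq {k r : ℕ} (col : ℕ → Fin r) (a : Fin k → ℕ) (X : ℕ) :
    cc col X 1 a = ∑ i : Fin r, cntH col i a X := by
  classical
  unfold cc cntH
  rw [card_eq_sum_card_fiberwise (f := fun N => col N) (t := univ)
    (fun N _ => mem_coe.2 (mem_univ _))]
  refine sum_congr rfl fun i _ => ?_
  rw [filter_filter]
  congr 1
  ext N
  simp only [mem_filter, one_mul]
  constructor
  · rintro ⟨h1, ⟨h2, h3⟩, h4⟩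
    exact ⟨h1, ⟨h2, h4⟩, fun j => ⟨(h3 j).1, (h3 j).2.trans h4⟩⟩
  · rintro ⟨h1, ⟨h2, h4⟩, h3⟩
    exact ⟨h1, ⟨h2, fun j => ⟨(h3 j).1, (h3 j).2.trans h4.symm⟩⟩, h4⟩

/-- the threshold `k^j < (6/25) (k+1)^j / r` -/
theorem exists_j (k r : ℕ) (hr : 1 ≤ r) : ∃ j : ℕ, 1 ≤ j ∧
    (r : ℝ) * (k : ℝ) ^ j < 6 / 25 * ((k : ℝ) + 1) ^ j := by
  have hrr : (1 : ℝ) ≤ r := by exact_mod_cast hr
  have hk0 : (0 : ℝ) ≤ k := Nat.cast_nonneg _
  have h1 : (k : ℝ) / (k + 1) < 1 := by
    rw [div_lt_one (by positivity)]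
    linarith
  obtain ⟨j, hj⟩ := exists_pow_lt_of_lt_one (show (0 : ℝ) < 6 / (25 * r) by positivity) h1
  have hj2 : (r : ℝ) * (k : ℝ) ^ j < 6 / 25 * ((k : ℝ) + 1) ^ j := by
    rw [div_pow, div_lt_div_iff₀ (by positivity) (by positivity)] at hj
    linarith
  refine ⟨j, ?_, hj2⟩
  by_contra h
  have h0 : j = 0 := by omega
  rw [h0, pow_zero, pow_zero] at hj2
  linarith

/-- one value of the difference in `ZMod P` determines the natural difference -/
theorem val_sub_nat {L' : ℕ} (x y : ZMod (2 * L' + 1)) (hx : x.val ≤ L')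
    (h : 2 * (y - x).val < 2 * L' + 1) : y.val = x.val + (y - x).val := by
  have h1 : y = x + (y - x) := by ring
  have h2 : (x + (y - x)).val = (x.val + (y - x).val) % (2 * L' + 1) := ZMod.val_add _ _
  rw [← h1, Nat.mod_eq_of_lt (by omega)] at h2
  exact h2

theorem card_low (L' : ℕ) :
    ((1 / 4 : ℝ)) * ((2 * L' + 1 : ℕ) : ℝ) ≤
      (((univ : Finset (ZMod (2 * L' + 1))).filter (fun x => x.val ≤ L')).card : ℝ) := by
  have h1 : L' + 1 ≤ ((univ : Finset (ZMod (2 * L' + 1))).filter (fun x => x.val ≤ L')).card := by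
    rw [← card_range (L' + 1)]
    refine card_le_card_of_injOn (fun n => (n : ZMod (2 * L' + 1))) ?_ ?_
    · intro n hn
      rw [mem_coe, mem_range] at hn
      rw [mem_coe, mem_filter]
      refine ⟨mem_univ _, ?_⟩
      rw [ZMod.val_cast_of_lt (by omega)]
      omega
    · intro n hn n' hn' h
      rw [mem_coe, mem_range] at hn hn'
      have h2 := congrArg ZMod.val h
      simp only at h2
      rwa [ZMod.val_cast_of_lt (by omega), ZMod.val_cast_of_lt (by omega)] at h2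
  have h2 : ((L' + 1 : ℕ) : ℝ) ≤
      (((univ : Finset (ZMod (2 * L' + 1))).filter (fun x => x.val ≤ L')).card : ℝ) := by
    exact_mod_cast h1
  refine le_trans ?_ h2
  push_cast
  have : (0 : ℝ) ≤ L' := Nat.cast_nonneg _
  linarith

/-- the Bohr set of `cnv` -/
theorem BS_eq {Q L D' : ℕ} (hQ : 1 ≤ Q) (Λ : Finset (ZMod (2 * (L / Q) + 1))) (n : ℕ)
    (α : Fin D' → ℝ) (hα : ∀ h : ℕ, 1 ≤ h → h ≤ L →
      ((∀ i, ∃ z : ℤ, |(h : ℝ) * α i - z| ≤ 1 / 4) ↔ ∃ b ∈ bp Λ n, h = Q * b.val)) :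
    BS D' α L = (bp Λ n).image (fun b => Q * b.val) := by
  classical
  ext h
  unfold BS
  rw [mem_filter, mem_Icc, mem_image]
  constructor
  · rintro ⟨⟨h1, h2⟩, h3⟩
    obtain ⟨b, hb, hb2⟩ := (hα h h1 h2).1 h3
    exact ⟨b, hb, hb2.symm⟩
  · rintro ⟨b, hb, rfl⟩
    have hb' := hb
    unfold bp at hb'
    rw [mem_filter] at hb'
    have h1 : 1 ≤ Q * b.val := Nat.mul_pos hQ hb'.2.1
    have h2 : Q * b.val ≤ L := by
      have h3 : b.val ≤ L / Q := by omega
      exact (Nat.mul_le_mul_left _ h3).trans (Nat.mul_div_le L Q)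
    exact ⟨⟨h1, h2⟩, (hα _ h1 h2).2 ⟨b, hb, rfl⟩⟩

theorem BS_card {Q L D' : ℕ} (hQ : 1 ≤ Q) (Λ : Finset (ZMod (2 * (L / Q) + 1))) (n : ℕ)
    (α : Fin D' → ℝ) (hα : BS D' α L = (bp Λ n).image (fun b => Q * b.val)) :
    (BS D' α L).card = (bp Λ n).card := by
  rw [hα]
  apply card_image_of_injective
  intro b b' h
  exact ZMod.val_injective _ (Nat.eq_of_mul_eq_mul_left hQ h)

open Classical in
theorem thmH (k r : ℕ) (hk : 1 ≤ k) (hr : 1 ≤ r) (ε : ℝ) (hε : 0 < ε) :
    ∃ (D K L0 : ℕ) (κ : ℝ), 0 < κ ∧ ∀ A : ℝ, 0 < A → ∃ (c : ℝ) (X0 : ℕ), 0 < c ∧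
      ∀ X : ℕ, X0 ≤ X → ∀ L : ℕ, L0 ≤ L → (L : ℝ) ≤ Real.log X ^ A → ∀ col : ℕ → Fin r,
        ∃ α : Fin D → ℝ, κ * L ≤ ((BS D α L).card : ℝ) ∧
          (((Fintype.piFinset fun _ : Fin k => BS D α L).filter (fun a =>
            ¬ ∃ i, c * (min 1 ((L : ℝ) / Real.log X)) ^ K * (X / Real.log X ^ (k + 1)) ≤
              (cntH col i a X : ℝ))).card : ℝ) ≤ ε * ((BS D α L).card : ℝ) ^ k := by
  have hrr : (1 : ℝ) ≤ r := by exact_mod_cast hr
  obtain ⟨j, hj1, hj⟩ := exists_j k r hr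
  have hM : k + 1 ≤ (k + 1) ^ j := by
    calc k + 1 = (k + 1) ^ 1 := (pow_one _).symm
      _ ≤ (k + 1) ^ j := Nat.pow_le_pow_right (by omega) hj1
  obtain ⟨s, hs, hmain⟩ := main_B blkU (1 / 100) (by norm_num) le_rfl ((k + 1) ^ j) k hM
  obtain ⟨D₁, γ, hγ, htrc⟩ := trc k hk ε hε s hs j (1 / 4) (by norm_num)
  obtain ⟨δ, L₂, hδ, hδ1, hbox⟩ := box (k + 1) j s (by omega) hs γ hγ
  obtain ⟨Q, hQ⟩ : ∃ Q : ℕ, Q = ((k + 1) ^ j * s).factorial := ⟨_, rfl⟩
  rw [← hQ] at hbox
  have hQ1 : 1 ≤ Q := by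
    rw [hQ]
    exact Nat.factorial_pos _
  have hQr : (1 : ℝ) ≤ Q := by exact_mod_cast hQ1
  obtain ⟨D', hcnv⟩ := cnv Q D₁ hQ1
  obtain ⟨W, hW⟩ : ∃ W : ℕ, W = 2 ^ (D₁ * D₁) := ⟨_, rfl⟩
  have hW1 : 1 ≤ W := by
    rw [hW]
    exact Nat.one_le_two_pow
  have hWr : (1 : ℝ) ≤ W := by exact_mod_cast hW1
  refine ⟨D', (k + 1) ^ j * s - (k + 1), max L₂ (Q * (D₁ + W + 1)), 1 / (3 * Q * W),
    by positivity, fun A hA => ?_⟩
  obtain ⟨c1, T1, lam1, hc1, hT1, hlam1, hev⟩ := hmain (A + 1) δ (by linarith) hδ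
  have hx : Tendsto (fun X : ℕ => (X : ℝ) / (2 * T1)) atTop atTop :=
    (tendsto_natCast_atTop_atTop).atTop_div_const (by positivity)
  have hev1 := hx.eventually hev
  have hev2 := (tendsto_natCast_atTop_atTop (R := ℝ)).eventually (ev_two A T1 hA hT1 1)
  obtain ⟨X0, hX0⟩ := eventually_atTop.1 (hev1.and hev2)
  refine ⟨c1 / (8 * T1 * r), max X0 1, by positivity,
    fun X hX L hL hLA col => ?_⟩
  obtain ⟨hE1, hE2⟩ := hX0 X ((le_max_left _ _).trans hX)
  have hXpos : (0 : ℝ) < X := by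
    have : 1 ≤ X := (le_max_right _ _).trans hX
    exact_mod_cast this
  obtain ⟨hq1, hq2, hq3, hq4, hq5⟩ := hE2 L (Nat.cast_nonneg _) hLA
  obtain ⟨x, hxd⟩ : ∃ x : ℝ, x = (X : ℝ) / (2 * T1) := ⟨_, rfl⟩
  rw [← hxd] at hE1 hq1 hq2 hq3 hq4
  rw [one_mul] at hq1 hq5
  -- the size of `L`
  have hL₂ : L₂ ≤ L := (le_max_left _ _).trans hL
  have hLQ : Q * (D₁ + W + 1) ≤ L := (le_max_right _ _).trans hL
  obtain ⟨L', hL'⟩ : ∃ L' : ℕ, L' = L / Q := ⟨_, rfl⟩
  have hL'1 : D₁ + W + 1 ≤ L' := by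
    rw [hL']
    exact (Nat.le_div_iff_mul_le hQ1).2 (by rwa [mul_comm])
  have hQL' : Q * L' ≤ L := by
    rw [hL']
    exact Nat.mul_div_le L Q
  have hLlt : L < Q * (L' + 1) := by
    rw [hL', mul_comm]
    exact Nat.lt_mul_of_div_lt (Nat.lt_succ_self _) hQ1
  have hL1 : 1 ≤ L := by
    have : 1 * 1 ≤ Q * L' := Nat.mul_le_mul hQ1 (by omega)
    omega
  obtain ⟨thr, hthr⟩ : ∃ thr : ℝ, thr = c1 / (8 * T1 * r) *
    (min 1 ((L : ℝ) / Real.log X)) ^ ((k + 1) ^ j * s - (k + 1)) *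
      (X / Real.log X ^ (k + 1)) := ⟨_, rfl⟩
  rw [← hthr]
  by_contra hcon
  push Not at hcon
  -- the bad differences
  have hP1 : D₁ ≤ 2 * L' + 1 := by omega
  have hPodd : Odd (2 * L' + 1) := ⟨L', rfl⟩
  obtain ⟨Bad, hBad⟩ : ∃ Bad : (Fin k → ZMod (2 * L' + 1)) → Prop, ∀ a, Bad a ↔
      ((∀ j, 1 ≤ (a j).val ∧ (a j).val ≤ L') ∧
        ∀ i, (cntH col i (fun j => Q * (a j).val) X : ℝ) < thr) := ⟨_, fun _ => Iff.rfl⟩
  have hDB : DB k ε D₁ Bad := by
    intro Λ n hΛ hn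
    obtain ⟨α, hα⟩ := hcnv L (2 * L' + 1) (by rw [hL']) Λ n hΛ hn
    have hBS : BS D' α L = (bp Λ n).image (fun b => Q * b.val) := by
      subst hL'
      exact BS_eq hQ1 Λ n α hα
    have hBSc : (BS D' α L).card = (bp Λ n).card := by
      rw [hBS]
      apply card_image_of_injective
      intro b b' h
      exact ZMod.val_injective _ (Nat.eq_of_mul_eq_mul_left hQ1 h)
    have hexp : 2 ^ (n * Λ.card) ≤ W := by
      rw [hW]
      exact Nat.pow_le_pow_right (by norm_num) (Nat.mul_le_mul hn hΛ)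
    have hb1 := bp_card hPodd Λ n (by omega)
    have hb2 : (L : ℝ) ≤ 3 * Q * W * ((bp Λ n).card : ℝ) := by
      have h1 : L ≤ Q * (3 * W * (bp Λ n).card) := by
        calc L ≤ Q * (L' + 1) := hLlt.le
          _ ≤ Q * (2 * L' + 1) := Nat.mul_le_mul_left _ (by omega)
          _ ≤ Q * (3 * 2 ^ (n * Λ.card) * (bp Λ n).card) := Nat.mul_le_mul_left _ hb1
          _ ≤ Q * (3 * W * (bp Λ n).card) :=
            Nat.mul_le_mul_left _ (Nat.mul_le_mul_right _ (Nat.mul_le_mul_left _ hexp))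
      have h2 : (L : ℝ) ≤ ((Q * (3 * W * (bp Λ n).card) : ℕ) : ℝ) := by exact_mod_cast h1
      refine h2.trans (le_of_eq ?_)
      push_cast
      ring
    have hb3 : 1 / (3 * (Q : ℝ) * W) * L ≤ ((BS D' α L).card : ℝ) := by
      rw [hBSc, one_div, inv_mul_le_iff₀ (by positivity)]
      exact hb2
    have h4 := (hcon α hb3).le
    rw [hBSc] at h4
    refine h4.trans ?_
    have h5 : ((Fintype.piFinset fun _ : Fin k => BS D' α L).filter (fun a =>
        ∀ i, (cntH col i a X : ℝ) < thr)) ⊆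
        (((Fintype.piFinset fun _ : Fin k => bp Λ n).filter fun a => Bad a).image
              (fun a j => Q * (a j).val)) := by
      intro a ha
      rw [mem_filter, Fintype.mem_piFinset] at ha
      obtain ⟨ha1, ha2⟩ := ha
      have h6 : ∀ j, ∃ b ∈ bp Λ n, Q * b.val = a j := by
        intro j
        have := ha1 j
        rw [hBS, mem_image] at this
        exact this
      choose b hb hba using h6
      rw [mem_image]
      refine ⟨b, ?_, funext hba⟩
      rw [mem_filter, Fintype.mem_piFinset, hBad]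
      refine ⟨hb, fun j => ?_, ?_⟩
      · have h7 := hb j
        unfold bp at h7
        rw [mem_filter] at h7
        have := h7.2
        omega
      · have h8 : (fun j => Q * (b j).val) = a := funext hba
        rw [h8]
        exact ha2
    exact Nat.cast_le.2 ((card_le_card h5).trans card_image_le)
  -- the trees
  obtain ⟨TT, hTT⟩ : ∃ TT : Finset (Lf (k + 1) j × Fin s → ZMod (2 * L' + 1)), TT =
      univ.filter (fun c : Lf (k + 1) j × Fin s → ZMod (2 * L' + 1) =>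
        (∀ q, c q ∈ (univ : Finset (ZMod (2 * L' + 1))).filter (fun x => x.val ≤ L')) ∧
          IsTree (k + 1) s (fun x => Bad (dif x)) j c) := ⟨_, rfl⟩
  have hTTc := htrc (2 * L' + 1) hP1 hPodd Bad hDB _ (card_low L')
  rw [← hTT] at hTTc
  have hTT1 : ∀ c ∈ TT, (∀ q, (c q).val ≤ L') ∧ IsTree (k + 1) s (fun x => Bad (dif x)) j c := by
    intro c hc
    rw [hTT, mem_filter] at hc
    refine ⟨fun q => ?_, hc.2.2⟩
    have := hc.2.1 q
    rw [mem_filter] at this
    exact this.2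
  obtain ⟨BB, hBB1, hBB2, hBB3⟩ : ∃ BB : Finset (Fin ((k + 1) ^ j) × Fin s → ℕ),
      (∀ v ∈ BB, v ∈ IJ (Fin ((k + 1) ^ j) × Fin s) L ∧ Admv v) ∧
      δ * (L : ℝ) ^ ((k + 1) ^ j * s) ≤ (BB.card : ℝ) ∧
      ∀ v ∈ BB, ∃ c ∈ TT, ∀ i t, v (i, t) = Q * (c (le (k + 1) j i, t)).val := by
    have h1 := hbox L hL₂
    rw [← hL'] at h1
    exact h1 TT (fun c hc q => (hTT1 c hc).1 q) hTTc
  obtain ⟨D, hD⟩ : ∃ D : Finset (Fin k → ℕ), D = (Fintype.piFinset fun _ : Fin k => Icc 1 L).filter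
      (fun a => ∀ i, (cntH col i a X : ℝ) < thr) := ⟨_, rfl⟩
  have hDcard : D.card ≤ L ^ k := by
    rw [hD]
    refine (card_filter_le _ _).trans ?_
    rw [Fintype.card_piFinset]
    simp
  have hle : ∀ v ∈ BB, ∀ q, v q ≤ L := fun v hv q => (mem_IJ.1 (hBB1 v hv).1).1 q
  have key := hE1 L hL1 hq1 False (fun h => h.elim) BB hBB1 hBB2 (GC' col 1 L D) (by
      intro N _ rr hr' i
      unfold GC' at hr'
      rw [mem_image] at hr'
      obtain ⟨⟨z, n⟩, hq, rfl⟩ := hr'
      rw [mem_filter, mem_product, mem_range] at hq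
      obtain ⟨⟨hz, hn⟩, h1, h2, h3⟩ := hq
      simp only at hz hn h1 h2 h3
      refine Fin.cases ?_ (fun i => ?_) i
      · simp only [Fin.cons_zero]
        exact ⟨by omega, h2⟩
      · simp only [Fin.cons_succ]
        exact ⟨by rw [one_mul]; exact h1 i, (h3 i).1⟩) (by
      intro v hv N _ hpc _
      obtain ⟨c, hc, h⟩ := hBB3 v hv
      obtain ⟨hc1, hc2⟩ := hTT1 c hc
      obtain ⟨E0, hE0⟩ : ∃ E0 : Finset (Fin ((k + 1) ^ j)), E0 =
        univ.filter (fun j : Fin ((k + 1) ^ j) => ∃ l : Fin s, (N + v (j, l)).Prime) := ⟨_, rfl⟩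
      have hE0c : 6 / 25 * ((k : ℝ) + 1) ^ j ≤ E0.card := by
        have h1 : (pc v N : ℝ) = E0.card := by
          rw [hE0]
          rfl
        rw [← h1]
        refine le_trans (le_of_eq ?_) hpc
        push_cast
        ring
      obtain ⟨φ, hφ0⟩ : ∃ φ : Fin ((k + 1) ^ j) → Fin s, ∀ j ∈ E0, (N + v (j, φ j)).Prime := by
        have : ∀ j' : Fin ((k + 1) ^ j), ∃ l : Fin s, j' ∈ E0 → (N + v (j', l)).Prime := by
          intro j'
          by_cases hj' : j' ∈ E0
          · have h2 := hj'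
            rw [hE0, mem_filter] at h2
            obtain ⟨l, hl⟩ := h2.2
            exact ⟨l, fun _ => hl⟩
          · exact ⟨⟨0, hs⟩, fun h => absurd h hj'⟩
        choose φ hφ using this
        exact ⟨φ, hφ⟩
      -- the most frequent colour
      obtain ⟨i0, hi0⟩ : ∃ i0 : Fin r, E0.card ≤ r *
          (E0.filter (fun j => col (N + v (j, φ j)) = i0)).card := by
        by_contra hcon'
        push Not at hcon'
        have h1 : E0.card = ∑ i : Fin r, (E0.filter (fun j => col (N + v (j, φ j)) = i)).card :=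
          card_eq_sum_card_fiberwise (fun j _ => mem_coe.2 (mem_univ _))
        have h2 : ∑ i : Fin r, r * (E0.filter (fun j => col (N + v (j, φ j)) = i)).card <
            ∑ _i : Fin r, E0.card :=
          sum_lt_sum_of_nonempty ⟨⟨0, hr⟩, mem_univ _⟩ fun i _ => hcon' i
        rw [← mul_sum, ← h1, sum_const, card_univ, Fintype.card_fin, smul_eq_mul] at h2
        exact lt_irrefl _ h2
      obtain ⟨E, hE⟩ : ∃ E : Finset (Fin ((k + 1) ^ j)), E =
        E0.filter (fun j => col (N + v (j, φ j)) = i0) := ⟨_, rfl⟩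
      rw [← hE] at hi0
      have hφ : ∀ j ∈ E, (N + v (j, φ j)).Prime ∧ col (N + v (j, φ j)) = i0 := by
        intro j hj
        rw [hE, mem_filter] at hj
        exact ⟨hφ0 j hj.1, hj.2⟩
      have hEc : k ^ j < E.card := by
        have h1 : (E0.card : ℝ) ≤ r * E.card := by exact_mod_cast hi0
        have h2 : (r : ℝ) * (k : ℝ) ^ j < r * E.card := by linarith
        have h3 : ((k ^ j : ℕ) : ℝ) < E.card := by
          push_cast
          exact lt_of_mul_lt_mul_left h2 (by linarith)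
        exact_mod_cast h3
      -- the leaves with a prime of colour `i0`
      obtain ⟨F, hF⟩ : ∃ F : ZMod (2 * L' + 1) → Prop, ∀ y, F y ↔
          ((N + Q * y.val).Prime ∧ col (N + Q * y.val) = i0) := ⟨_, fun _ => Iff.rfl⟩
      have hhit := hit (k + 1) s (fun x => Bad (dif x)) F j c hc2 (by
          rw [Nat.add_sub_cancel]
          refine lt_of_lt_of_le hEc ?_
          refine card_le_card_of_injOn (fun i => le (k + 1) j i) ?_ ?_
          · intro i hi
            have hi' : i ∈ E := hi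
            have h1 := hφ i hi'
            rw [h] at h1
            exact mem_coe.2 (mem_filter.2 ⟨mem_univ _, φ i, (hF _).2 h1⟩)
          · intro i _ i' _ hii
            exact (le (k + 1) j).injective hii)
      obtain ⟨ψ, hψ1, hψ2, hψ3⟩ := hhit
      simp only [hF] at hψ3
      rw [hBad] at hψ2
      obtain ⟨hψa, hψb⟩ := hψ2
      have hsub : ∀ i : Fin k, (c (ψ i.succ)).val =
          (c (ψ 0)).val + (dif (fun i => c (ψ i)) i).val := by
        intro i
        have h2 : (c (ψ i.succ) - c (ψ 0)).val ≤ L' := (hψa i).2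
        exact val_sub_nat _ _ (hc1 _) (by omega)
      refine ⟨fun i => ((le (k + 1) j).symm (ψ i).1, (ψ i).2), ?_, ?_⟩
      · intro i i' hii
        simp only [Prod.mk.injEq, EmbeddingLike.apply_eq_iff_eq] at hii
        exact hψ1 (Prod.ext hii.1 hii.2)
      · have hval : ∀ i, v ((le (k + 1) j).symm (ψ i).1, (ψ i).2) = Q * (c (ψ i)).val := by
          intro i
          rw [h, Equiv.apply_symm_apply]
        unfold GC'
        rw [mem_image]
        refine ⟨(Q * (c (ψ 0)).val, fun i => Q * (dif (fun i => c (ψ i)) i).val), ?_, ?_⟩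
        · have e1 : ∀ i : Fin k, Q * (c (ψ 0)).val + Q * (dif (fun i => c (ψ i)) i).val =
              Q * (c (ψ i.succ)).val := fun i => by
            rw [hsub i]
            ring
          have hQv : ∀ i, Q * (c (ψ i)).val ≤ L := fun i =>
            (Nat.mul_le_mul_left _ (hc1 _)).trans hQL'
          rw [mem_filter, mem_product, mem_range]
          simp only [e1, one_mul]
          refine ⟨⟨Nat.lt_succ_of_le (hQv 0), ?_⟩, fun i => hQv _, (hψ3 0).1, fun i =>
            ⟨(hψ3 _).1, (hψ3 _).2.trans (hψ3 0).2.symm⟩⟩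
          rw [hD, mem_filter, Fintype.mem_piFinset]
          refine ⟨fun i => ?_, hψb⟩
          rw [mem_Icc]
          exact ⟨Nat.mul_pos hQ1 (hψa i).1, (Nat.mul_le_mul_left _ (hψa i).2).trans hQL'⟩
        · funext i
          refine Fin.cases ?_ (fun i => ?_) i
          · simp only [Fin.cons_zero, Function.comp, hval, one_mul]
          · simp only [Fin.cons_succ, Function.comp, hval, one_mul]
            rw [hsub i]
            ring)
  -- upper bound
  have hTx0 : ∀ N ∈ (Tx x).filter (fun N : ℕ => (N : ℝ) ≤ T1 * x), 1 ≤ N ∧ N ≤ X - 1 * L := by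
    intro N hN
    rw [mem_filter, Tx, mem_Ioc] at hN
    have h1 : T1 * x = X / 2 := by
      rw [hxd]
      have : T1 ≠ 0 := by positivity
      field_simp
    have h2 : (N : ℝ) ≤ X / 2 := by rw [← h1]; exact hN.2
    have h4 : ((N + L : ℕ) : ℝ) ≤ X := by
      push_cast
      linarith
    have h5 : N + L ≤ X := by exact_mod_cast h4
    omega
  have hup := sum_GC' col 1 L D _ (X - 1 * L) hTx0
  have hX4 : X - 1 * L + 1 * L = X := by
    have h4 : ((L : ℕ) : ℝ) ≤ X := by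
      linarith
    have h5 : L ≤ X := by exact_mod_cast h4
    omega
  rw [hX4] at hup
  have hlX : 0 < Real.log X := by linarith
  have hthr0 : 0 ≤ thr := by
    rw [hthr]
    have : 0 ≤ min 1 ((L : ℝ) / Real.log X) := le_min zero_le_one (by positivity)
    positivity
  have hup2 : ((∑ N ∈ (Tx x).filter (fun N : ℕ => (N : ℝ) ≤ T1 * x),
      (GC' col 1 L D N).card : ℕ) : ℝ) ≤ (L + 1) * ((L : ℝ) ^ k * (r * thr)) := by
    have h1 : ((∑ N ∈ (Tx x).filter (fun N : ℕ => (N : ℝ) ≤ T1 * x),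
        (GC' col 1 L D N).card : ℕ) : ℝ) ≤ ((L + 1) * ∑ n ∈ D, cc col X 1 n : ℕ) := by
      exact_mod_cast hup
    refine h1.trans ?_
    push_cast
    apply mul_le_mul_of_nonneg_left _ (by positivity)
    calc ∑ n ∈ D, (cc col X 1 n : ℝ) ≤ ∑ _n ∈ D, r * thr := by
          apply sum_le_sum
          intro a ha
          rw [hD, mem_filter] at ha
          have h2 := ha.2
          rw [cc_eq]
          push_cast
          calc ∑ i : Fin r, (cntH col i a X : ℝ) ≤ ∑ _i : Fin r, thr :=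
                sum_le_sum fun i _ => (h2 i).le
            _ = r * thr := by
                rw [sum_const, nsmul_eq_mul, card_univ, Fintype.card_fin]
      _ = D.card * (r * thr) := by rw [sum_const, nsmul_eq_mul]
      _ ≤ (L : ℝ) ^ k * (r * thr) :=
          mul_le_mul_of_nonneg_right (by exact_mod_cast hDcard) (by positivity)
  push_cast at hup2 key
  have hkey2 := key.trans hup2
  have hLr : (1 : ℝ) ≤ L := by exact_mod_cast hL1
  obtain ⟨M, hMd⟩ : ∃ M : ℝ, M =
    (min 1 ((L : ℝ) / Real.log X)) ^ ((k + 1) ^ j * s - (k + 1)) := ⟨_, rfl⟩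
  have hM0 : 0 < M := by
    rw [hMd]
    have : 0 < min 1 ((L : ℝ) / Real.log X) := lt_min one_pos (by positivity)
    positivity
  have hmono : (L : ℝ) / Real.log X ≤ L / Real.log x :=
    div_le_div_of_nonneg_left (by positivity) hq3 hq4
  have h1 : M ≤ (min 1 ((L : ℝ) / Real.log x)) ^ ((k + 1) ^ j * s - (k + 1)) := by
    rw [hMd]
    apply pow_le_pow_left₀ (le_min zero_le_one (by positivity))
    exact min_le_min le_rfl hmono
  have h2 : ((L : ℝ) / Real.log X) ^ (k + 1) ≤ ((L : ℝ) / Real.log x) ^ (k + 1) :=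
    pow_le_pow_left₀ (by positivity) hmono _
  have hx0 : 0 ≤ x := by
    rw [hxd]
    positivity
  have h3 : c1 * x * ((L : ℝ) / Real.log X) ^ (k + 1) * M ≤
      c1 * x * ((L : ℝ) / Real.log x) ^ (k + 1) *
        (min 1 ((L : ℝ) / Real.log x)) ^ ((k + 1) ^ j * s - (k + 1)) := by
    apply mul_le_mul _ h1 hM0.le (by positivity)
    exact mul_le_mul_of_nonneg_left h2 (by positivity)
  have h4 := h3.trans hkey2
  rw [hthr, ← hMd, hxd] at h4
  have e2 : Real.log X ≠ 0 := hlX.ne'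
  have e1 : T1 ≠ 0 := by positivity
  have e3 : (r : ℝ) ≠ 0 := by positivity
  have h5 : c1 * ((X : ℝ) / (2 * T1)) * ((L : ℝ) / Real.log X) ^ (k + 1) * M =
      (4 * (L : ℝ)) * ((L : ℝ) ^ k *
        (r * (c1 / (8 * T1 * r) * M * (X / Real.log X ^ (k + 1))))) := by
    rw [div_pow]
    field_simp
    ring
  have h7 : 0 < (L : ℝ) ^ k *
      (r * (c1 / (8 * T1 * r) * M * (X / Real.log X ^ (k + 1)))) := by positivity
  rw [h5] at h4
  have h8 := le_of_mul_le_mul_right h4 h7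
  linarith

end Pool.Agent.H61.HB
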