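import Pool.Agent.H61.HB.Def

/-!
# [H61 HB HITG] Trees with coloured nodes, and transversals with prescribed empty gaps

`IsTreeG m s R`: at every inner node there is a colour `g` such that all transversals of the `m` subtrees have property `R g`.
If `R g x` implies that `pos ∘ x` is strictly increasing, a set which meets more than `(m-1)^j` leaves contains a transversal
of a node of colour `g` such that no element of the set lies between the `i`-th and the `(i+1)`-st point for all `i` with
`G g i` (no two adjacent `i`).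
-/

namespace Pool.Agent.H61.HB

open Finset

/-- trees with coloured nodes -/
def IsTreeG {X Γ : Type} (m s : ℕ) (R : Γ → (Fin m → X) → Prop) :
    (j : ℕ) → (Lf m j × Fin s → X) → Prop
  | 0, _ => True
  | j + 1, c => (∀ i : Fin m, IsTreeG m s R j (fun q => c ((i, q.1), q.2))) ∧
      ∃ g, ∀ φ : Fin m → Lf m j × Fin s, R g (fun i => c ((i, (φ i).1), (φ i).2))

open Classical in
theorem hitG {X Γ : Type} (m s : ℕ) (R : Γ → (Fin m → X) → Prop) (pos : X → ℕ)
    (hR : ∀ g x, R g x → StrictMono (fun i => pos (x i))) (F : X → Prop) (G : Γ → ℕ → Prop)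
    (hG : ∀ g t, G g t → ¬ G g (t + 1)) (j : ℕ) :
    ∀ c : Lf m j × Fin s → X, IsTreeG m s R j c →
      (m - 1) ^ j < (univ.filter (fun l : Lf m j => ∃ t, F (c (l, t)))).card →
      ∃ (g : Γ) (φ : Fin m → Lf m j × Fin s), Function.Injective φ ∧ R g (fun i => c (φ i)) ∧
        (∀ i, F (c (φ i))) ∧ ∀ i i' : Fin m, (i' : ℕ) = i + 1 → G g i → ∀ q, F (c q) →
          ¬ (pos (c (φ i)) < pos (c q) ∧ pos (c q) < pos (c (φ i'))) := by
  induction j with
  | zero =>
    intro c _ hcard
    exfalso
    have h1 : (univ.filter (fun l : Lf m 0 => ∃ t, F (c (l, t)))).card ≤ 1 := by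
      refine (Finset.card_le_univ _).trans ?_
      rw [card_Lf, pow_zero]
    rw [pow_zero] at hcard
    omega
  | succ j ih =>
    intro c hc hcard
    obtain ⟨hc1, g, hc2⟩ := hc
    have hsum : (univ.filter (fun l : Lf m (j + 1) => ∃ t, F (c (l, t)))).card =
        ∑ i : Fin m, (univ.filter (fun l : Lf m j => ∃ t, F (c ((i, l), t)))).card := by
      simp only [Finset.card_filter]
      exact Fintype.sum_prod_type (f := fun l : Fin m × Lf m j =>
        if ∃ t, F (c (l, t)) then (1 : ℕ) else 0)
    -- separation of the subtrees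
    have hsep : ∀ (i i' : Fin m), i < i' → ∀ q q' : Lf m j × Fin s,
        pos (c ((i, q.1), q.2)) < pos (c ((i', q'.1), q'.2)) := by
      intro i i' hii q q'
      have h1 := hR g _ (hc2 (fun a => if a = i then q else q')) hii
      simp only [if_pos, if_neg hii.ne'] at h1
      exact h1
    by_cases h1 : ∃ i : Fin m, (m - 1) ^ j <
        (univ.filter (fun l : Lf m j => ∃ t, F (c ((i, l), t)))).card
    · obtain ⟨i, hi⟩ := h1
      obtain ⟨g', φ, hφ1, hφ2, hφ3, hφ4⟩ := ih (fun q => c ((i, q.1), q.2)) (hc1 i) hi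
      refine ⟨g', fun a => (((i, (φ a).1) : Fin m × Lf m j), (φ a).2), fun a b hab => hφ1 ?_,
        hφ2, hφ3, ?_⟩
      · have h2 := Prod.mk.inj hab
        have h3 := Prod.mk.inj h2.1
        exact Prod.ext h3.2 h2.2
      · rintro a a' haa hGa ⟨⟨b, l⟩, t⟩ hF ⟨h3, h4⟩
        rcases lt_trichotomy b i with hb | hb | hb
        · exact absurd h3 (not_lt.2 (hsep b i hb (l, t) (φ a)).le)
        · subst hb
          exact hφ4 a a' haa hGa (l, t) hF ⟨h3, h4⟩
        · exact absurd h4 (not_lt.2 (hsep i b hb (φ a') (l, t)).le)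
    · push Not at h1
      by_cases h2 : ∃ i : Fin m, (univ.filter (fun l : Lf m j => ∃ t, F (c ((i, l), t)))).card = 0
      · exfalso
        obtain ⟨i, hi⟩ := h2
        have h3 : ∑ i : Fin m, (univ.filter (fun l : Lf m j => ∃ t, F (c ((i, l), t)))).card ≤
            (m - 1) ^ (j + 1) := by
          rw [← Finset.add_sum_erase _ _ (Finset.mem_univ i), hi, zero_add]
          refine (Finset.sum_le_card_nsmul _ _ ((m - 1) ^ j) fun a _ => h1 a).trans ?_
          rw [Finset.card_erase_of_mem (Finset.mem_univ i), Finset.card_univ, Fintype.card_fin,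
            smul_eq_mul, pow_succ, mul_comm]
        rw [hsum] at hcard
        omega
      · push Not at h2
        have h3 : ∀ i : Fin m, (univ.filter (fun q : Lf m j × Fin s =>
            F (c ((i, q.1), q.2)))).Nonempty := by
          intro i
          obtain ⟨l, hl⟩ := Finset.card_ne_zero.1 (h2 i)
          obtain ⟨t, ht⟩ := (Finset.mem_filter.1 hl).2
          exact ⟨(l, t), mem_filter.2 ⟨mem_univ _, ht⟩⟩
        have h4 : ∀ i : Fin m, ∃ q : Lf m j × Fin s, F (c ((i, q.1), q.2)) ∧
            (G g i → ∀ q' : Lf m j × Fin s, F (c ((i, q'.1), q'.2)) →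
              pos (c ((i, q'.1), q'.2)) ≤ pos (c ((i, q.1), q.2))) ∧
            (¬ G g i → ∀ q' : Lf m j × Fin s, F (c ((i, q'.1), q'.2)) →
              pos (c ((i, q.1), q.2)) ≤ pos (c ((i, q'.1), q'.2))) := by
          intro i
          by_cases hgi : G g i
          · obtain ⟨q, hq, hq2⟩ := exists_max_image _
              (fun q : Lf m j × Fin s => pos (c ((i, q.1), q.2))) (h3 i)
            refine ⟨q, (mem_filter.1 hq).2, fun _ q' hq' =>
              hq2 q' (mem_filter.2 ⟨mem_univ _, hq'⟩), fun h => absurd hgi h⟩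
          · obtain ⟨q, hq, hq2⟩ := exists_min_image _
              (fun q : Lf m j × Fin s => pos (c ((i, q.1), q.2))) (h3 i)
            refine ⟨q, (mem_filter.1 hq).2, fun h => absurd h hgi, fun _ q' hq' =>
              hq2 q' (mem_filter.2 ⟨mem_univ _, hq'⟩)⟩
        choose q hq1 hq2 hq3 using h4
        refine ⟨g, fun a => (((a, (q a).1) : Fin m × Lf m j), (q a).2), fun a b hab => ?_,
          hc2 q, hq1, ?_⟩
        · exact (Prod.mk.inj (Prod.mk.inj hab).1).1
        · rintro a a' haa hGa ⟨⟨b, l⟩, t⟩ hF ⟨h5, h6⟩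
          rcases lt_trichotomy b a with hb | hb | hb
          · exact absurd h5 (not_lt.2 (hsep b a hb (l, t) (q a)).le)
          · subst hb
            exact absurd h5 (not_lt.2 (hq2 b hGa (l, t) hF))
          · have hb2 : a' ≤ b := by
              rw [Fin.le_def]
              rw [Fin.lt_def] at hb
              omega
            rcases hb2.eq_or_lt with hb3 | hb3
            · subst hb3
              have hng : ¬ G g a' := by
                rw [haa]
                exact hG g a hGa
              exact absurd h6 (not_lt.2 (hq3 a' hng (l, t) hF))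
            · exact absurd h6 (not_lt.2 (hsep a' b hb3 (q a') (l, t)).le)

end Pool.Agent.H61.HB
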