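import Pool.Agent.H61.HB.Cor
import Pool.Agent.H61.HB.Prd
import Pool.Agent.H61.HB.HitG

/-!
# [H61 HB TRCG] Dense sets contain a positive proportion of all trees of bad tuples with coloured nodes

Same proof as `Trc.lean`; at every node the most frequent colour is chosen.
-/

namespace Pool.Agent.H61.HB

open Finset

/-- a modulus and a family of bad sets -/
structure Sit (Γ : Type) (k : ℕ) where
  P : ℕ
  hP : NeZero P
  Bad : Γ → (Fin k → ZMod P) → Prop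

theorem exists_of_filter {α : Type} {i1 : Fintype α} {p : α → Prop} {i2 : DecidablePred p} {t : ℝ}
    (h : t ≤ ((univ.filter p).card : ℝ)) : ∃ F : Finset α, (∀ f ∈ F, p f) ∧ t ≤ (F.card : ℝ) :=
  ⟨univ.filter p, fun _ hf => (mem_filter.1 hf).2, h⟩

theorem le_filter {α : Type} {i1 : Fintype α} {p : α → Prop} {i2 : DecidablePred p} {t : ℝ}
    (h : ∃ F : Finset α, (∀ f ∈ F, p f) ∧ t ≤ (F.card : ℝ)) : t ≤ ((univ.filter p).card : ℝ) := by
  obtain ⟨F, hF, hF2⟩ := h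
  refine hF2.trans (Nat.cast_le.2 (card_le_card fun x hx => ?_))
  exact mem_filter.2 ⟨mem_univ _, hF x hx⟩

instance instNeZeroSit {Γ : Type} {k : ℕ} (θ : Sit Γ k) : NeZero θ.P := θ.hP

open Classical in
theorem trcG {Γ : Type} [Fintype Γ] (k : ℕ) (hk : 1 ≤ k) (ε : ℝ) (hε : 0 < ε) (s : ℕ) (j : ℕ) :
    ∀ δ : ℝ, 0 < δ → ∃ (D : ℕ) (γ : ℝ), 0 < γ ∧ ∀ (P : ℕ) [NeZero P], D ≤ P → Odd P →
      ∀ Bad : Γ → (Fin k → ZMod P) → Prop, DB k ε D (fun a => ∃ g, Bad g a) →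
      ∀ S : Finset (ZMod P), δ * P ≤ (S.card : ℝ) →
        γ * (P : ℝ) ^ ((k + 1) ^ j * s) ≤ ((univ.filter (fun c : Lf (k + 1) j × Fin s → ZMod P =>
          (∀ q, c q ∈ S) ∧ IsTreeG (k + 1) s (fun g x => Bad g (dif x)) j c)).card : ℝ) := by
  induction j with
  | zero =>
    intro δ hδ
    refine ⟨0, δ ^ s, by positivity, fun P _ _ _ Bad _ S hS => ?_⟩
    have h2 : (Fintype.piFinset (fun _ : Lf (k + 1) 0 × Fin s => S)).card = S.card ^ s := by
      rw [Fintype.card_piFinset, prod_const, card_univ, Fintype.card_prod, card_Lf,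
        Fintype.card_fin, pow_zero, one_mul]
    refine le_filter ⟨Fintype.piFinset (fun _ : Lf (k + 1) 0 × Fin s => S), fun c hc =>
      ⟨fun q => Fintype.mem_piFinset.1 hc q, trivial⟩, ?_⟩
    rw [h2, pow_zero, one_mul, ← mul_pow]
    push_cast
    exact pow_le_pow_left₀ (by positivity) hS s
  | succ j ih =>
    intro δ hδ
    obtain ⟨D₁, γ₁, hγ₁, hcor⟩ := cor k hk ε δ hε hδ
    have hGpos : (0 : ℝ) < (Fintype.card Γ : ℝ) + 1 := by positivity
    obtain ⟨D₂, c₂, hc₂, hprd⟩ := prd (Θ := Sit Γ k) (fun θ => ZMod θ.P)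
      (ι := Lf (k + 1) j × Fin s)
      (fun θ c => IsTreeG (k + 1) s (fun g x => θ.Bad g (dif x)) j c)
      (fun θ D => D ≤ θ.P ∧ Odd θ.P ∧ DB k ε D (fun a => ∃ g, θ.Bad g a))
      (fun θ D D' hDD h => ⟨hDD.trans h.1, h.2.1, h.2.2.mono hDD⟩)
      (by
        intro δ' hδ'
        obtain ⟨D, γ, hγ, h⟩ := ih δ' hδ'
        refine ⟨D, γ, hγ, fun θ hθ S hS => ?_⟩
        rw [ZMod.card] at hS ⊢
        have h1 := h θ.P hθ.1 hθ.2.1 θ.Bad hθ.2.2 S hS
        rw [Fintype.card_prod, card_Lf, Fintype.card_fin]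
        obtain ⟨F, hF, hF2⟩ := exists_of_filter h1
        exact le_filter ⟨F, fun c hc => (hF c hc).symm, hF2⟩) (k + 1) (γ₁ / ((Fintype.card Γ : ℝ) + 1)) (by positivity)
    refine ⟨max D₁ D₂, c₂, hc₂, fun P hP hDP hodd Bad hDB S hS => ?_⟩
    obtain ⟨E, hE, hEc⟩ : ∃ E : Finset (Fin (k + 1) → ZMod P), (∀ x ∈ E,
        (∀ j, x j ∈ S) ∧ ∃ g, Bad g (dif x)) ∧ γ₁ * (P : ℝ) ^ (k + 1) ≤ (E.card : ℝ) :=
      exists_of_filter
        (hcor P ((le_max_left _ _).trans hDP) hodd _ (hDB.mono (le_max_left _ _)) S hS)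
    obtain ⟨Eg, hEg⟩ : ∃ Eg : Γ → Finset (Fin (k + 1) → ZMod P), ∀ g x, x ∈ Eg g ↔
        ((∀ j, x j ∈ S) ∧ Bad g (dif x)) :=
      ⟨fun g => univ.filter (fun x => (∀ j, x j ∈ S) ∧ Bad g (dif x)), fun g x => by
        rw [mem_filter]
        exact ⟨fun h => h.2, fun h => ⟨mem_univ _, h⟩⟩⟩
    -- the most frequent colour
    obtain ⟨g, hg⟩ : ∃ g : Γ, γ₁ / ((Fintype.card Γ : ℝ) + 1) * (P : ℝ) ^ (k + 1) ≤
        ((Eg g).card : ℝ) := by
      by_contra hcon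
      push Not at hcon
      have h1 : E ⊆ univ.biUnion Eg := by
        intro x hx
        obtain ⟨h2, g, h3⟩ := hE x hx
        rw [mem_biUnion]
        exact ⟨g, mem_univ _, (hEg g x).2 ⟨h2, h3⟩⟩
      have h2 : (E.card : ℝ) ≤ ∑ g : Γ, ((Eg g).card : ℝ) := by
        exact_mod_cast (card_le_card h1).trans card_biUnion_le
      have h3 : ∑ g : Γ, ((Eg g).card : ℝ) ≤
          ∑ _g : Γ, γ₁ / ((Fintype.card Γ : ℝ) + 1) * (P : ℝ) ^ (k + 1) :=
        sum_le_sum fun g _ => (hcon g).le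
      rw [sum_const, nsmul_eq_mul, card_univ] at h3
      have hPpos : (0 : ℝ) < P := by
        have := hP.out
        exact_mod_cast Nat.pos_of_ne_zero this
      have h5 : (0 : ℝ) < γ₁ * (P : ℝ) ^ (k + 1) := by positivity
      have h6 : (Fintype.card Γ : ℝ) * (γ₁ / ((Fintype.card Γ : ℝ) + 1) * (P : ℝ) ^ (k + 1)) =
          (Fintype.card Γ : ℝ) / ((Fintype.card Γ : ℝ) + 1) * (γ₁ * (P : ℝ) ^ (k + 1)) := by
        field_simp
      have h7 : (Fintype.card Γ : ℝ) / ((Fintype.card Γ : ℝ) + 1) < 1 := by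
        rw [div_lt_one hGpos]
        linarith
      have h8 := mul_lt_mul_of_pos_right h7 h5
      rw [h6] at h3
      linarith
    obtain ⟨FF, hFF, hFFc⟩ : ∃ FF : Finset (Fin (k + 1) → Lf (k + 1) j × Fin s → ZMod P),
        (∀ f ∈ FF, (∀ i, IsTreeG (k + 1) s (fun g x => Bad g (dif x)) j (f i)) ∧
          ∀ φ : Fin (k + 1) → Lf (k + 1) j × Fin s, (fun i => f i (φ i)) ∈ Eg g) ∧
        c₂ * (P : ℝ) ^ ((k + 1) ^ (j + 1) * s) ≤ (FF.card : ℝ) := by
      have h1 := hprd ⟨P, hP, Bad⟩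
        ⟨(le_max_right _ _).trans hDP, hodd, hDB.mono (le_max_right _ _)⟩ (Eg g)
        (by rw [ZMod.card]; exact hg)
      rw [ZMod.card, Fintype.card_prod, card_Lf, Fintype.card_fin] at h1
      have e1 : (k + 1) * ((k + 1) ^ j * s) = (k + 1) ^ (j + 1) * s := by
        rw [pow_succ]
        ring
      rw [e1] at h1
      exact exists_of_filter h1
    obtain ⟨Ψ, hΨ⟩ : ∃ Ψ : (Fin (k + 1) → Lf (k + 1) j × Fin s → ZMod P) →
        (Lf (k + 1) (j + 1) × Fin s → ZMod P), ∀ f i q,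
          Ψ f (((i, q.1) : Fin (k + 1) × Lf (k + 1) j), q.2) = f i q :=
      ⟨fun f q => f (Prod.fst (α := Fin (k + 1)) (β := Lf (k + 1) j) q.1)
        (Prod.snd (α := Fin (k + 1)) (β := Lf (k + 1) j) q.1, q.2), fun f i q => rfl⟩
    have hΨi : Function.Injective Ψ := by
      intro f f' hff
      funext i q
      rw [← hΨ f, ← hΨ f', hff]
    refine le_filter ⟨FF.map ⟨Ψ, hΨi⟩, ?_, by rw [card_map]; exact hFFc⟩
    intro c hc
    obtain ⟨f, hf, rfl⟩ := mem_map.1 hc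
    obtain ⟨hf1, hf2⟩ := hFF f hf
    refine ⟨?_, ?_, g, ?_⟩
    · rintro ⟨⟨i, l⟩, t⟩
      have h1 := ((hEg g _).1 (hf2 fun _ => (l, t))).1 i
      have h2 : (⟨Ψ, hΨi⟩ : _ ↪ _) f (((i, l) : Fin (k + 1) × Lf (k + 1) j), t) = f i (l, t) :=
        hΨ f i (l, t)
      rw [h2]
      exact h1
    · intro i
      have h2 : (fun q : Lf (k + 1) j × Fin s => (⟨Ψ, hΨi⟩ : _ ↪ _) f
          (((i, q.1) : Fin (k + 1) × Lf (k + 1) j), q.2)) = f i := funext fun q => hΨ f i q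
      rw [h2]
      exact hf1 i
    · intro φ
      have h2 : (fun i : Fin (k + 1) => (⟨Ψ, hΨi⟩ : _ ↪ _) f
          (((i, (φ i).1) : Fin (k + 1) × Lf (k + 1) j), (φ i).2)) = fun i => f i (φ i) :=
        funext fun i => hΨ f i (φ i)
      rw [h2]
      exact ((hEg g _).1 (hf2 φ)).2

end Pool.Agent.H61.HB
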