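import Pool.Agent.H61.HB.Fin
import Pool.Agent.H61.HB.TrcG

/-!
# [H61 HB FING] THEOREM H with consecutive primes: assembly

Almost all increasing `k`-tuples of a Bohr set of bounded complexity in `[1, L]` occur as differences of primes of one colour
with the right order of magnitude, at every scale `L ≤ (log X)^A`; for every set `G` of gaps without two adjacent elements
the gaps in `G` may be required to be free of primes of this colour if `L ≤ λ log X`.
-/

namespace Pool.Agent.H61.HB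

open Finset Filter Pool.Agent.H61.UN Pool.Agent.H61.UL Pool.Agent.H92.MM Pool.Agent.H61.GD

/-- `N + y_0, …, N + y_k` are primes of colour `i`; if `cons` then the gaps in `G` contain no prime of colour `i` -/
def Pg {k r : ℕ} (col : ℕ → Fin r) (cons : Prop) (G : Finset (Fin k)) (i : Fin r)
    (y : Fin (k + 1) → ℕ) (N : ℕ) : Prop :=
  (∀ j, (N + y j).Prime ∧ col (N + y j) = i) ∧ (cons → ∀ t ∈ G, ∀ z : ℕ, y t.castSucc < z →
    z < y t.succ → ¬ ((N + z).Prime ∧ col (N + z) = i))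

open Classical in
/-- number of `N ≤ X` with the property `Pg` for `0, a_1, …, a_k` -/
noncomputable def cntG {k r : ℕ} (col : ℕ → Fin r) (cons : Prop) (G : Finset (Fin k)) (i : Fin r)
    (a : Fin k → ℕ) (X : ℕ) : ℕ :=
  ((Icc 1 X).filter (fun N => Pg col cons G i (Fin.cons 0 a) N)).card

/-- sets without adjacent elements -/
def NA (k : ℕ) : Type := {G : Finset (Fin k) // ∀ t ∈ G, ∀ t' ∈ G, (t : ℕ) + 1 ≠ t'}

noncomputable instance instFintypeNA (k : ℕ) : Fintype (NA k) := by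
  classical
  unfold NA
  infer_instance

open Classical in
/-- tuples of sites with differences in `D` and the property `Pg` at `N` -/
noncomputable def GG {k r : ℕ} (col : ℕ → Fin r) (cons : Prop) (L : ℕ) (G : Finset (Fin k))
    (i : Fin r) (D : Finset (Fin k → ℕ)) (N : ℕ) : Finset (Fin (k + 1) → ℕ) :=
  (Fintype.piFinset (fun _ : Fin (k + 1) => range (L + 1))).filter
    (fun y => (∀ j, y 0 ≤ y j) ∧ (fun j : Fin k => y j.succ - y 0) ∈ D ∧ Pg col cons G i y N)

theorem sum_GG {k r : ℕ} (col : ℕ → Fin r) (cons : Prop) (L : ℕ) (G : Finset (Fin k))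
    (i : Fin r) (D : Finset (Fin k → ℕ)) (S : Finset ℕ) (Y : ℕ) (hS : ∀ N ∈ S, 1 ≤ N ∧ N ≤ Y) :
    ∑ N ∈ S, (GG col cons L G i D N).card ≤ (L + 1) * ∑ a ∈ D, cntG col cons G i a (Y + L) := by
  classical
  have h1 : ∑ N ∈ S, (GG col cons L G i D N).card = (S.sigma (fun N => GG col cons L G i D N)).card := by
    rw [card_sigma]
  have h2 : (range (L + 1) ×ˢ (D.sigma (fun a => (Icc 1 (Y + L)).filter
      (fun N => Pg col cons G i (Fin.cons 0 a) N)))).card =
      (L + 1) * ∑ a ∈ D, cntG col cons G i a (Y + L) := by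
    rw [card_product, card_range, card_sigma]
    rfl
  rw [h1, ← h2]
  refine card_le_card_of_injOn
    (fun z => (z.2 0, ⟨fun j : Fin k => z.2 j.succ - z.2 0, z.1 + z.2 0⟩)) ?_ ?_
  · rintro ⟨N, y⟩ hz
    rw [mem_coe, mem_sigma] at hz
    obtain ⟨hN, hy⟩ := hz
    unfold GG at hy
    rw [mem_filter, Fintype.mem_piFinset] at hy
    obtain ⟨hy1, hy2, hy3, hy4⟩ := hy
    rw [mem_coe, mem_product, mem_sigma, mem_filter, mem_Icc]
    have h3 := hS N hN
    have h4 := hy1 0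
    rw [mem_range] at h4
    simp only at hN hy1 hy2 hy3 hy4 h3 h4 ⊢
    have hc : ∀ j : Fin (k + 1), (Fin.cons 0 (fun j : Fin k => y j.succ - y 0) : Fin (k + 1) → ℕ) j =
        y j - y 0 := by
      intro j
      refine Fin.cases ?_ (fun j => ?_) j
      · rw [Fin.cons_zero, Nat.sub_self]
      · rw [Fin.cons_succ]
    refine ⟨hy1 0, hy3, ⟨by omega, by omega⟩, ?_, ?_⟩
    · intro j
      rw [hc]
      have e : N + y 0 + (y j - y 0) = N + y j := by
        have := hy2 j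
        omega
      rw [e]
      exact hy4.1 j
    · intro hcons t ht z hz1 hz2
      rw [hc] at hz1 hz2
      have h5 := hy2 t.castSucc
      have h6 := hy2 t.succ
      have h7 := hy4.2 hcons t ht (y 0 + z) (by omega) (by omega)
      rwa [← add_assoc] at h7
  · rintro ⟨N, y⟩ hz ⟨N', y'⟩ hz' h
    rw [mem_coe, mem_sigma] at hz hz'
    obtain ⟨-, hy⟩ := hz
    obtain ⟨-, hy'⟩ := hz'
    unfold GG at hy hy'
    rw [mem_filter] at hy hy'
    simp only [Prod.mk.injEq, Sigma.mk.injEq, heq_eq_eq] at h hy hy'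
    obtain ⟨h4, h5, h6⟩ := h
    have h7 : N = N' := by omega
    have h8 : y = y' := by
      funext j
      refine Fin.cases ?_ (fun j => ?_) j
      · exact h4
      · have h9 := congrFun h5 j
        have h10 := hy.2.1 j.succ
        have h11 := hy'.2.1 j.succ
        omega
    rw [h7, h8]

theorem isTreeG_and {X Γ : Type} (m s : ℕ) (R : Γ → (Fin m → X) → Prop) (V : X → Prop) (j : ℕ) :
    ∀ c : Lf m j × Fin s → X, IsTreeG m s R j c → (∀ q, V (c q)) →
      IsTreeG m s (fun g x => R g x ∧ ∀ i, V (x i)) j c := by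
  induction j with
  | zero => exact fun _ _ _ => trivial
  | succ j ih =>
    rintro c ⟨h1, g, h2⟩ hV
    exact ⟨fun i => ih _ (h1 i) fun q => hV _, g, fun φ => ⟨h2 φ, fun i => hV _⟩⟩

theorem card_le_of_map {α β : Type} {p : α → Prop} {q : β → Prop} {i1 : DecidablePred p}
    {i2 : DecidablePred q} (A : Finset α) (B : Finset β) (Φ : β → α)
    (h : ∀ a ∈ A, p a → ∃ b ∈ B, q b ∧ Φ b = a) : (A.filter p).card ≤ (B.filter q).card := by
  classical
  have h1 : A.filter p ⊆ (B.filter q).image Φ := by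
    intro a ha
    rw [mem_filter] at ha
    obtain ⟨b, hb, hq, hΦ⟩ := h a ha.1 ha.2
    exact mem_image.2 ⟨b, mem_filter.2 ⟨hb, hq⟩, hΦ⟩
  exact (card_le_card h1).trans card_image_le

open Classical in
theorem thmG (k r : ℕ) (hk : 1 ≤ k) (hr : 1 ≤ r) (ε : ℝ) (hε : 0 < ε) :
    ∃ (D K L0 : ℕ) (κ : ℝ), 0 < κ ∧ ∀ A : ℝ, 0 < A → ∃ (c lam : ℝ) (X0 : ℕ), 0 < c ∧ 0 < lam ∧
      ∀ X : ℕ, X0 ≤ X → ∀ L : ℕ, L0 ≤ L → (L : ℝ) ≤ Real.log X ^ A → ∀ col : ℕ → Fin r,
        ∃ α : Fin D → ℝ, κ * L ≤ ((BS D α L).card : ℝ) ∧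
          (((Fintype.piFinset fun _ : Fin k => BS D α L).filter (fun a => StrictMono a ∧
            ∃ g : NA k, ∀ i, (cntG col ((L : ℝ) ≤ lam * Real.log X) g.1 i a X : ℝ) <
              c * (min 1 ((L : ℝ) / Real.log X)) ^ K * (X / Real.log X ^ (k + 1)))).card : ℝ) ≤
            ε * ((BS D α L).card : ℝ) ^ k := by
  have hrr : (1 : ℝ) ≤ r := by exact_mod_cast hr
  have hg0 : Nonempty (NA k) := ⟨⟨∅, by simp⟩⟩
  obtain ⟨nΓ, hnΓ⟩ : ∃ n : ℕ, n = Fintype.card (NA k) := ⟨_, rfl⟩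
  have hnΓ1 : (1 : ℝ) ≤ nΓ := by
    have : 1 ≤ nΓ := by
      rw [hnΓ]
      exact Fintype.card_pos
    exact_mod_cast this
  obtain ⟨j, hj1, hj⟩ := exists_j k r hr
  have hM : k + 1 ≤ (k + 1) ^ j := by
    calc k + 1 = (k + 1) ^ 1 := (pow_one _).symm
      _ ≤ (k + 1) ^ j := Nat.pow_le_pow_right (by omega) hj1
  obtain ⟨s, hs, hmain⟩ := main_B blkU (1 / 100) (by norm_num) le_rfl ((k + 1) ^ j) k hM
  obtain ⟨D₁, γ, hγ, htrc⟩ := trcG (Γ := NA k) k hk ε hε s j (1 / 4) (by norm_num)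
  obtain ⟨δ, L₂, hδ, hδ1, hbox⟩ := box (k + 1) j s (by omega) hs γ hγ
  obtain ⟨Q, hQ⟩ : ∃ Q : ℕ, Q = ((k + 1) ^ j * s).factorial := ⟨_, rfl⟩
  rw [← hQ] at hbox
  have hQ1 : 1 ≤ Q := by
    rw [hQ]
    exact Nat.factorial_pos _
  have hQr : (1 : ℝ) ≤ Q := by exact_mod_cast hQ1
  obtain ⟨D', hcnv⟩ := cnv Q D₁ hQ1
  obtain ⟨W, hW⟩ : ∃ W : ℕ, W = 2 ^ (D₁ * D₁) := ⟨_, rfl⟩
  have hW1 : 1 ≤ W := by
    rw [hW]
    exact Nat.one_le_two_pow
  have hWr : (1 : ℝ) ≤ W := by exact_mod_cast hW1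
  refine ⟨D', (k + 1) ^ j * s - (k + 1), max L₂ (Q * (D₁ + W + 1)), 1 / (3 * Q * W),
    by positivity, fun A hA => ?_⟩
  obtain ⟨c1, T1, lam1, hc1, hT1, hlam1, hev⟩ := hmain (A + 1) δ (by linarith) hδ
  have hx : Tendsto (fun X : ℕ => (X : ℝ) / (2 * T1)) atTop atTop :=
    (tendsto_natCast_atTop_atTop).atTop_div_const (by positivity)
  have hev1 := hx.eventually hev
  have hev2 := (tendsto_natCast_atTop_atTop (R := ℝ)).eventually (ev_two A T1 hA hT1 1)
  obtain ⟨X0, hX0⟩ := eventually_atTop.1 (hev1.and hev2)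
  refine ⟨c1 / (8 * T1 * r * nΓ), lam1 / 2, max X0 1, by positivity, by positivity,
    fun X hX L hL hLA col => ?_⟩
  obtain ⟨hE1, hE2⟩ := hX0 X ((le_max_left _ _).trans hX)
  have hXpos : (0 : ℝ) < X := by
    have : 1 ≤ X := (le_max_right _ _).trans hX
    exact_mod_cast this
  obtain ⟨hq1, hq2, hq3, hq4, hq5⟩ := hE2 L (Nat.cast_nonneg _) hLA
  obtain ⟨x, hxd⟩ : ∃ x : ℝ, x = (X : ℝ) / (2 * T1) := ⟨_, rfl⟩
  rw [← hxd] at hE1 hq1 hq2 hq3 hq4
  rw [one_mul] at hq1 hq5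
  -- the size of `L`
  have hL₂ : L₂ ≤ L := (le_max_left _ _).trans hL
  have hLQ : Q * (D₁ + W + 1) ≤ L := (le_max_right _ _).trans hL
  obtain ⟨L', hL'⟩ : ∃ L' : ℕ, L' = L / Q := ⟨_, rfl⟩
  have hL'1 : D₁ + W + 1 ≤ L' := by
    rw [hL']
    exact (Nat.le_div_iff_mul_le hQ1).2 (by rwa [mul_comm])
  have hQL' : Q * L' ≤ L := by
    rw [hL']
    exact Nat.mul_div_le L Q
  have hLlt : L < Q * (L' + 1) := by
    rw [hL', mul_comm]
    exact Nat.lt_mul_of_div_lt (Nat.lt_succ_self _) hQ1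
  have hL1 : 1 ≤ L := by
    have : 1 * 1 ≤ Q * L' := Nat.mul_le_mul hQ1 (by omega)
    omega
  obtain ⟨cons, hcons⟩ : ∃ cons : Prop, cons ↔ (L : ℝ) ≤ lam1 / 2 * Real.log X := ⟨_, Iff.rfl⟩
  have hcons1 : cons → (L : ℝ) ≤ lam1 * Real.log x := by
    intro h
    have h1 := hcons.1 h
    have h2 : lam1 / 2 * Real.log X ≤ lam1 / 2 * (2 * Real.log x) :=
      mul_le_mul_of_nonneg_left hq2 (by positivity)
    linarith
  obtain ⟨thr, hthr⟩ : ∃ thr : ℝ, thr = c1 / (8 * T1 * r * nΓ) *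
    (min 1 ((L : ℝ) / Real.log X)) ^ ((k + 1) ^ j * s - (k + 1)) *
      (X / Real.log X ^ (k + 1)) := ⟨_, rfl⟩
  rw [← hthr, ← propext hcons]
  by_contra hcon
  push Not at hcon
  -- the bad differences
  have hP1 : D₁ ≤ 2 * L' + 1 := by omega
  have hPodd : Odd (2 * L' + 1) := ⟨L', rfl⟩
  obtain ⟨Bad, hBad⟩ : ∃ Bad : NA k → (Fin k → ZMod (2 * L' + 1)) → Prop, ∀ g a, Bad g a ↔
      ((∀ j, 1 ≤ (a j).val ∧ (a j).val ≤ L') ∧ StrictMono (fun j => (a j).val) ∧
        ∀ i, (cntG col cons g.1 i (fun j => Q * (a j).val) X : ℝ) < thr) :=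
    ⟨_, fun _ _ => Iff.rfl⟩
  have hDB : DB k ε D₁ (fun a => ∃ g, Bad g a) := by
    intro Λ n hΛ hn
    obtain ⟨α, hα⟩ := hcnv L (2 * L' + 1) (by rw [hL']) Λ n hΛ hn
    have hBS : BS D' α L = (bp Λ n).image (fun b => Q * b.val) := by
      subst hL'
      exact BS_eq hQ1 Λ n α hα
    have hBSc : (BS D' α L).card = (bp Λ n).card := by
      rw [hBS]
      apply card_image_of_injective
      intro b b' h
      exact ZMod.val_injective _ (Nat.eq_of_mul_eq_mul_left hQ1 h)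
    have hexp : 2 ^ (n * Λ.card) ≤ W := by
      rw [hW]
      exact Nat.pow_le_pow_right (by norm_num) (Nat.mul_le_mul hn hΛ)
    have hb1 := bp_card hPodd Λ n (by omega)
    have hb2 : (L : ℝ) ≤ 3 * Q * W * ((bp Λ n).card : ℝ) := by
      have h1 : L ≤ Q * (3 * W * (bp Λ n).card) := by
        calc L ≤ Q * (L' + 1) := hLlt.le
          _ ≤ Q * (2 * L' + 1) := Nat.mul_le_mul_left _ (by omega)
          _ ≤ Q * (3 * 2 ^ (n * Λ.card) * (bp Λ n).card) := Nat.mul_le_mul_left _ hb1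
          _ ≤ Q * (3 * W * (bp Λ n).card) :=
            Nat.mul_le_mul_left _ (Nat.mul_le_mul_right _ (Nat.mul_le_mul_left _ hexp))
      have h2 : (L : ℝ) ≤ ((Q * (3 * W * (bp Λ n).card) : ℕ) : ℝ) := by exact_mod_cast h1
      refine h2.trans (le_of_eq ?_)
      push_cast
      ring
    have hb3 : 1 / (3 * (Q : ℝ) * W) * L ≤ ((BS D' α L).card : ℝ) := by
      rw [hBSc, one_div, inv_mul_le_iff₀ (by positivity)]
      exact hb2
    have h4 := (hcon α hb3).le
    rw [hBSc] at h4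
    refine h4.trans (Nat.cast_le.2 ?_)
    refine card_le_of_map _ _ (fun b j => Q * (b j).val) ?_
    rintro a ha ⟨ha1, g, ha2⟩
    rw [Fintype.mem_piFinset] at ha
    have h6 : ∀ j, ∃ b ∈ bp Λ n, Q * b.val = a j := by
      intro j
      have := ha j
      rw [hBS, mem_image] at this
      exact this
    choose b hb hba using h6
    have h8 : (fun j => Q * (b j).val) = a := funext hba
    refine ⟨b, Fintype.mem_piFinset.2 hb, ⟨g, (hBad g b).2 ⟨fun j => ?_, ?_, ?_⟩⟩, h8⟩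
    · have h7 := hb j
      unfold bp at h7
      rw [mem_filter] at h7
      have := h7.2
      omega
    · intro j j' hjj
      have h9 := ha1 hjj
      rw [← hba j, ← hba j'] at h9
      exact lt_of_mul_lt_mul_left h9 (Nat.zero_le _)
    · rw [h8]
      exact ha2
  -- the trees
  obtain ⟨TT, hTT, hTTc⟩ := exists_of_filter (htrc (2 * L' + 1) hP1 hPodd Bad hDB _ (card_low L'))
  obtain ⟨R, hR⟩ : ∃ R : NA k → (Fin (k + 1) → ZMod (2 * L' + 1)) → Prop, R = fun g x =>
    Bad g (dif x) ∧ ∀ i, (x i).val ≤ L' := ⟨_, rfl⟩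
  have hTT1 : ∀ c ∈ TT, (∀ q, (c q).val ≤ L') ∧ IsTreeG (k + 1) s R j c := by
    intro c hc
    obtain ⟨h1, h2⟩ := hTT c hc
    have h3 : ∀ q, (c q).val ≤ L' := fun q => (mem_filter.1 (h1 q)).2
    refine ⟨h3, ?_⟩
    rw [hR]
    exact isTreeG_and (k + 1) s _ (fun y : ZMod (2 * L' + 1) => y.val ≤ L') j c h2 h3
  have hRval : ∀ g x, R g x → ∀ i : Fin k, (x i.succ).val = (x 0).val + (dif x i).val := by
    intro g x hx i
    rw [hR] at hx
    obtain ⟨h1, h2⟩ := hx
    have h3 : (x i.succ - x 0).val ≤ L' := (((hBad _ _).1 h1).1 i).2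
    exact val_sub_nat _ _ (h2 0) (by omega)
  have hRmono : ∀ g x, R g x → StrictMono (fun i => (x i).val) := by
    intro g x hx
    have h4 := hRval g x hx
    rw [hR] at hx
    obtain ⟨h5, h6, -⟩ := (hBad _ _).1 hx.1
    have h7 : ∀ i j : Fin (k + 1), i < j → (x i).val < (x j).val := by
      intro i
      refine Fin.cases ?_ (fun i => ?_) i
      · intro j
        refine Fin.cases ?_ (fun j => ?_) j
        · intro h
          exact absurd h (lt_irrefl _)
        · intro _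
          rw [h4 j]
          have := (h5 j).1
          omega
      · intro j
        refine Fin.cases ?_ (fun j => ?_) j
        · intro h
          exact absurd h (Fin.not_lt_zero _)
        · intro h
          rw [h4 i, h4 j]
          have := h6 (Fin.succ_lt_succ_iff.1 h)
          simp only at this
          omega
    exact fun i j hij => h7 i j hij
  obtain ⟨BB, hBB1, hBB2, hBB3⟩ : ∃ BB : Finset (Fin ((k + 1) ^ j) × Fin s → ℕ),
      (∀ v ∈ BB, v ∈ IJ (Fin ((k + 1) ^ j) × Fin s) L ∧ Admv v) ∧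
      δ * (L : ℝ) ^ ((k + 1) ^ j * s) ≤ (BB.card : ℝ) ∧
      ∀ v ∈ BB, ∃ c ∈ TT, ∀ i t, v (i, t) = Q * (c (le (k + 1) j i, t)).val := by
    have h1 := hbox L hL₂
    rw [← hL'] at h1
    exact h1 TT (fun c hc q => (hTT1 c hc).1 q) hTTc
  obtain ⟨Dg, hDg⟩ : ∃ Dg : NA k → Finset (Fin k → ℕ), ∀ g a, a ∈ Dg g ↔
      ((∀ j, 1 ≤ a j ∧ a j ≤ L) ∧ ∀ i, (cntG col cons g.1 i a X : ℝ) < thr) :=
    ⟨fun g => (Fintype.piFinset fun _ : Fin k => Icc 1 L).filter
      (fun a => ∀ i, (cntG col cons g.1 i a X : ℝ) < thr), fun g a => by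
        rw [mem_filter, Fintype.mem_piFinset]
        simp only [mem_Icc]⟩
  have hDcard : ∀ g, (Dg g).card ≤ L ^ k := by
    intro g
    have h1 : Dg g ⊆ Fintype.piFinset fun _ : Fin k => Icc 1 L := by
      intro a ha
      rw [Fintype.mem_piFinset]
      exact fun j => mem_Icc.2 (((hDg g a).1 ha).1 j)
    refine (card_le_card h1).trans ?_
    rw [Fintype.card_piFinset]
    simp
  obtain ⟨GN, hGN⟩ : ∃ GN : ℕ → Finset (Fin (k + 1) → ℕ), GN = fun N =>
    (univ : Finset (NA k × Fin r)).biUnion (fun u => GG col cons L u.1.1 u.2 (Dg u.1) N) :=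
    ⟨_, rfl⟩
  have key := hE1 L hL1 hq1 cons hcons1 BB hBB1 hBB2 GN (by
      intro N _ y hy i
      rw [hGN, mem_biUnion] at hy
      obtain ⟨u, -, hu⟩ := hy
      unfold GG at hu
      rw [mem_filter, Fintype.mem_piFinset] at hu
      exact ⟨Nat.lt_succ_iff.1 (mem_range.1 (hu.1 i)), (hu.2.2.2.1 i).1⟩) (by
      intro v hv N _ hpc hcl
      obtain ⟨c, hc, h⟩ := hBB3 v hv
      obtain ⟨hc1, hc2⟩ := hTT1 c hc
      obtain ⟨E0, hE0⟩ : ∃ E0 : Finset (Fin ((k + 1) ^ j)), E0 =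
        univ.filter (fun j : Fin ((k + 1) ^ j) => ∃ l : Fin s, (N + v (j, l)).Prime) := ⟨_, rfl⟩
      have hE0c : 6 / 25 * ((k : ℝ) + 1) ^ j ≤ E0.card := by
        have h1 : (pc v N : ℝ) = E0.card := by
          rw [hE0]
          rfl
        rw [← h1]
        refine le_trans (le_of_eq ?_) hpc
        push_cast
        ring
      obtain ⟨φ, hφ0⟩ : ∃ φ : Fin ((k + 1) ^ j) → Fin s, ∀ j ∈ E0, (N + v (j, φ j)).Prime := by
        have : ∀ j' : Fin ((k + 1) ^ j), ∃ l : Fin s, j' ∈ E0 → (N + v (j', l)).Prime := by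
          intro j'
          by_cases hj' : j' ∈ E0
          · have h2 := hj'
            rw [hE0, mem_filter] at h2
            obtain ⟨l, hl⟩ := h2.2
            exact ⟨l, fun _ => hl⟩
          · exact ⟨⟨0, hs⟩, fun h => absurd h hj'⟩
        choose φ hφ using this
        exact ⟨φ, hφ⟩
      -- the most frequent colour
      obtain ⟨i0, hi0⟩ : ∃ i0 : Fin r, E0.card ≤ r *
          (E0.filter (fun j => col (N + v (j, φ j)) = i0)).card := by
        by_contra hcon'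
        push Not at hcon'
        have h1 : E0.card = ∑ i : Fin r, (E0.filter (fun j => col (N + v (j, φ j)) = i)).card :=
          card_eq_sum_card_fiberwise (fun j _ => mem_coe.2 (mem_univ _))
        have h2 : ∑ i : Fin r, r * (E0.filter (fun j => col (N + v (j, φ j)) = i)).card <
            ∑ _i : Fin r, E0.card :=
          sum_lt_sum_of_nonempty ⟨⟨0, hr⟩, mem_univ _⟩ fun i _ => hcon' i
        rw [← mul_sum, ← h1, sum_const, card_univ, Fintype.card_fin, smul_eq_mul] at h2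
        exact lt_irrefl _ h2
      obtain ⟨E, hE⟩ : ∃ E : Finset (Fin ((k + 1) ^ j)), E =
        E0.filter (fun j => col (N + v (j, φ j)) = i0) := ⟨_, rfl⟩
      rw [← hE] at hi0
      have hφ : ∀ j ∈ E, (N + v (j, φ j)).Prime ∧ col (N + v (j, φ j)) = i0 := by
        intro j hj
        rw [hE, mem_filter] at hj
        exact ⟨hφ0 j hj.1, hj.2⟩
      have hEc : k ^ j < E.card := by
        have h1 : (E0.card : ℝ) ≤ r * E.card := by exact_mod_cast hi0
        have h2 : (r : ℝ) * (k : ℝ) ^ j < r * E.card := by linarith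
        have h3 : ((k ^ j : ℕ) : ℝ) < E.card := by
          push_cast
          exact lt_of_mul_lt_mul_left h2 (by linarith)
        exact_mod_cast h3
      -- the leaves with a prime of colour `i0`
      obtain ⟨F, hF⟩ : ∃ F : ZMod (2 * L' + 1) → Prop, ∀ y, F y ↔
          ((N + Q * y.val).Prime ∧ col (N + Q * y.val) = i0) := ⟨_, fun _ => Iff.rfl⟩
      obtain ⟨g, ψ, hψ1, hψ2, hψ3, hψ4⟩ := hitG (k + 1) s R (fun y => y.val) hRmono F
        (fun g t => ∃ t' ∈ g.1, (t' : ℕ) = t) (by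
          rintro g t ⟨t1, ht1, rfl⟩ ⟨t2, ht2, h⟩
          exact g.2 t1 ht1 t2 ht2 h.symm) j c hc2 (by
          rw [Nat.add_sub_cancel]
          refine lt_of_lt_of_le hEc ?_
          refine card_le_card_of_injOn (fun i => le (k + 1) j i) ?_ ?_
          · intro i hi
            have hi' : i ∈ E := hi
            have h1 := hφ i hi'
            rw [h] at h1
            exact mem_coe.2 (mem_filter.2 ⟨mem_univ _, φ i, (hF _).2 h1⟩)
          · intro i _ i' _ hii
            exact (le (k + 1) j).injective hii)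
      have hψ5 := hRval g _ hψ2
      have hψ6 := hRmono g _ hψ2
      have hψ2' := hψ2
      rw [hR] at hψ2'
      obtain ⟨hψa, -, hψb⟩ := (hBad _ _).1 hψ2'.1
      have hval : ∀ i, v ((le (k + 1) j).symm (ψ i).1, (ψ i).2) = Q * (c (ψ i)).val := by
        intro i
        rw [h, Equiv.apply_symm_apply]
      refine ⟨fun i => ((le (k + 1) j).symm (ψ i).1, (ψ i).2), ?_, ?_⟩
      · intro i i' hii
        simp only [Prod.mk.injEq, EmbeddingLike.apply_eq_iff_eq] at hii
        exact hψ1 (Prod.ext hii.1 hii.2)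
      · have hcomp : (v ∘ fun i => ((le (k + 1) j).symm (ψ i).1, (ψ i).2)) =
            fun i => Q * (c (ψ i)).val := funext hval
        rw [hcomp, hGN, mem_biUnion]
        refine ⟨(g, i0), mem_univ _, ?_⟩
        unfold GG
        rw [mem_filter, Fintype.mem_piFinset]
        have hdif : (fun i : Fin k => Q * (c (ψ i.succ)).val - Q * (c (ψ 0)).val) =
            fun i => Q * (dif (fun i => c (ψ i)) i).val := by
          funext i
          rw [hψ5 i, mul_add, Nat.add_sub_cancel_left]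
        refine ⟨fun i => ?_, fun i => ?_, ?_, fun i => ?_, ?_⟩
        · rw [mem_range]
          exact Nat.lt_succ_of_le ((Nat.mul_le_mul_left _ (hc1 _)).trans hQL')
        · refine Nat.mul_le_mul_left _ ?_
          exact hψ6.monotone (Fin.zero_le i)
        · rw [hdif, hDg]
          exact ⟨fun i => ⟨Nat.mul_pos hQ1 (hψa i).1,
            (Nat.mul_le_mul_left _ (hψa i).2).trans hQL'⟩, hψb⟩
        · exact (hF _).1 (hψ3 i)
        · rintro hco t ht z hz1 hz2 ⟨hz3, hz4⟩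
          have hzL : z ≤ L := hz2.le.trans ((Nat.mul_le_mul_left _ (hc1 _)).trans hQL')
          obtain ⟨⟨i, t'⟩, hq⟩ := hcl hco z hzL hz3
          rw [h] at hq
          have h10 := hψ4 t.castSucc t.succ (by simp) ⟨t, ht, by simp⟩ (le (k + 1) j i, t')
            ((hF _).2 (by rw [hq]; exact ⟨hz3, hz4⟩))
          rw [← hq] at hz1 hz2
          exact h10 ⟨lt_of_mul_lt_mul_left hz1 (Nat.zero_le _),
            lt_of_mul_lt_mul_left hz2 (Nat.zero_le _)⟩)
  -- upper bound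
  have hTx0 : ∀ N ∈ (Tx x).filter (fun N : ℕ => (N : ℝ) ≤ T1 * x), 1 ≤ N ∧ N ≤ X - L := by
    intro N hN
    rw [mem_filter, Tx, mem_Ioc] at hN
    have h1 : T1 * x = X / 2 := by
      rw [hxd]
      have : T1 ≠ 0 := by positivity
      field_simp
    have h2 : (N : ℝ) ≤ X / 2 := by rw [← h1]; exact hN.2
    have h4 : ((N + L : ℕ) : ℝ) ≤ X := by
      push_cast
      linarith
    have h5 : N + L ≤ X := by exact_mod_cast h4
    omega
  have hX4 : X - L + L = X := by
    have h4 : ((L : ℕ) : ℝ) ≤ X := by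
      linarith
    have h5 : L ≤ X := by exact_mod_cast h4
    omega
  have hlX : 0 < Real.log X := by linarith
  have hthr0 : 0 ≤ thr := by
    rw [hthr]
    have : 0 ≤ min 1 ((L : ℝ) / Real.log X) := le_min zero_le_one (by positivity)
    positivity
  have hup2 : (∑ N ∈ (Tx x).filter (fun N : ℕ => (N : ℝ) ≤ T1 * x), ((GN N).card : ℝ)) ≤
      (nΓ * r) * ((L + 1) * ((L : ℝ) ^ k * thr)) := by
    have h1 : ∀ N, ((GN N).card : ℝ) ≤
        ∑ u : NA k × Fin r, ((GG col cons L u.1.1 u.2 (Dg u.1) N).card : ℝ) := by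
      intro N
      rw [hGN]
      exact_mod_cast card_biUnion_le
    have h2 : ∀ u : NA k × Fin r, (∑ N ∈ (Tx x).filter (fun N : ℕ => (N : ℝ) ≤ T1 * x),
        ((GG col cons L u.1.1 u.2 (Dg u.1) N).card : ℝ)) ≤ (L + 1) * ((L : ℝ) ^ k * thr) := by
      intro u
      have h3 := sum_GG col cons L u.1.1 u.2 (Dg u.1) _ (X - L) hTx0
      rw [hX4] at h3
      have h4 : (∑ N ∈ (Tx x).filter (fun N : ℕ => (N : ℝ) ≤ T1 * x),
          ((GG col cons L u.1.1 u.2 (Dg u.1) N).card : ℝ)) ≤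
          (L + 1) * ∑ a ∈ Dg u.1, (cntG col cons u.1.1 u.2 a X : ℝ) := by
        exact_mod_cast h3
      refine h4.trans (mul_le_mul_of_nonneg_left ?_ (by positivity))
      calc ∑ a ∈ Dg u.1, (cntG col cons u.1.1 u.2 a X : ℝ) ≤ ∑ _a ∈ Dg u.1, thr :=
            sum_le_sum fun a ha => (((hDg _ _).1 ha).2 u.2).le
        _ = (Dg u.1).card * thr := by rw [sum_const, nsmul_eq_mul]
        _ ≤ (L : ℝ) ^ k * thr :=
            mul_le_mul_of_nonneg_right (by exact_mod_cast hDcard u.1) hthr0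
    calc (∑ N ∈ (Tx x).filter (fun N : ℕ => (N : ℝ) ≤ T1 * x), ((GN N).card : ℝ)) ≤
          ∑ N ∈ (Tx x).filter (fun N : ℕ => (N : ℝ) ≤ T1 * x),
            ∑ u : NA k × Fin r, ((GG col cons L u.1.1 u.2 (Dg u.1) N).card : ℝ) :=
          sum_le_sum fun N _ => h1 N
      _ = ∑ u : NA k × Fin r, ∑ N ∈ (Tx x).filter (fun N : ℕ => (N : ℝ) ≤ T1 * x),
            ((GG col cons L u.1.1 u.2 (Dg u.1) N).card : ℝ) := sum_comm
      _ ≤ ∑ _u : NA k × Fin r, (L + 1) * ((L : ℝ) ^ k * thr) := sum_le_sum fun u _ => h2 u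
      _ = (nΓ * r) * ((L + 1) * ((L : ℝ) ^ k * thr)) := by
          rw [sum_const, nsmul_eq_mul, card_univ, Fintype.card_prod, Fintype.card_fin, ← hnΓ]
          push_cast
          rfl
  have hkey2 := key.trans hup2
  have hLr : (1 : ℝ) ≤ L := by exact_mod_cast hL1
  obtain ⟨M, hMd⟩ : ∃ M : ℝ, M =
    (min 1 ((L : ℝ) / Real.log X)) ^ ((k + 1) ^ j * s - (k + 1)) := ⟨_, rfl⟩
  have hM0 : 0 < M := by
    rw [hMd]
    have : 0 < min 1 ((L : ℝ) / Real.log X) := lt_min one_pos (by positivity)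
    positivity
  have hmono : (L : ℝ) / Real.log X ≤ L / Real.log x :=
    div_le_div_of_nonneg_left (by positivity) hq3 hq4
  have h1 : M ≤ (min 1 ((L : ℝ) / Real.log x)) ^ ((k + 1) ^ j * s - (k + 1)) := by
    rw [hMd]
    apply pow_le_pow_left₀ (le_min zero_le_one (by positivity))
    exact min_le_min le_rfl hmono
  have h2 : ((L : ℝ) / Real.log X) ^ (k + 1) ≤ ((L : ℝ) / Real.log x) ^ (k + 1) :=
    pow_le_pow_left₀ (by positivity) hmono _
  have hx0 : 0 ≤ x := by
    rw [hxd]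
    positivity
  have h3 : c1 * x * ((L : ℝ) / Real.log X) ^ (k + 1) * M ≤
      c1 * x * ((L : ℝ) / Real.log x) ^ (k + 1) *
        (min 1 ((L : ℝ) / Real.log x)) ^ ((k + 1) ^ j * s - (k + 1)) := by
    apply mul_le_mul _ h1 hM0.le (by positivity)
    exact mul_le_mul_of_nonneg_left h2 (by positivity)
  have h4 := h3.trans hkey2
  rw [hthr, ← hMd, hxd] at h4
  have e2 : Real.log X ≠ 0 := hlX.ne'
  have e1 : T1 ≠ 0 := by positivity
  have e3 : (r : ℝ) ≠ 0 := by positivity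
  have e4 : (nΓ : ℝ) ≠ 0 := by positivity
  have h5 : c1 * ((X : ℝ) / (2 * T1)) * ((L : ℝ) / Real.log X) ^ (k + 1) * M =
      (4 * (L : ℝ)) * ((nΓ * r) * ((L : ℝ) ^ k *
        (c1 / (8 * T1 * r * nΓ) * M * (X / Real.log X ^ (k + 1))))) := by
    rw [div_pow]
    field_simp
    ring
  have h6 : (nΓ * r : ℝ) * ((L + 1) * ((L : ℝ) ^ k *
        (c1 / (8 * T1 * r * nΓ) * M * (X / Real.log X ^ (k + 1))))) = ((L : ℝ) + 1) *
        ((nΓ * r) * ((L : ℝ) ^ k *
        (c1 / (8 * T1 * r * nΓ) * M * (X / Real.log X ^ (k + 1))))) := by ring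
  have h7 : 0 < (nΓ * r : ℝ) * ((L : ℝ) ^ k *
      (c1 / (8 * T1 * r * nΓ) * M * (X / Real.log X ^ (k + 1)))) := by positivity
  rw [h5, h6] at h4
  have h8 := le_of_mul_le_mul_right h4 h7
  linarith

end Pool.Agent.H61.HB
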