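import Pool.Agent.H61.HB.Def

/-!
# [H61 HB FTA] Inversion formula and Parseval on `ZMod P` (Mathlib only)

Proof. `ee` is `ZMod.stdAddChar`, a primitive additive character (`ZMod.isPrimitive_stdAddChar`), so `∑ r, ee (r * x) = P` for `x = 0` and
`0` else (`AddChar.sum_mulShift`). `ee_add`: `AddChar.map_add_eq_mul`; `norm_ee`: values are roots of unity
(`AddChar.norm_apply` or `ZMod.stdAddChar_apply`, `Circle`); `ee_neg_conj`: `AddChar.map_neg_eq_conj` or from `norm_ee`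
(`ee (-x) = (ee x)⁻¹`, `Complex.inv_eq_conj`).
`inv_ft`: `∑ r, ft f r * ee (r * t) = 1/P * ∑ t', f t' * ∑ r, ee (r * (t - t')) = f t`. (Or from `ZMod.dft` and `ZMod.invDFT`.)
`parseval`: `‖ft f r‖^2 = ft f r * conj (ft f r)`, `conj (ft f r) = 1/P * ∑ t, f t * ee (r * t)` (`f` is real), so
`∑ r, ft f r * conj (ft f r) = 1/P * ∑ t, f t * ∑ r, ft f r * ee (r * t) = 1/P * ∑ t, f t * f t`.
-/

namespace Pool.Agent.H61.HB

open Finset

theorem ee_zero {P : ℕ} [NeZero P] : ee (0 : ZMod P) = 1 :=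
  AddChar.map_zero_eq_one _

theorem ee_add {P : ℕ} [NeZero P] (x y : ZMod P) : ee (x + y) = ee x * ee y :=
  AddChar.map_add_eq_mul _ x y

theorem norm_ee {P : ℕ} [NeZero P] (x : ZMod P) : ‖ee x‖ = 1 :=
  AddChar.norm_apply _ x

theorem ee_neg {P : ℕ} [NeZero P] (x : ZMod P) : ee (-x) = (starRingEnd ℂ) (ee x) :=
  AddChar.map_neg_eq_conj _ x

theorem sum_ee {P : ℕ} [NeZero P] (x : ZMod P) :
    ∑ r : ZMod P, ee (r * x) = if x = 0 then (P : ℂ) else 0 := by
  have h := AddChar.sum_mulShift x (ZMod.isPrimitive_stdAddChar P)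
  rw [ZMod.card] at h
  refine h.trans ?_
  split_ifs
  · rfl
  · exact Nat.cast_zero

theorem inv_ft {P : ℕ} [NeZero P] (f : ZMod P → ℝ) (t : ZMod P) :
    (f t : ℂ) = ∑ r, ft f r * ee (r * t) := by
  have hP : (P : ℂ) ≠ 0 := Nat.cast_ne_zero.2 (NeZero.ne P)
  have h1 : ∀ r, ft f r * ee (r * t) =
      ∑ t', 1 / (P : ℂ) * ((f t' : ℂ) * ee (r * (t - t'))) := by
    intro r
    unfold ft
    rw [mul_assoc, Finset.sum_mul, Finset.mul_sum]
    refine Finset.sum_congr rfl fun t' _ => ?_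
    rw [mul_assoc (f t' : ℂ), ← ee_add]
    congr 3
    ring
  rw [Finset.sum_congr rfl fun r _ => h1 r, Finset.sum_comm, Finset.sum_eq_single t]
  · rw [← Finset.mul_sum, ← Finset.mul_sum, sum_ee, sub_self, if_pos rfl, mul_comm (f t : ℂ),
      ← mul_assoc, one_div, inv_mul_cancel₀ hP, one_mul]
  · intro t' _ ht'
    rw [← Finset.mul_sum, ← Finset.mul_sum, sum_ee, if_neg (sub_ne_zero.2 ht'.symm), mul_zero,
      mul_zero]
  · intro h
    exact absurd (Finset.mem_univ t) h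

theorem parseval {P : ℕ} [NeZero P] (f : ZMod P → ℝ) :
    ∑ r, ‖ft f r‖ ^ 2 = 1 / (P : ℝ) * ∑ t, f t ^ 2 := by
  have h1 : ∀ r, ((‖ft f r‖ ^ 2 : ℝ) : ℂ) =
      ∑ t, 1 / (P : ℂ) * ((f t : ℂ) * (ft f r * ee (r * t))) := by
    intro r
    have h2 : (starRingEnd ℂ) (ft f r) = 1 / (P : ℂ) * ∑ t, (f t : ℂ) * ee (r * t) := by
      unfold ft
      rw [map_mul, map_div₀, map_one, map_natCast, map_sum]
      congr 1
      refine Finset.sum_congr rfl fun t _ => ?_
      rw [map_mul, Complex.conj_ofReal, ← ee_neg, neg_neg]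
    rw [Complex.ofReal_pow, ← Complex.mul_conj', h2, ← mul_assoc, mul_comm (ft f r), mul_assoc,
      Finset.mul_sum, Finset.mul_sum]
    refine Finset.sum_congr rfl fun t _ => ?_
    ring
  apply Complex.ofReal_injective
  rw [Complex.ofReal_sum, Finset.sum_congr rfl fun r _ => h1 r, Finset.sum_comm]
  have h3 : ∀ t, ∑ r, 1 / (P : ℂ) * ((f t : ℂ) * (ft f r * ee (r * t))) =
      1 / (P : ℂ) * (f t : ℂ) ^ 2 := by
    intro t
    rw [← Finset.mul_sum, ← Finset.mul_sum, ← inv_ft, sq]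
  rw [Finset.sum_congr rfl fun t _ => h3 t, ← Finset.mul_sum]
  push_cast
  rfl

end Pool.Agent.H61.HB
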