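import Pool.Agent.H61.HB.FtA

/-!
# [H61 HB FTB] Fourier coefficients of averages over translates, translations, differences

Proof. `ft_cv`: `ft (cv f B) r = 1/P * ∑ t, (1/|B| * ∑ b ∈ B, f (t - b)) * ee (-(r t))`; exchange the sums, substitute `t = t' + b`
(`Equiv.sum_comp (Equiv.addRight b)` or `Fintype.sum_equiv`), `ee (-(r (t' + b))) = ee (-(r t')) * ee (-(r b))` (`ee_add`).
`ft_shift`: substitute `t = t' - a`. `ft_sub`: linearity.
-/

namespace Pool.Agent.H61.HB

open Finset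

theorem ft_sub {P : ℕ} [NeZero P] (f g : ZMod P → ℝ) (r : ZMod P) :
    ft (fun t => f t - g t) r = ft f r - ft g r := by
  unfold ft
  rw [← mul_sub, ← Finset.sum_sub_distrib]
  congr 1
  refine Finset.sum_congr rfl fun t _ => ?_
  push_cast
  ring

theorem ft_cv {P : ℕ} [NeZero P] (f : ZMod P → ℝ) (B : Finset (ZMod P)) (r : ZMod P) :
    ft (cv f B) r = ft f r * mt B r := by
  have h1 : ∀ b, ∑ t, (f (t - b) : ℂ) * ee (-(r * t)) =
      ee (-(r * b)) * ∑ t, (f t : ℂ) * ee (-(r * t)) := by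
    intro b
    rw [← Equiv.sum_comp (Equiv.addRight b), Finset.mul_sum]
    refine Finset.sum_congr rfl fun t _ => ?_
    rw [Equiv.coe_addRight, add_sub_cancel_right]
    have e1 : -(r * (t + b)) = -(r * b) + -(r * t) := by ring
    rw [e1, ee_add]
    ring
  have h2 : ∀ t, ((cv f B t : ℝ) : ℂ) * ee (-(r * t)) =
      ∑ b ∈ B, 1 / (B.card : ℂ) * ((f (t - b) : ℂ) * ee (-(r * t))) := by
    intro t
    unfold cv
    push_cast
    rw [mul_assoc, Finset.sum_mul, Finset.mul_sum]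
  have h3 : ft (cv f B) r = 1 / (P : ℂ) * ∑ t, ((cv f B t : ℝ) : ℂ) * ee (-(r * t)) := rfl
  rw [h3, Finset.sum_congr rfl fun t _ => h2 t, Finset.sum_comm]
  have h4 : ∀ b ∈ B, ∑ t, 1 / (B.card : ℂ) * ((f (t - b) : ℂ) * ee (-(r * t))) =
      1 / (B.card : ℂ) * (ee (-(r * b)) * ∑ t, (f t : ℂ) * ee (-(r * t))) := by
    intro b _
    rw [← Finset.mul_sum, h1]
  rw [Finset.sum_congr rfl h4, ← Finset.mul_sum, ← Finset.sum_mul]
  unfold ft mt
  ring

theorem ft_shift {P : ℕ} [NeZero P] (f : ZMod P → ℝ) (a r : ZMod P) :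
    ft (fun t => f (t + a)) r = ee (r * a) * ft f r := by
  unfold ft
  rw [mul_left_comm]
  congr 1
  rw [Finset.mul_sum, ← Equiv.sum_comp (Equiv.addRight a)
    (fun t => ee (r * a) * ((f t : ℂ) * ee (-(r * t))))]
  refine Finset.sum_congr rfl fun t _ => ?_
  rw [Equiv.coe_addRight]
  have e1 : -(r * t) = r * a + -(r * (t + a)) := by ring
  rw [e1, ee_add]
  ring

end Pool.Agent.H61.HB
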