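import Pool.Agent.H61.HB.FtA

/-!
# [H61 HB FTC] The bilinear estimate

If all Fourier coefficients of `v` are at most `η` and `|W| ≤ 1` then `∑_c |∑_t W t * v (t + c)| ≤ η P²`.

Proof. Let `A c = ∑ t, W t * v (t + c)` (real). By `inv_ft`, `v (t + c) = ∑ r, ft v r * ee (r t) * ee (r c)`, so
`A c = ∑ r, g r * ee (r c)` with `g r = ft v r * ∑ t, W t * ee (r t)`, and `∑ t, W t * ee (r t) = P * conj (ft W r)` (`ft W` of a real
function; `ee_neg`). Hence `∑_c ‖A c‖^2 = P * ∑ r, ‖g r‖^2` (orthogonality `sum_ee`: expand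
`∑_c (∑_r g r ee (r c)) conj (∑_r' g r' ee (r' c)) = ∑_{r,r'} g r conj (g r') ∑_c ee ((r - r') c)`), and
`∑ r, ‖g r‖^2 ≤ P^2 η^2 ∑ r, ‖ft W r‖^2 = P^2 η^2 (1/P ∑ t, W t ^ 2) ≤ P^2 η^2` (`parseval`).  So `∑_c (A c)^2 ≤ P^3 η^2`. Cauchy-Schwarz
(`inner_mul_le_norm_mul_norm`, `Finset.sum_mul_sq_le_sq_mul_sq` or `sq_sum_le_card_mul_sum_sq`):
`(∑_c |A c|)^2 ≤ P * ∑_c (A c)^2 ≤ P^4 η^2`, and `η ≥ 0` (it bounds a norm), so `∑_c |A c| ≤ η P^2` (`abs_le_of_sq_le_sq` /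
`pow_le_pow_left`).
-/

namespace Pool.Agent.H61.HB

open Finset

private theorem bil_ft {P : ℕ} [NeZero P] (v W A : ZMod P → ℝ)
    (hA : ∀ c, A c = ∑ t, W t * v (t + c)) (r : ZMod P) :
    ft A r = ft v r * (P * (starRingEnd ℂ) (ft W r)) := by
  have hPC : (P : ℂ) ≠ 0 := by exact_mod_cast (NeZero.ne P)
  have hsum : ∑ t, (W t : ℂ) * ee (r * t) = P * (starRingEnd ℂ) (ft W r) := by
    unfold ft
    rw [map_mul, map_sum, map_div₀, map_one, Complex.conj_natCast, ← mul_assoc,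
      mul_one_div_cancel hPC, one_mul]
    refine Finset.sum_congr rfl fun t _ => ?_
    rw [map_mul, Complex.conj_ofReal, ee_neg, Complex.conj_conj]
  rw [← hsum]
  have h1 : ∑ c, (A c : ℂ) * ee (-(r * c)) =
      (∑ t, (W t : ℂ) * ee (r * t)) * ∑ c, (v c : ℂ) * ee (-(r * c)) := by
    have h2 : ∀ c, (A c : ℂ) * ee (-(r * c)) =
        ∑ t, (W t : ℂ) * ee (r * t) * ((v (t + c) : ℂ) * ee (-(r * (t + c)))) := by
      intro c
      rw [hA, Complex.ofReal_sum, Finset.sum_mul]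
      refine Finset.sum_congr rfl fun t _ => ?_
      have h3 : -(r * c) = r * t + -(r * (t + c)) := by ring
      rw [h3, ee_add, Complex.ofReal_mul]
      ring
    rw [Finset.sum_congr rfl fun c _ => h2 c, Finset.sum_comm, Finset.sum_mul]
    refine Finset.sum_congr rfl fun t _ => ?_
    rw [← Finset.mul_sum]
    congr 1
    exact Equiv.sum_comp (Equiv.addLeft t) (fun c => (v c : ℂ) * ee (-(r * c)))
  have h4 : ft A r = 1 / (P : ℂ) * ∑ c, (A c : ℂ) * ee (-(r * c)) := rfl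
  have h5 : ft v r = 1 / (P : ℂ) * ∑ c, (v c : ℂ) * ee (-(r * c)) := rfl
  rw [h4, h5, h1]
  ring

theorem bil {P : ℕ} [NeZero P] (v W : ZMod P → ℝ) (η : ℝ) (hv : ∀ r, ‖ft v r‖ ≤ η)
    (hW : ∀ t, |W t| ≤ 1) : ∑ c, |∑ t, W t * v (t + c)| ≤ η * (P : ℝ) ^ 2 := by
  have hP : (0 : ℝ) < P := by exact_mod_cast Nat.pos_of_ne_zero (NeZero.ne P)
  have hη : 0 ≤ η := (norm_nonneg _).trans (hv 0)
  obtain ⟨A, hA⟩ : ∃ A : ZMod P → ℝ, ∀ c, A c = ∑ t, W t * v (t + c) := ⟨_, fun _ => rfl⟩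
  have h1 : ∑ r, ‖ft A r‖ ^ 2 ≤ (P : ℝ) ^ 2 * η ^ 2 := by
    have h2 : ∀ r, ‖ft A r‖ ^ 2 ≤ (P : ℝ) ^ 2 * η ^ 2 * ‖ft W r‖ ^ 2 := by
      intro r
      rw [bil_ft v W A hA r, norm_mul, norm_mul, RCLike.norm_conj, Complex.norm_natCast]
      have h3 : ‖ft v r‖ ^ 2 ≤ η ^ 2 := pow_le_pow_left₀ (norm_nonneg _) (hv r) 2
      calc (‖ft v r‖ * ((P : ℝ) * ‖ft W r‖)) ^ 2 = ‖ft v r‖ ^ 2 * ((P : ℝ) ^ 2 * ‖ft W r‖ ^ 2) := by
            ring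
        _ ≤ η ^ 2 * ((P : ℝ) ^ 2 * ‖ft W r‖ ^ 2) :=
            mul_le_mul_of_nonneg_right h3 (by positivity)
        _ = (P : ℝ) ^ 2 * η ^ 2 * ‖ft W r‖ ^ 2 := by ring
    have h4 : ∑ r, ‖ft W r‖ ^ 2 ≤ 1 := by
      rw [parseval]
      have h5 : ∑ t, W t ^ 2 ≤ (P : ℝ) := by
        calc ∑ t, W t ^ 2 ≤ ∑ _t : ZMod P, (1 : ℝ) := by
              refine Finset.sum_le_sum fun t _ => ?_
              rw [← sq_abs]
              exact pow_le_one₀ (abs_nonneg _) (hW t)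
          _ = (P : ℝ) := by
              rw [Finset.sum_const, Finset.card_univ, ZMod.card, nsmul_eq_mul, mul_one]
      calc 1 / (P : ℝ) * ∑ t, W t ^ 2 ≤ 1 / (P : ℝ) * P :=
            mul_le_mul_of_nonneg_left h5 (by positivity)
        _ = 1 := by rw [one_div, inv_mul_cancel₀ hP.ne']
    calc ∑ r, ‖ft A r‖ ^ 2 ≤ ∑ r, (P : ℝ) ^ 2 * η ^ 2 * ‖ft W r‖ ^ 2 :=
          Finset.sum_le_sum fun r _ => h2 r
      _ = (P : ℝ) ^ 2 * η ^ 2 * ∑ r, ‖ft W r‖ ^ 2 := by rw [Finset.mul_sum]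
      _ ≤ (P : ℝ) ^ 2 * η ^ 2 * 1 := mul_le_mul_of_nonneg_left h4 (by positivity)
      _ = (P : ℝ) ^ 2 * η ^ 2 := mul_one _
  have h6 : ∑ c, A c ^ 2 ≤ (P : ℝ) ^ 3 * η ^ 2 := by
    have h7 := parseval A
    have h8 : ∑ c, A c ^ 2 = P * ∑ r, ‖ft A r‖ ^ 2 := by
      rw [h7, ← mul_assoc, mul_one_div_cancel hP.ne', one_mul]
    rw [h8]
    calc (P : ℝ) * ∑ r, ‖ft A r‖ ^ 2 ≤ P * ((P : ℝ) ^ 2 * η ^ 2) :=
          mul_le_mul_of_nonneg_left h1 hP.le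
      _ = (P : ℝ) ^ 3 * η ^ 2 := by ring
  have h9 : (∑ c, |A c|) ^ 2 ≤ (η * (P : ℝ) ^ 2) ^ 2 := by
    calc (∑ c, |A c|) ^ 2 ≤ ((univ : Finset (ZMod P)).card : ℝ) * ∑ c, |A c| ^ 2 :=
          sq_sum_le_card_mul_sum_sq
      _ = P * ∑ c, A c ^ 2 := by
          rw [Finset.card_univ, ZMod.card]
          congr 1
          exact Finset.sum_congr rfl fun c _ => sq_abs _
      _ ≤ P * ((P : ℝ) ^ 3 * η ^ 2) := mul_le_mul_of_nonneg_left h6 hP.le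
      _ = (η * (P : ℝ) ^ 2) ^ 2 := by ring
  have h10 := abs_le_of_sq_le_sq h9 (by positivity)
  rw [← Finset.sum_congr rfl fun c _ => congrArg abs (hA c)]
  exact (le_abs_self _).trans h10

end Pool.Agent.H61.HB
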