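import Pool.Agent.H61.HB.FtA

/-!
# [H61 HB FTD] The Fourier coefficients `mt B r` of the uniform measure on `B`; numbers of large coefficients

Proof. `mt_le`: triangle inequality and `norm_ee` (for `B = ∅`, `mt = 0`). `mt_near`: `1 - mt B r = 1/|B| * ∑ b ∈ B, (1 - ee (-(r b)))` and
`‖1 - ee (-(r b))‖ = ‖1 - conj (ee (r b))‖ = ‖ee (r b) - 1‖ ≤ θ`. `mt_pars`: `mt B r = P/|B| * ft 1_B r` with `1_B` the indicator function
(`if b ∈ B then 1 else 0`), so by `parseval` `∑ r, ‖mt B r‖^2 = (P/|B|)^2 * (1/P) * |B| = P/|B|`. `mt_large`, `ft_large`: the sum over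
the large `r` of `τ^2` (`η^2`) is at most the full sum (`card_nsmul_le_sum` or `sum_le_sum_of_subset_of_nonneg`); for `ft_large`
`parseval` and `f t ^ 2 ≤ 1`.
-/

namespace Pool.Agent.H61.HB

open Finset

theorem mt_le {P : ℕ} [NeZero P] (B : Finset (ZMod P)) (r : ZMod P) : ‖mt B r‖ ≤ 1 := by
  unfold mt
  rw [norm_mul, norm_div, norm_one, Complex.norm_natCast]
  have h1 : ‖∑ b ∈ B, ee (-(r * b))‖ ≤ B.card := by
    calc ‖∑ b ∈ B, ee (-(r * b))‖ ≤ ∑ b ∈ B, ‖ee (-(r * b))‖ := norm_sum_le _ _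
      _ = ∑ b ∈ B, (1 : ℝ) := Finset.sum_congr rfl fun b _ => norm_ee _
      _ = B.card := by rw [Finset.sum_const, nsmul_eq_mul, mul_one]
  calc 1 / (B.card : ℝ) * ‖∑ b ∈ B, ee (-(r * b))‖ ≤ 1 / (B.card : ℝ) * B.card :=
        mul_le_mul_of_nonneg_left h1 (by positivity)
    _ ≤ 1 := by
        rw [one_div]
        exact inv_mul_le_one

theorem mt_near {P : ℕ} [NeZero P] (B : Finset (ZMod P)) (hB : B.Nonempty) (r : ZMod P) (θ : ℝ)
    (h : ∀ b ∈ B, ‖ee (r * b) - 1‖ ≤ θ) : ‖1 - mt B r‖ ≤ θ := by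
  have hc : (0 : ℝ) < B.card := by exact_mod_cast hB.card_pos
  have hcC : (B.card : ℂ) ≠ 0 := by exact_mod_cast hB.card_pos.ne'
  have h1 : 1 - mt B r = 1 / (B.card : ℂ) * ∑ b ∈ B, (1 - ee (-(r * b))) := by
    unfold mt
    rw [Finset.sum_sub_distrib, mul_sub, Finset.sum_const, nsmul_eq_mul, mul_one,
      one_div, inv_mul_cancel₀ hcC]
  rw [h1, norm_mul, norm_div, norm_one, Complex.norm_natCast]
  have h2 : ‖∑ b ∈ B, (1 - ee (-(r * b)))‖ ≤ B.card * θ := by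
    calc ‖∑ b ∈ B, (1 - ee (-(r * b)))‖ ≤ ∑ b ∈ B, ‖1 - ee (-(r * b))‖ := norm_sum_le _ _
      _ ≤ ∑ _b ∈ B, θ := by
          refine Finset.sum_le_sum fun b hb => ?_
          have h3 : 1 - ee (-(r * b)) = (starRingEnd ℂ) (1 - ee (r * b)) := by
            rw [ee_neg, map_sub, map_one]
          rw [h3, RCLike.norm_conj, norm_sub_rev]
          exact h b hb
      _ = B.card * θ := by rw [Finset.sum_const, nsmul_eq_mul]
  calc 1 / (B.card : ℝ) * ‖∑ b ∈ B, (1 - ee (-(r * b)))‖ ≤ 1 / (B.card : ℝ) * (B.card * θ) :=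
        mul_le_mul_of_nonneg_left h2 (by positivity)
    _ = θ := by
        rw [one_div, ← mul_assoc, inv_mul_cancel₀ hc.ne', one_mul]

theorem mt_pars {P : ℕ} [NeZero P] (B : Finset (ZMod P)) (hB : B.Nonempty) :
    ∑ r, ‖mt B r‖ ^ 2 = (P : ℝ) / B.card := by
  classical
  have hP : (0 : ℝ) < P := by exact_mod_cast Nat.pos_of_ne_zero (NeZero.ne P)
  have hPC : (P : ℂ) ≠ 0 := by exact_mod_cast (NeZero.ne P)
  have hc : (0 : ℝ) < B.card := by exact_mod_cast hB.card_pos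
  obtain ⟨g, hg⟩ : ∃ g : ZMod P → ℝ, ∀ t, g t = if t ∈ B then 1 else 0 := ⟨_, fun _ => rfl⟩
  have h1 : ∀ r, mt B r = (P : ℂ) / B.card * ft g r := by
    intro r
    unfold mt ft
    have h2 : ∑ t, (g t : ℂ) * ee (-(r * t)) = ∑ b ∈ B, ee (-(r * b)) := by
      rw [← Finset.sum_filter_add_sum_filter_not univ (fun t => t ∈ B)]
      have h3 : ∑ x ∈ univ.filter (fun t => ¬ t ∈ B), (g x : ℂ) * ee (-(r * x)) = 0 := by
        refine Finset.sum_eq_zero fun x hx => ?_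
        rw [hg, if_neg (Finset.mem_filter.1 hx).2, Complex.ofReal_zero, zero_mul]
      rw [h3, add_zero]
      have h4 : univ.filter (fun t => t ∈ B) = B := by
        ext t
        simp
      rw [h4]
      refine Finset.sum_congr rfl fun x hx => ?_
      rw [hg, if_pos hx, Complex.ofReal_one, one_mul]
    rw [h2]
    field_simp
  have h5 : ∀ r, ‖mt B r‖ ^ 2 = ((P : ℝ) / B.card) ^ 2 * ‖ft g r‖ ^ 2 := by
    intro r
    rw [h1, norm_mul, norm_div, Complex.norm_natCast, Complex.norm_natCast, mul_pow]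
  have h6 : ∑ t, g t ^ 2 = B.card := by
    have h7 : ∀ t, g t ^ 2 = if t ∈ B then 1 else 0 := by
      intro t
      rw [hg]
      split_ifs <;> norm_num
    rw [Finset.sum_congr rfl fun t _ => h7 t, Finset.sum_boole]
    congr 2
    ext t
    simp
  rw [Finset.sum_congr rfl fun r _ => h5 r, ← Finset.mul_sum, parseval, h6]
  field_simp

open Classical in
theorem mt_large {P : ℕ} [NeZero P] (B : Finset (ZMod P)) (hB : B.Nonempty) (τ : ℝ) (hτ : 0 < τ) :
    ((univ.filter (fun r => τ ≤ ‖mt B r‖)).card : ℝ) * τ ^ 2 ≤ (P : ℝ) / B.card := by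
  rw [← mt_pars B hB]
  calc ((univ.filter (fun r => τ ≤ ‖mt B r‖)).card : ℝ) * τ ^ 2 =
        ∑ _r ∈ univ.filter (fun r => τ ≤ ‖mt B r‖), τ ^ 2 := by
        rw [Finset.sum_const, nsmul_eq_mul]
    _ ≤ ∑ r ∈ univ.filter (fun r => τ ≤ ‖mt B r‖), ‖mt B r‖ ^ 2 := by
        refine Finset.sum_le_sum fun r hr => ?_
        exact pow_le_pow_left₀ hτ.le (Finset.mem_filter.1 hr).2 2
    _ ≤ ∑ r, ‖mt B r‖ ^ 2 :=
        Finset.sum_le_sum_of_subset_of_nonneg (Finset.subset_univ _) fun _ _ _ => sq_nonneg _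

open Classical in
theorem ft_large {P : ℕ} [NeZero P] (f : ZMod P → ℝ) (hf : ∀ t, 0 ≤ f t ∧ f t ≤ 1) (η : ℝ)
    (hη : 0 < η) : ((univ.filter (fun r => η ≤ ‖ft f r‖)).card : ℝ) * η ^ 2 ≤ 1 := by
  have hP : (0 : ℝ) < P := by exact_mod_cast Nat.pos_of_ne_zero (NeZero.ne P)
  calc ((univ.filter (fun r => η ≤ ‖ft f r‖)).card : ℝ) * η ^ 2 =
        ∑ _r ∈ univ.filter (fun r => η ≤ ‖ft f r‖), η ^ 2 := by
        rw [Finset.sum_const, nsmul_eq_mul]
    _ ≤ ∑ r ∈ univ.filter (fun r => η ≤ ‖ft f r‖), ‖ft f r‖ ^ 2 := by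
        refine Finset.sum_le_sum fun r hr => ?_
        exact pow_le_pow_left₀ hη.le (Finset.mem_filter.1 hr).2 2
    _ ≤ ∑ r, ‖ft f r‖ ^ 2 :=
        Finset.sum_le_sum_of_subset_of_nonneg (Finset.subset_univ _) fun _ _ _ => sq_nonneg _
    _ = 1 / (P : ℝ) * ∑ t, f t ^ 2 := parseval f
    _ ≤ 1 / (P : ℝ) * P := by
        refine mul_le_mul_of_nonneg_left ?_ (by positivity)
        calc ∑ t, f t ^ 2 ≤ ∑ _t : ZMod P, (1 : ℝ) :=
              Finset.sum_le_sum fun t _ => pow_le_one₀ (hf t).1 (hf t).2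
          _ = (P : ℝ) := by
              rw [Finset.sum_const, Finset.card_univ, ZMod.card, nsmul_eq_mul, mul_one]
    _ = 1 := by rw [one_div, inv_mul_cancel₀ hP.ne']

/-- the Fourier coefficients of a function with values in `[0, 1]` are at most `1` -/
theorem ft_le_one {P : ℕ} [NeZero P] (f : ZMod P → ℝ) (hf : ∀ t, 0 ≤ f t ∧ f t ≤ 1) (r : ZMod P) :
    ‖ft f r‖ ≤ 1 := by
  have hP : (0 : ℝ) < P := by exact_mod_cast Nat.pos_of_ne_zero (NeZero.ne P)
  unfold ft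
  rw [norm_mul, norm_div, norm_one, Complex.norm_natCast]
  have h1 : ‖∑ t, (f t : ℂ) * ee (-(r * t))‖ ≤ P := by
    calc ‖∑ t, (f t : ℂ) * ee (-(r * t))‖ ≤ ∑ t, ‖(f t : ℂ) * ee (-(r * t))‖ := norm_sum_le _ _
      _ ≤ ∑ _t : ZMod P, (1 : ℝ) := by
          refine Finset.sum_le_sum fun t _ => ?_
          rw [norm_mul, norm_ee, mul_one, Complex.norm_real, Real.norm_eq_abs,
            abs_of_nonneg (hf t).1]
          exact (hf t).2
      _ = (P : ℝ) := by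
          rw [Finset.sum_const, Finset.card_univ, ZMod.card, nsmul_eq_mul, mul_one]
  calc 1 / (P : ℝ) * ‖∑ t, (f t : ℂ) * ee (-(r * t))‖ ≤ 1 / (P : ℝ) * P :=
        mul_le_mul_of_nonneg_left h1 (by positivity)
    _ = 1 := by rw [one_div, inv_mul_cancel₀ hP.ne']

end Pool.Agent.H61.HB
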