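import Pool.Agent.H61.HB.RegB
import Pool.Agent.H61.HB.FtB

/-!
# [H61 HB REG] The arithmetic regularity lemma for one function

Proof. `τ = min 1 (κ/9)`, `I = ⌈192/κ^2⌉₊ + 1`, `D = max` over `i ≤ I + 1` of the entries of `par τ Φ i` (`par_mono`: take the sum of the two entries of
`par τ Φ (I+1)`). Given `f`, `i < I` from `reg_step`. Put `u = cv f (bs (i+2))`, `(d, n) = par (i+1)`, `Λ = lam (i+1)`; `|Λ| ≤ d` (`lam_card`).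
* `0 ≤ u ≤ 1`: average of values in `[0,1]` over a nonempty set. `∑ u = ∑ f`: exchange the sums, `∑ t, f (t - b) = ∑ t, f t`.
* Almost invariance, `a ∈ bs (i+1) = bohr Λ n`: by `parseval` for `t ↦ u (t+a) - u t`, `ft_sub`, `ft_shift`, `ft_cv`:
`∑ t, (u (t+a) - u t)^2 = P ∑ r, ‖ee (r a) - 1‖^2 ‖ft f r‖^2 ‖M (i+2)‖^2`, `M j = mt (bs j) r`. For every `r`:
`‖ee (r a) - 1‖ ‖M (i+2)‖ ≤ 2 τ + 2 ‖M (i+2) - M i‖`: if `r ∈ lam (i+1)` the left side is at most `τ` (`chord`, `mt_le`); else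
`‖M (i+2)‖ ≤ ‖M i‖ + ‖M (i+2) - M i‖ ≤ τ + ..` (`not_mem_lam`) and `‖ee (r a) - 1‖ ≤ 2`. Square: `(x + y)^2 ≤ 2 x^2 + 2 y^2`; total at most
`P (8 τ^2 ∑ ‖ft f r‖^2 + 8 (4 τ^2 + 12/I)) ≤ P (40 τ^2 + 96/I) ≤ κ^2 P`.
* Uniformity: `ft (f - u) r = ft f r * (1 - M (i+2))` (`ft_sub`, `ft_cv`). If `r ∈ lam (i+2)`: at most `1 * eta (i+1) ≤ Φ d n` (`near` with `i+1`,
`ft_le_one`). If `r ∉ lam (i+2)`: `‖ft f r‖ < eta (i+1) ≤ Φ d n / 2` and `‖1 - M (i+2)‖ ≤ 2`.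
-/

namespace Pool.Agent.H61.HB

open Finset

private theorem cv_bd {P : ℕ} [NeZero P] (f : ZMod P → ℝ) (hf : ∀ t, 0 ≤ f t ∧ f t ≤ 1)
    (B : Finset (ZMod P)) (hB : B.Nonempty) (t : ZMod P) : 0 ≤ cv f B t ∧ cv f B t ≤ 1 := by
  have hc : (0 : ℝ) < B.card := by exact_mod_cast hB.card_pos
  unfold cv
  constructor
  · exact mul_nonneg (by positivity) (Finset.sum_nonneg fun b _ => (hf _).1)
  · have h1 : ∑ b ∈ B, f (t - b) ≤ B.card := by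
      calc ∑ b ∈ B, f (t - b) ≤ ∑ b ∈ B, (1 : ℝ) := Finset.sum_le_sum fun b _ => (hf _).2
        _ = B.card := by rw [Finset.sum_const, nsmul_eq_mul, mul_one]
    rw [one_div, ← div_eq_inv_mul, div_le_one hc]
    exact h1

private theorem cv_sum {P : ℕ} [NeZero P] (f : ZMod P → ℝ) (B : Finset (ZMod P)) (hB : B.Nonempty) :
    ∑ t, cv f B t = ∑ t, f t := by
  have hc : (0 : ℝ) < B.card := by exact_mod_cast hB.card_pos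
  unfold cv
  rw [← Finset.mul_sum, Finset.sum_comm]
  have h1 : ∀ b ∈ B, ∑ t, f (t - b) = ∑ t, f t := by
    intro b _
    exact Fintype.sum_equiv (Equiv.subRight b) _ _ (fun t => rfl)
  rw [Finset.sum_congr rfl h1, Finset.sum_const, nsmul_eq_mul]
  field_simp

theorem reg (κ : ℝ) (hκ : 0 < κ) (Φ : ℕ → ℕ → ℝ) (hΦ : ∀ d n, 0 < Φ d n) :
    ∃ D : ℕ, ∀ (P : ℕ) [NeZero P] (f : ZMod P → ℝ), (∀ t, 0 ≤ f t ∧ f t ≤ 1) →
      ∃ (u : ZMod P → ℝ) (d n : ℕ) (Λ : Finset (ZMod P)), d ≤ D ∧ n ≤ D ∧ Λ.card ≤ d ∧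
        (∀ t, 0 ≤ u t ∧ u t ≤ 1) ∧ ∑ t, u t = ∑ t, f t ∧
        (∀ a ∈ bohr Λ n, ∑ t, (u (t + a) - u t) ^ 2 ≤ κ ^ 2 * P) ∧
        ∀ r, ‖ft (fun t => f t - u t) r‖ ≤ Φ d n := by
  obtain ⟨τ, hτ⟩ : ∃ τ, τ = min 1 (κ / 9) := ⟨_, rfl⟩
  have hτ0 : 0 < τ := by rw [hτ]; exact lt_min one_pos (by positivity)
  have hτ1 : τ ≤ 1 := by rw [hτ]; exact min_le_left _ _
  have hτ2 : τ ≤ κ / 9 := by rw [hτ]; exact min_le_right _ _
  obtain ⟨I, hI⟩ : ∃ I, I = ⌈192 / κ ^ 2⌉₊ + 1 := ⟨_, rfl⟩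
  have hI1 : 1 ≤ I := by rw [hI]; omega
  have hI2 : 192 / κ ^ 2 ≤ (I : ℝ) := by
    rw [hI]
    push_cast
    linarith [Nat.le_ceil (192 / κ ^ 2)]
  have hI0 : (0 : ℝ) < I := by exact_mod_cast hI1
  refine ⟨(par τ Φ (I + 1)).1 + (par τ Φ (I + 1)).2, ?_⟩
  intro P hP0 f hf
  have hP : (0 : ℝ) < P := by exact_mod_cast NeZero.pos P
  obtain ⟨i, hiI, hi⟩ := reg_step τ hτ0 hτ1 Φ hΦ f hf I hI1
  have hpar := par_mono τ Φ (show i + 1 ≤ I + 1 by omega)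
  have hB := bs_nonempty τ Φ f (i + 2)
  obtain ⟨M, hM⟩ : ∃ M : ZMod P → ℂ, M = fun r => mt (bs τ Φ f (i + 2)) r := ⟨_, rfl⟩
  obtain ⟨M0, hM0⟩ : ∃ M0 : ZMod P → ℂ, M0 = fun r => mt (bs τ Φ f i) r := ⟨_, rfl⟩
  have hMle : ∀ r, ‖M r‖ ≤ 1 := fun r => by rw [hM]; exact mt_le _ _
  have hi' : ∑ r, ‖ft f r‖ ^ 2 * ‖M r - M0 r‖ ^ 2 ≤ 4 * τ ^ 2 + 12 / I := by
    rw [hM, hM0]
    exact hi
  have hpars : ∑ r, ‖ft f r‖ ^ 2 ≤ 1 := by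
    rw [parseval]
    have h1 : ∑ t, f t ^ 2 ≤ P := by
      calc ∑ t, f t ^ 2 ≤ ∑ t : ZMod P, (1 : ℝ) :=
            Finset.sum_le_sum fun t _ => pow_le_one₀ (hf t).1 (hf t).2
        _ = P := by rw [Finset.sum_const, nsmul_eq_mul, mul_one, Finset.card_univ, ZMod.card]
    rw [one_div, ← div_eq_inv_mul, div_le_one hP]
    exact h1
  have hu : ∀ r, ft (cv f (bs τ Φ f (i + 2))) r = ft f r * M r := fun r => by
    rw [ft_cv, hM]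
  refine ⟨cv f (bs τ Φ f (i + 2)), (par τ Φ (i + 1)).1, (par τ Φ (i + 1)).2, lam τ Φ f (i + 1),
    hpar.1.trans (Nat.le_add_right _ _), hpar.2.trans (Nat.le_add_left _ _),
    lam_card τ hτ0 Φ hΦ f hf _, cv_bd f hf _ hB, cv_sum f _ hB, ?_, ?_⟩
  · intro a ha
    obtain ⟨g, hg⟩ : ∃ g : ZMod P → ℝ, g = fun t =>
      cv f (bs τ Φ f (i + 2)) (t + a) - cv f (bs τ Φ f (i + 2)) t := ⟨_, rfl⟩
    have h1 : ∑ t, (cv f (bs τ Φ f (i + 2)) (t + a) - cv f (bs τ Φ f (i + 2)) t) ^ 2 =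
        P * ∑ r, ‖ft g r‖ ^ 2 := by
      rw [parseval, hg]
      field_simp
    rw [h1]
    have h2 : ∀ r, ft g r = (ee (r * a) - 1) * (ft f r * M r) := by
      intro r
      rw [hg, ft_sub (fun t => cv f (bs τ Φ f (i + 2)) (t + a)), ft_shift, hu]
      ring
    have h3 : ∀ r, ‖ee (r * a) - 1‖ * ‖M r‖ ≤ 2 * τ + 2 * ‖M r - M0 r‖ := by
      intro r
      have hd : 0 ≤ ‖M r - M0 r‖ := norm_nonneg _
      by_cases hr : r ∈ lam τ Φ f (i + 1)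
      · have h4 := chord τ hτ0 Φ hΦ f i r hr a ha
        have h5 : ‖ee (r * a) - 1‖ ≤ τ := h4.trans (min_le_left _ _)
        calc ‖ee (r * a) - 1‖ * ‖M r‖ ≤ τ * 1 :=
              mul_le_mul h5 (hMle r) (norm_nonneg _) hτ0.le
          _ ≤ _ := by linarith
      · have h4 := (not_mem_lam τ Φ f i r hr).2
        have h5 : ‖M r‖ ≤ τ + ‖M r - M0 r‖ := by
          have h6 : ‖M r‖ ≤ ‖M0 r‖ + ‖M r - M0 r‖ := by
            calc ‖M r‖ = ‖M0 r + (M r - M0 r)‖ := by rw [add_sub_cancel]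
              _ ≤ _ := norm_add_le _ _
          have h7 : ‖M0 r‖ < τ := by rw [hM0]; exact h4
          linarith
        have h6 : ‖ee (r * a) - 1‖ ≤ 2 := by
          calc ‖ee (r * a) - 1‖ ≤ ‖ee (r * a)‖ + ‖(1 : ℂ)‖ := norm_sub_le _ _
            _ = 2 := by rw [norm_ee, norm_one]; norm_num
        calc ‖ee (r * a) - 1‖ * ‖M r‖ ≤ 2 * (τ + ‖M r - M0 r‖) :=
              mul_le_mul h6 h5 (norm_nonneg _) (by norm_num)
          _ = _ := by ring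
    have h4 : ∀ r, ‖ft g r‖ ^ 2 ≤ 8 * τ ^ 2 * ‖ft f r‖ ^ 2 + 8 * (‖ft f r‖ ^ 2 * ‖M r - M0 r‖ ^ 2) := by
      intro r
      rw [h2, norm_mul, norm_mul]
      have h5 : (‖ee (r * a) - 1‖ * ‖M r‖) ^ 2 ≤ (2 * τ + 2 * ‖M r - M0 r‖) ^ 2 :=
        pow_le_pow_left₀ (by positivity) (h3 r) 2
      have h6 : (2 * τ + 2 * ‖M r - M0 r‖) ^ 2 ≤ 8 * τ ^ 2 + 8 * ‖M r - M0 r‖ ^ 2 := by
        nlinarith [sq_nonneg (τ - ‖M r - M0 r‖)]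
      calc (‖ee (r * a) - 1‖ * (‖ft f r‖ * ‖M r‖)) ^ 2 =
            ‖ft f r‖ ^ 2 * (‖ee (r * a) - 1‖ * ‖M r‖) ^ 2 := by ring
        _ ≤ ‖ft f r‖ ^ 2 * (8 * τ ^ 2 + 8 * ‖M r - M0 r‖ ^ 2) :=
            mul_le_mul_of_nonneg_left (h5.trans h6) (by positivity)
        _ = _ := by ring
    have h5 : ∑ r, ‖ft g r‖ ^ 2 ≤ 40 * τ ^ 2 + 96 / I := by
      calc ∑ r, ‖ft g r‖ ^ 2 ≤ ∑ r, (8 * τ ^ 2 * ‖ft f r‖ ^ 2 +
            8 * (‖ft f r‖ ^ 2 * ‖M r - M0 r‖ ^ 2)) := Finset.sum_le_sum fun r _ => h4 r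
        _ = 8 * τ ^ 2 * ∑ r, ‖ft f r‖ ^ 2 + 8 * ∑ r, ‖ft f r‖ ^ 2 * ‖M r - M0 r‖ ^ 2 := by
            rw [Finset.sum_add_distrib, ← Finset.mul_sum, ← Finset.mul_sum]
        _ ≤ 8 * τ ^ 2 * 1 + 8 * (4 * τ ^ 2 + 12 / I) := by
            have := mul_le_mul_of_nonneg_left hpars (show (0 : ℝ) ≤ 8 * τ ^ 2 by positivity)
            linarith
        _ = 40 * τ ^ 2 + 96 / I := by ring
    have h6 : 40 * τ ^ 2 + 96 / (I : ℝ) ≤ κ ^ 2 := by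
      have h7 : τ ^ 2 ≤ (κ / 9) ^ 2 := pow_le_pow_left₀ hτ0.le hτ2 2
      have h8 : 96 / (I : ℝ) ≤ κ ^ 2 / 2 := by
        rw [div_le_div_iff₀ hI0 (by norm_num)]
        rw [div_le_iff₀ (by positivity)] at hI2
        linarith
      have h9 : (κ / 9) ^ 2 = κ ^ 2 / 81 := by ring
      have h10 : 0 < κ ^ 2 := by positivity
      nlinarith
    calc (P : ℝ) * ∑ r, ‖ft g r‖ ^ 2 ≤ P * κ ^ 2 :=
          mul_le_mul_of_nonneg_left (h5.trans h6) hP.le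
      _ = κ ^ 2 * P := mul_comm _ _
  · intro r
    rw [ft_sub, hu]
    have h1 : ft f r - ft f r * M r = ft f r * (1 - M r) := by ring
    rw [h1, norm_mul]
    have heta : eta τ Φ (i + 1) ≤ Φ (par τ Φ (i + 1)).1 (par τ Φ (i + 1)).2 / 2 := by
      unfold eta
      exact min_le_right _ _
    have hΦ0 := hΦ (par τ Φ (i + 1)).1 (par τ Φ (i + 1)).2
    by_cases hr : r ∈ lam τ Φ f (i + 2)
    · have h2 := near τ hτ0 Φ hΦ f (i + 1) r hr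
      have h3 : ‖1 - M r‖ ≤ eta τ Φ (i + 1) := by
        rw [hM]
        exact h2.trans (min_le_right _ _)
      calc ‖ft f r‖ * ‖1 - M r‖ ≤ 1 * eta τ Φ (i + 1) :=
            mul_le_mul (ft_le_one f hf r) h3 (norm_nonneg _) zero_le_one
        _ ≤ _ := by linarith
    · have h2 := (not_mem_lam τ Φ f (i + 1) r hr).1
      have h3 : ‖1 - M r‖ ≤ 2 := by
        calc ‖1 - M r‖ ≤ ‖(1 : ℂ)‖ + ‖M r‖ := norm_sub_le _ _
          _ ≤ 2 := by rw [norm_one]; linarith [hMle r]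
      calc ‖ft f r‖ * ‖1 - M r‖ ≤ eta τ Φ (i + 1) * 2 :=
            mul_le_mul h2.le h3 (norm_nonneg _) (eta_pos τ Φ hΦ _).le
        _ ≤ _ := by linarith

end Pool.Agent.H61.HB
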