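import Pool.Agent.H61.HB.RegD
import Pool.Agent.H61.HB.FtD
import Pool.Agent.H61.HB.Boh

/-!
# [H61 HB REGA] The sequences of the regularity lemma: properties

Proof. `lam_card`: induction; `|lam (i+1)| ≤ |lam i| + #{η_i ≤ ‖ft f r‖} + #{τ ≤ ‖mt B_i r‖}`; by `ft_large` the second term is at most
`1/η_i^2 ≤ ⌈1/η_i^2⌉₊`; by `mt_large` and `bohr_card` (`P ≤ 2^(n |Λ|) |B|`, `|Λ| ≤ d_i` by induction, `B_i ∋ 0` nonempty) the third one is at most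
`P/|B_i|/τ^2 ≤ 2^(n_i d_i)/τ^2`. `not_mem`: definition of `lam (i+1)`. `chord`: `bohr_chord` gives `‖ee (r b) - 1‖ ≤ 2π/2^(n_(i+1))`, and
`2^n ≥ n ≥ 2π/min τ η_i` for `n = n_(i+1)` (`Nat.lt_two_pow_self`, `Nat.le_ceil`). `near`: `mt_near`. `par_mono`: `nxt` increases both entries.
-/

namespace Pool.Agent.H61.HB

open Finset

theorem eta_pos (τ : ℝ) (Φ : ℕ → ℕ → ℝ) (hΦ : ∀ d n, 0 < Φ d n) (i : ℕ) : 0 < eta τ Φ i :=
  lt_min one_pos (half_pos (hΦ _ _))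

theorem par_mono (τ : ℝ) (Φ : ℕ → ℕ → ℝ) {i j : ℕ} (h : i ≤ j) :
    (par τ Φ i).1 ≤ (par τ Φ j).1 ∧ (par τ Φ i).2 ≤ (par τ Φ j).2 := by
  induction j, h using Nat.le_induction with
  | base => exact ⟨le_rfl, le_rfl⟩
  | succ j _ ih =>
    have h1 : par τ Φ (j + 1) = nxt τ Φ (par τ Φ j) := rfl
    rw [h1]
    refine ⟨ih.1.trans ?_, ih.2.trans ?_⟩
    · unfold nxt
      dsimp only
      rw [add_assoc]
      exact Nat.le_add_right _ _
    · unfold nxt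
      dsimp only
      exact le_max_left _ _

theorem lam_mono {P : ℕ} [NeZero P] (τ : ℝ) (Φ : ℕ → ℕ → ℝ) (f : ZMod P → ℝ) {i j : ℕ} (h : i ≤ j) :
    lam τ Φ f i ⊆ lam τ Φ f j := by
  induction j, h using Nat.le_induction with
  | base => exact Finset.Subset.refl _
  | succ j _ ih =>
    refine ih.trans ?_
    intro r hr
    rw [lam]
    exact Finset.mem_union_left _ (Finset.mem_union_left _ hr)

theorem bs_nonempty {P : ℕ} [NeZero P] (τ : ℝ) (Φ : ℕ → ℕ → ℝ) (f : ZMod P → ℝ) (i : ℕ) :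
    (bs τ Φ f i).Nonempty := ⟨0, bohr_zero _ _⟩

theorem lam_card {P : ℕ} [NeZero P] (τ : ℝ) (hτ : 0 < τ) (Φ : ℕ → ℕ → ℝ) (hΦ : ∀ d n, 0 < Φ d n)
    (f : ZMod P → ℝ) (hf : ∀ t, 0 ≤ f t ∧ f t ≤ 1) (i : ℕ) :
    (lam τ Φ f i).card ≤ (par τ Φ i).1 := by
  classical
  induction i with
  | zero =>
    rw [lam]
    exact Nat.zero_le _
  | succ i ih =>
    have h1 : par τ Φ (i + 1) = nxt τ Φ (par τ Φ i) := rfl
    have hη : 0 < eta τ Φ i := eta_pos τ Φ hΦ i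
    have hB : 0 < ((bs τ Φ f i).card : ℝ) := by exact_mod_cast (bs_nonempty τ Φ f i).card_pos
    rw [h1, lam]
    unfold nxt
    dsimp only
    refine (Finset.card_union_le _ _).trans (add_le_add
      ((Finset.card_union_le _ _).trans (add_le_add ih ?_)) ?_)
    · have h2 := ft_large f hf (eta τ Φ i) hη
      have h3 : ((univ.filter (fun r => eta τ Φ i ≤ ‖ft f r‖)).card : ℝ) ≤
          1 / (eta τ Φ i) ^ 2 := by
        rw [le_div_iff₀ (by positivity)]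
        exact h2
      have h4 := h3.trans (Nat.le_ceil _)
      have h5 : (univ.filter (fun r => eta τ Φ i ≤ ‖ft f r‖)).card ≤
          ⌈1 / (eta τ Φ i) ^ 2⌉₊ := by exact_mod_cast h4
      exact h5
    · have h2 := mt_large (bs τ Φ f i) (bs_nonempty τ Φ f i) τ hτ
      have h3 : (P : ℝ) / (bs τ Φ f i).card ≤ (2 : ℝ) ^ ((par τ Φ i).2 * (par τ Φ i).1) := by
        rw [div_le_iff₀ hB]
        have h6 := bohr_card (lam τ Φ f i) (par τ Φ i).2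
        have h7 : (P : ℝ) ≤ (2 : ℝ) ^ ((par τ Φ i).2 * (lam τ Φ f i).card) *
            (bs τ Φ f i).card := by exact_mod_cast h6
        refine h7.trans (mul_le_mul_of_nonneg_right ?_ hB.le)
        exact pow_le_pow_right₀ (by norm_num) (Nat.mul_le_mul_left _ ih)
      have h4 : ((univ.filter (fun r => τ ≤ ‖mt (bs τ Φ f i) r‖)).card : ℝ) ≤
          (2 : ℝ) ^ ((par τ Φ i).2 * (par τ Φ i).1) / τ ^ 2 := by
        rw [le_div_iff₀ (by positivity)]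
        exact h2.trans h3
      have h5 := h4.trans (Nat.le_ceil _)
      have h6 : (univ.filter (fun r => τ ≤ ‖mt (bs τ Φ f i) r‖)).card ≤
          ⌈(2 : ℝ) ^ ((par τ Φ i).2 * (par τ Φ i).1) / τ ^ 2⌉₊ := by exact_mod_cast h5
      exact h6

theorem not_mem_lam {P : ℕ} [NeZero P] (τ : ℝ) (Φ : ℕ → ℕ → ℝ) (f : ZMod P → ℝ) (i : ℕ) (r : ZMod P)
    (h : r ∉ lam τ Φ f (i + 1)) : ‖ft f r‖ < eta τ Φ i ∧ ‖mt (bs τ Φ f i) r‖ < τ := by
  rw [lam, Finset.mem_union, Finset.mem_union, Finset.mem_filter, Finset.mem_filter] at h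
  constructor
  · by_contra h1
    push Not at h1
    exact h (Or.inl (Or.inr ⟨Finset.mem_univ _, h1⟩))
  · by_contra h1
    push Not at h1
    exact h (Or.inr ⟨Finset.mem_univ _, h1⟩)

theorem chord {P : ℕ} [NeZero P] (τ : ℝ) (hτ : 0 < τ) (Φ : ℕ → ℕ → ℝ) (hΦ : ∀ d n, 0 < Φ d n)
    (f : ZMod P → ℝ) (i : ℕ) (r : ZMod P) (hr : r ∈ lam τ Φ f (i + 1)) (b : ZMod P)
    (hb : b ∈ bs τ Φ f (i + 1)) : ‖ee (r * b) - 1‖ ≤ min τ (eta τ Φ i) := by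
  have h1 := bohr_chord hb hr
  refine h1.trans ?_
  have hm : 0 < min τ (eta τ Φ i) := lt_min hτ (eta_pos τ Φ hΦ i)
  have h2 : par τ Φ (i + 1) = nxt τ Φ (par τ Φ i) := rfl
  have h3 : ⌈2 * Real.pi / min τ (eta τ Φ i)⌉₊ ≤ (par τ Φ (i + 1)).2 := by
    rw [h2]
    exact le_max_right _ _
  have h4 : 2 * Real.pi / min τ (eta τ Φ i) ≤ (2 : ℝ) ^ (par τ Φ (i + 1)).2 := by
    have h5 : ((par τ Φ (i + 1)).2 : ℝ) ≤ (2 : ℝ) ^ (par τ Φ (i + 1)).2 := by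
      exact_mod_cast (Nat.lt_two_pow_self (n := (par τ Φ (i + 1)).2)).le
    refine le_trans ((Nat.le_ceil _).trans ?_) h5
    exact_mod_cast h3
  rw [div_le_iff₀ (by positivity)]
  rw [div_le_iff₀ hm] at h4
  linarith

theorem near {P : ℕ} [NeZero P] (τ : ℝ) (hτ : 0 < τ) (Φ : ℕ → ℕ → ℝ) (hΦ : ∀ d n, 0 < Φ d n)
    (f : ZMod P → ℝ) (i : ℕ) (r : ZMod P) (hr : r ∈ lam τ Φ f (i + 1)) :
    ‖1 - mt (bs τ Φ f (i + 1)) r‖ ≤ min τ (eta τ Φ i) :=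
  mt_near _ (bs_nonempty τ Φ f (i + 1)) r _ fun b hb => chord τ hτ Φ hΦ f i r hr b hb

end Pool.Agent.H61.HB
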