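import Pool.Agent.H61.HB.RegA

/-!
# [H61 HB REGB] One step at which the average over the Bohr set changes little

Proof. Fix `r` and put `x i = if r ∈ lam i then 1 else 0` (increasing in `i` by `lam_mono`), `M i = mt (bs i) r`, `‖M i‖ ≤ 1` (`mt_le`). Claim:
`‖M (i+2) - M i‖^2 ≤ 4 τ^2 + 4 (x (i+3) - x i)`. (1) `r ∈ lam i`: then `i = j + 1` (`lam 0 = ∅`), `‖1 - M i‖ ≤ τ` and
`‖1 - M (i+2)‖ ≤ τ` (`near`, `lam_mono`), so the left side is at most `(2τ)^2`. (2) `r ∉ lam (i+3)`: then `r ∉ lam (i+1)` and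
`‖M i‖ < τ`, `‖M (i+2)‖ < τ` (`not_mem_lam`). (3) Otherwise `x (i+3) - x i = 1` and the left side is at most `4`.
Sum over `i < I`: `∑_(i<I) (x (i+3) - x i) = x (I+2) + x (I+1) + x I - x 2 - x 1 - x 0 ≤ 3` (induction on `I`), so
`∑_(i<I) ‖M (i+2) - M i‖^2 ≤ 4 I τ^2 + 12`. Multiply by `‖ft f r‖^2`, sum over `r` (`∑ ‖ft f r‖^2 ≤ 1` by `parseval`): the sum over `i < I` of the
`∑_r ..` is at most `4 I τ^2 + 12`; some `i < I` is at most the mean (`Finset.exists_le_of_sum_le` or by contradiction).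
-/

namespace Pool.Agent.H61.HB

open Finset

open Classical in
private noncomputable def xx {P : ℕ} [NeZero P] (τ : ℝ) (Φ : ℕ → ℕ → ℝ) (f : ZMod P → ℝ)
    (r : ZMod P) (i : ℕ) : ℝ := if r ∈ lam τ Φ f i then 1 else 0

private theorem xx_mono {P : ℕ} [NeZero P] (τ : ℝ) (Φ : ℕ → ℕ → ℝ) (f : ZMod P → ℝ)
    (r : ZMod P) {i j : ℕ} (h : i ≤ j) : xx τ Φ f r i ≤ xx τ Φ f r j := by
  classical
  unfold xx
  by_cases h1 : r ∈ lam τ Φ f i
  · rw [if_pos h1, if_pos (lam_mono τ Φ f h h1)]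
  · rw [if_neg h1]
    split_ifs <;> norm_num

private theorem xx_bd {P : ℕ} [NeZero P] (τ : ℝ) (Φ : ℕ → ℕ → ℝ) (f : ZMod P → ℝ)
    (r : ZMod P) (i : ℕ) : 0 ≤ xx τ Φ f r i ∧ xx τ Φ f r i ≤ 1 := by
  classical
  unfold xx
  split_ifs <;> norm_num

private theorem xx_sum {P : ℕ} [NeZero P] (τ : ℝ) (Φ : ℕ → ℕ → ℝ) (f : ZMod P → ℝ)
    (r : ZMod P) (I : ℕ) : ∑ i ∈ range I, (xx τ Φ f r (i + 3) - xx τ Φ f r i) ≤ 3 := by
  have h1 : ∀ I, ∑ i ∈ range I, (xx τ Φ f r (i + 3) - xx τ Φ f r i) =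
      xx τ Φ f r (I + 2) + xx τ Φ f r (I + 1) + xx τ Φ f r I -
        xx τ Φ f r 2 - xx τ Φ f r 1 - xx τ Φ f r 0 := by
    intro I
    induction I with
    | zero =>
      rw [Finset.range_zero, Finset.sum_empty]
      ring
    | succ I ih =>
      rw [Finset.sum_range_succ, ih]
      ring
  rw [h1]
  have h2 := (xx_bd τ Φ f r (I + 2)).2
  have h3 := (xx_bd τ Φ f r (I + 1)).2
  have h4 := (xx_bd τ Φ f r I).2
  have h5 := (xx_bd τ Φ f r 2).1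
  have h6 := (xx_bd τ Φ f r 1).1
  have h7 := (xx_bd τ Φ f r 0).1
  linarith

private theorem step_one {P : ℕ} [NeZero P] (τ : ℝ) (hτ : 0 < τ) (Φ : ℕ → ℕ → ℝ)
    (hΦ : ∀ d n, 0 < Φ d n) (f : ZMod P → ℝ) (r : ZMod P) (i : ℕ) :
    ‖mt (bs τ Φ f (i + 2)) r - mt (bs τ Φ f i) r‖ ^ 2 ≤
      4 * τ ^ 2 + 4 * (xx τ Φ f r (i + 3) - xx τ Φ f r i) := by
  classical
  have hx : 0 ≤ xx τ Φ f r (i + 3) - xx τ Φ f r i := sub_nonneg.2 (xx_mono τ Φ f r (by omega))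
  by_cases h1 : r ∈ lam τ Φ f i
  · have hi : ∃ j, i = j + 1 := by
      rcases i with _ | j
      · rw [lam] at h1
        exact absurd h1 (Finset.notMem_empty r)
      · exact ⟨j, rfl⟩
    obtain ⟨j, rfl⟩ := hi
    have h2 := (near τ hτ Φ hΦ f j r h1).trans (min_le_left _ _)
    have h3 := (near τ hτ Φ hΦ f (j + 2) r (lam_mono τ Φ f (by omega) h1)).trans (min_le_left _ _)
    have h4 : ‖mt (bs τ Φ f (j + 1 + 2)) r - mt (bs τ Φ f (j + 1)) r‖ ≤ 2 * τ := by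
      have h5 : mt (bs τ Φ f (j + 1 + 2)) r - mt (bs τ Φ f (j + 1)) r =
          (1 - mt (bs τ Φ f (j + 1)) r) - (1 - mt (bs τ Φ f (j + 2 + 1)) r) := by ring
      rw [h5]
      exact (norm_sub_le _ _).trans (by linarith)
    have h6 := pow_le_pow_left₀ (norm_nonneg _) h4 2
    nlinarith
  · by_cases h2 : r ∈ lam τ Φ f (i + 3)
    · have h3 : xx τ Φ f r (i + 3) - xx τ Φ f r i = 1 := by
        unfold xx
        rw [if_pos h2, if_neg h1, sub_zero]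
      rw [h3]
      have h4 : ‖mt (bs τ Φ f (i + 2)) r - mt (bs τ Φ f i) r‖ ≤ 2 := by
        refine (norm_sub_le _ _).trans ?_
        have h5 := mt_le (bs τ Φ f (i + 2)) r
        have h6 := mt_le (bs τ Φ f i) r
        linarith
      have h6 := pow_le_pow_left₀ (norm_nonneg _) h4 2
      nlinarith [sq_nonneg τ]
    · have h3 := (not_mem_lam τ Φ f (i + 2) r h2).2
      have h4 := (not_mem_lam τ Φ f i r (fun h => h2 (lam_mono τ Φ f (by omega) h))).2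
      have h5 : ‖mt (bs τ Φ f (i + 2)) r - mt (bs τ Φ f i) r‖ ≤ 2 * τ :=
        (norm_sub_le _ _).trans (by linarith)
      have h6 := pow_le_pow_left₀ (norm_nonneg _) h5 2
      nlinarith

theorem reg_step {P : ℕ} [NeZero P] (τ : ℝ) (hτ : 0 < τ) (hτ1 : τ ≤ 1) (Φ : ℕ → ℕ → ℝ)
    (hΦ : ∀ d n, 0 < Φ d n) (f : ZMod P → ℝ) (hf : ∀ t, 0 ≤ f t ∧ f t ≤ 1) (I : ℕ) (hI : 1 ≤ I) :
    ∃ i < I, ∑ r, ‖ft f r‖ ^ 2 * ‖mt (bs τ Φ f (i + 2)) r - mt (bs τ Φ f i) r‖ ^ 2 ≤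
      4 * τ ^ 2 + 12 / I := by
  have hP : (0 : ℝ) < P := by exact_mod_cast Nat.pos_of_ne_zero (NeZero.ne P)
  have hI0 : (0 : ℝ) < I := by exact_mod_cast hI
  have hpars : ∑ r, ‖ft f r‖ ^ 2 ≤ 1 := by
    rw [parseval]
    calc 1 / (P : ℝ) * ∑ t, f t ^ 2 ≤ 1 / (P : ℝ) * P := by
          refine mul_le_mul_of_nonneg_left ?_ (by positivity)
          calc ∑ t, f t ^ 2 ≤ ∑ _t : ZMod P, (1 : ℝ) :=
                Finset.sum_le_sum fun t _ => pow_le_one₀ (hf t).1 (hf t).2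
            _ = (P : ℝ) := by
                rw [Finset.sum_const, Finset.card_univ, ZMod.card, nsmul_eq_mul, mul_one]
      _ = 1 := by rw [one_div, inv_mul_cancel₀ hP.ne']
  have hr : ∀ r : ZMod P, ∑ i ∈ range I, ‖mt (bs τ Φ f (i + 2)) r - mt (bs τ Φ f i) r‖ ^ 2 ≤
      4 * τ ^ 2 * I + 12 := by
    intro r
    calc ∑ i ∈ range I, ‖mt (bs τ Φ f (i + 2)) r - mt (bs τ Φ f i) r‖ ^ 2 ≤
          ∑ i ∈ range I, (4 * τ ^ 2 + 4 * (xx τ Φ f r (i + 3) - xx τ Φ f r i)) :=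
          Finset.sum_le_sum fun i _ => step_one τ hτ Φ hΦ f r i
      _ = 4 * τ ^ 2 * I + 4 * ∑ i ∈ range I, (xx τ Φ f r (i + 3) - xx τ Φ f r i) := by
          rw [Finset.sum_add_distrib, Finset.sum_const, Finset.card_range, nsmul_eq_mul,
            ← Finset.mul_sum]
          ring
      _ ≤ 4 * τ ^ 2 * I + 12 := by
          have h1 := xx_sum τ Φ f r I
          linarith
  have htot : ∑ i ∈ range I, ∑ r, ‖ft f r‖ ^ 2 *
      ‖mt (bs τ Φ f (i + 2)) r - mt (bs τ Φ f i) r‖ ^ 2 ≤ 4 * τ ^ 2 * I + 12 := by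
    rw [Finset.sum_comm]
    calc ∑ r, ∑ i ∈ range I, ‖ft f r‖ ^ 2 * ‖mt (bs τ Φ f (i + 2)) r - mt (bs τ Φ f i) r‖ ^ 2 ≤
          ∑ r, ‖ft f r‖ ^ 2 * (4 * τ ^ 2 * I + 12) := by
          refine Finset.sum_le_sum fun r _ => ?_
          rw [← Finset.mul_sum]
          exact mul_le_mul_of_nonneg_left (hr r) (sq_nonneg _)
      _ = (∑ r, ‖ft f r‖ ^ 2) * (4 * τ ^ 2 * I + 12) := by rw [Finset.sum_mul]
      _ ≤ 1 * (4 * τ ^ 2 * I + 12) := mul_le_mul_of_nonneg_right hpars (by positivity)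
      _ = 4 * τ ^ 2 * I + 12 := one_mul _
  by_contra hcon
  push Not at hcon
  have h1 : ∑ i ∈ range I, (4 * τ ^ 2 + 12 / (I : ℝ)) < ∑ i ∈ range I, ∑ r, ‖ft f r‖ ^ 2 *
      ‖mt (bs τ Φ f (i + 2)) r - mt (bs τ Φ f i) r‖ ^ 2 := by
    refine Finset.sum_lt_sum_of_nonempty ⟨0, Finset.mem_range.2 (by omega)⟩ fun i hi => ?_
    exact hcon i (Finset.mem_range.1 hi)
  rw [Finset.sum_const, Finset.card_range, nsmul_eq_mul] at h1
  have h2 : (I : ℝ) * (4 * τ ^ 2 + 12 / I) = 4 * τ ^ 2 * I + 12 := by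
    field_simp
  linarith

end Pool.Agent.H61.HB
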