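import Pool.Agent.H61.HB.Def

/-!
# [H61 HB REGD] The sequences of the regularity lemma: definitions

`par τ Φ i = (d_i, n_i)`: numbers depending on `τ`, `Φ`, `i` only; `eta τ Φ i = min 1 (Φ d_i n_i / 2)`; `lam τ Φ f i`: the frequencies, `bs τ Φ f i`:
the Bohr set with frequencies `lam i` and radius `2^(-n_i)`.
-/

namespace Pool.Agent.H61.HB

open Finset

/-- the pair `(d, n)` after `(d, n)` -/
noncomputable def nxt (τ : ℝ) (Φ : ℕ → ℕ → ℝ) (q : ℕ × ℕ) : ℕ × ℕ :=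
  (q.1 + ⌈1 / (min 1 (Φ q.1 q.2 / 2)) ^ 2⌉₊ + ⌈(2 : ℝ) ^ (q.2 * q.1) / τ ^ 2⌉₊,
    max q.2 ⌈2 * Real.pi / min τ (min 1 (Φ q.1 q.2 / 2))⌉₊)

/-- the numbers `(d_i, n_i)` -/
noncomputable def par (τ : ℝ) (Φ : ℕ → ℕ → ℝ) : ℕ → ℕ × ℕ
  | 0 => (0, 0)
  | i + 1 => nxt τ Φ (par τ Φ i)

/-- `min 1 (Φ d_i n_i / 2)` -/
noncomputable def eta (τ : ℝ) (Φ : ℕ → ℕ → ℝ) (i : ℕ) : ℝ :=
  min 1 (Φ (par τ Φ i).1 (par τ Φ i).2 / 2)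

open Classical in
/-- the frequencies -/
noncomputable def lam {P : ℕ} [NeZero P] (τ : ℝ) (Φ : ℕ → ℕ → ℝ) (f : ZMod P → ℝ) :
    ℕ → Finset (ZMod P)
  | 0 => ∅
  | i + 1 => lam τ Φ f i ∪ univ.filter (fun r => eta τ Φ i ≤ ‖ft f r‖) ∪
      univ.filter (fun r => τ ≤ ‖mt (bohr (lam τ Φ f i) (par τ Φ i).2) r‖)

/-- the Bohr sets -/
noncomputable def bs {P : ℕ} [NeZero P] (τ : ℝ) (Φ : ℕ → ℕ → ℝ) (f : ZMod P → ℝ) (i : ℕ) :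
    Finset (ZMod P) := bohr (lam τ Φ f i) (par τ Φ i).2

end Pool.Agent.H61.HB
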